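import Pool.Agent.H74.PH.Defs

/-! PH-AF: the function `δ |F - c0|²` on the hodograph plane. -/

set_option autoImplicit false

open Complex MeasureTheory Set Filter Topology Metric
open scoped ContDiff RealInnerProductSpace

namespace Pool.Agent.H74.PH

namespace AF

/-- `e^(α t) (a cos (β φ) + b sin (β φ))` -/
noncomputable def E (α β a b : ℝ) (w : ℂ) : ℝ :=
  Real.exp (α * w.re) * (a * Real.cos (β * w.im) + b * Real.sin (β * w.im))

theorem E_has (α β a b : ℝ) (w : ℂ) : HasFDerivAt (E α β a b)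
    ((α * E α β a b w) • reCLM + (β * E α β b (-a) w) • imCLM) w := by
  have h1 : HasFDerivAt (fun w : ℂ => α * w.re) (α • reCLM) w :=
    (reCLM.hasFDerivAt (x := w)).const_mul α
  have h2 : HasFDerivAt (fun w : ℂ => β * w.im) (β • imCLM) w :=
    (imCLM.hasFDerivAt (x := w)).const_mul β
  have h3 := h1.exp.mul ((h2.cos.const_mul a).add (h2.sin.const_mul b))
  refine h3.congr_fderiv ?_
  ext v
  simp [E, smul_eq_mul]
  ring

theorem d1_of {f : ℂ → ℝ} {w : ℂ} {p q : ℝ} (h : HasFDerivAt f (p • reCLM + q • imCLM) w) :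
    d1 f w = p ∧ d2 f w = q := by
  unfold d1 d2
  rw [h.fderiv]
  constructor <;> simp

end AF

open AF in
/-- PH-AF: the function `δ |F - c0|²` on the hodograph plane, `F = exp (k0 t + i φ)`. -/
theorem afun {K : ℝ} (hK : 0 < K) : ∃ C : ℝ, 0 < C ∧ ∀ (δ : ℝ) (c0 w : ℂ), 0 ≤ δ →
    ‖exp (k0 K * w.re + w.im * I) - c0‖ ≤ 1 → 1 ≤ Real.exp (k0 K * w.re) →
      ContDiff ℝ 2 (fun w : ℂ => δ * ‖exp (k0 K * w.re + w.im * I) - c0‖ ^ 2) ∧
      gr (fun w : ℂ => δ * ‖exp (k0 K * w.re + w.im * I) - c0‖ ^ 2) w ≤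
        C * δ * Real.exp (k0 K * w.re) ∧
      4 * δ * Real.exp (k0 K * w.re) ^ 2 ≤
        lap (fun w : ℂ => δ * ‖exp (k0 K * w.re + w.im * I) - c0‖ ^ 2) w := by
  have hk1 : 1 ≤ k0 K := by
    have hs : 0 < √K := Real.sqrt_pos.2 hK
    unfold k0
    rw [le_div_iff₀ (by norm_num : (0 : ℝ) < 2), one_mul]
    have : √K + 1 / √K - 2 = (√K - 1) ^ 2 / √K := by field_simp; ring
    have h2 : 0 ≤ (√K - 1) ^ 2 / √K := by positivity
    linarith
  set k := k0 K with hk
  refine ⟨2 * k, by linarith, ?_⟩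
  intro δ c0 w hδ hle hQ1
  set a := c0.re with ha
  set b := c0.im with hb
  have hexp : ∀ w : ℂ, exp (k * w.re + w.im * I) =
      ((Real.exp (k * w.re) * Real.cos w.im : ℝ) : ℂ) +
        ((Real.exp (k * w.re) * Real.sin w.im : ℝ) : ℂ) * I := by
    intro w
    rw [Complex.exp_add, Complex.exp_mul_I]
    push_cast
    ring
  have hnorm : ∀ w : ℂ, ‖exp (k * w.re + w.im * I) - c0‖ ^ 2 =
      (Real.exp (k * w.re) * Real.cos w.im - a) ^ 2 +
        (Real.exp (k * w.re) * Real.sin w.im - b) ^ 2 := by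
    intro w
    rw [hexp w, ← Complex.normSq_eq_norm_sq, Complex.normSq_apply]
    simp only [sub_re, add_re, mul_re, ofReal_re, I_re, mul_zero, ofReal_im, I_im, mul_one,
      sub_self, add_zero, sub_im, add_im, mul_im, zero_add]
    ring
  have hf : (fun w : ℂ => δ * ‖exp (k * w.re + w.im * I) - c0‖ ^ 2) =
      fun w => δ * (E (2 * k) 0 1 0 w - 2 * E k 1 a b w + (a ^ 2 + b ^ 2)) := by
    funext w
    rw [hnorm w]
    simp only [E, zero_mul, Real.cos_zero, Real.sin_zero, one_mul]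
    have e1 : Real.exp (2 * k * w.re) = Real.exp (k * w.re) ^ 2 := by
      rw [← Real.exp_nat_mul]; congr 1; push_cast; ring
    rw [e1]
    have := Real.sin_sq_add_cos_sq w.im
    linear_combination δ * Real.exp (k * w.re) ^ 2 * this
  rw [hf]
  have hd : ∀ w, d1 (fun w => δ * (E (2 * k) 0 1 0 w - 2 * E k 1 a b w + (a ^ 2 + b ^ 2))) w =
        δ * (2 * k * E (2 * k) 0 1 0 w - 2 * (k * E k 1 a b w)) ∧
      d2 (fun w => δ * (E (2 * k) 0 1 0 w - 2 * E k 1 a b w + (a ^ 2 + b ^ 2))) w =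
        δ * (- 2 * E k 1 b (-a) w) := by
    intro w
    apply d1_of
    have h3 := (((E_has (2 * k) 0 1 0 w).sub ((E_has k 1 a b w).const_mul 2)).add_const
      (a ^ 2 + b ^ 2)).const_mul δ
    refine h3.congr_fderiv ?_
    ext v
    simp [smul_eq_mul]
    ring
  have hd1 : d1 (fun w => δ * (E (2 * k) 0 1 0 w - 2 * E k 1 a b w + (a ^ 2 + b ^ 2))) =
      fun w => δ * (2 * k * E (2 * k) 0 1 0 w - 2 * (k * E k 1 a b w)) :=
    funext fun w => (hd w).1
  have hd2 : d2 (fun w => δ * (E (2 * k) 0 1 0 w - 2 * E k 1 a b w + (a ^ 2 + b ^ 2))) =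
      fun w => δ * (- 2 * E k 1 b (-a) w) := funext fun w => (hd w).2
  have hd11 : d1 (fun w => δ * (2 * k * E (2 * k) 0 1 0 w - 2 * (k * E k 1 a b w))) w =
      δ * (4 * k ^ 2 * E (2 * k) 0 1 0 w - 2 * k ^ 2 * E k 1 a b w) := by
    have h3 := (((E_has (2 * k) 0 1 0 w).const_mul (2 * k)).sub
      (((E_has k 1 a b w).const_mul k).const_mul 2)).const_mul δ
    have h4 : HasFDerivAt (fun w => δ * (2 * k * E (2 * k) 0 1 0 w - 2 * (k * E k 1 a b w)))
      ((δ * (4 * k ^ 2 * E (2 * k) 0 1 0 w - 2 * k ^ 2 * E k 1 a b w)) • reCLM +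
        (δ * (-2 * k * E k 1 b (-a) w)) • imCLM) w := by
      refine h3.congr_fderiv ?_
      ext v
      simp [smul_eq_mul]
      ring
    exact (d1_of h4).1
  have hd22 : d2 (fun w => δ * (- 2 * E k 1 b (-a) w)) w = δ * (2 * E k 1 a b w) := by
    have h3 := ((E_has k 1 b (-a) w).const_mul (-2)).const_mul δ
    have h4 : HasFDerivAt (fun w => δ * (- 2 * E k 1 b (-a) w))
      ((δ * (-2 * k * E k 1 b (-a) w)) • reCLM + (δ * (2 * E k 1 a b w)) • imCLM) w := by
      refine h3.congr_fderiv ?_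
      ext v
      simp [smul_eq_mul, E]
      ring
    exact (d1_of h4).2
  -- numbers
  set Q := Real.exp (k * w.re) with hQ
  set P := a * Real.cos w.im + b * Real.sin w.im with hP
  set R := b * Real.cos w.im - a * Real.sin w.im with hR
  have eE1 : E (2 * k) 0 1 0 w = Q ^ 2 := by
    simp only [E, zero_mul, Real.cos_zero, Real.sin_zero, one_mul]
    have e1 : Real.exp (2 * k * w.re) = Real.exp (k * w.re) ^ 2 := by
      rw [← Real.exp_nat_mul]; congr 1; push_cast; ring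
    rw [e1]; ring
  have eE2 : E k 1 a b w = Q * P := by simp only [E, one_mul]; rfl
  have eE3 : E k 1 b (-a) w = Q * R := by simp only [E, one_mul]; rw [hR]; ring
  have hsq : (Q - P) ^ 2 + R ^ 2 ≤ 1 := by
    have h1 : ‖exp (k * w.re + w.im * I) - c0‖ ^ 2 ≤ 1 := pow_le_one₀ (norm_nonneg _) hle
    rw [hnorm w] at h1
    refine le_trans (le_of_eq ?_) h1
    have := Real.sin_sq_add_cos_sq w.im
    rw [hP, hR, hQ]
    linear_combination ((a ^ 2 + b ^ 2) - Real.exp (k * w.re) ^ 2) * this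
  refine ⟨?_, ?_, ?_⟩
  · unfold E
    have h1 : ContDiff ℝ 2 (fun w : ℂ => w.re) := reCLM.contDiff
    have h2 : ContDiff ℝ 2 (fun w : ℂ => w.im) := imCLM.contDiff
    fun_prop
  · unfold gr
    rw [(hd w).1, (hd w).2, eE1, eE2, eE3]
    apply Real.sqrt_le_iff.2
    constructor
    · positivity
    · have h1 : k ^ 2 * (Q - P) ^ 2 + R ^ 2 ≤ k ^ 2 * 1 := by
        have g1 : 0 ≤ (k ^ 2 - 1) * R ^ 2 := mul_nonneg (by nlinarith) (sq_nonneg R)
        have g2 := mul_le_mul_of_nonneg_left hsq (sq_nonneg k)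
        nlinarith
      have h2 : 0 ≤ 4 * δ ^ 2 * Q ^ 2 := by positivity
      calc (δ * (2 * k * Q ^ 2 - 2 * (k * (Q * P)))) ^ 2 + (δ * (-2 * (Q * R))) ^ 2
          = 4 * δ ^ 2 * Q ^ 2 * (k ^ 2 * (Q - P) ^ 2 + R ^ 2) := by ring
        _ ≤ 4 * δ ^ 2 * Q ^ 2 * (k ^ 2 * 1) := mul_le_mul_of_nonneg_left h1 h2
        _ = (2 * k * δ * Q) ^ 2 := by ring
  · unfold lap
    rw [hd1, hd2, hd11, hd22, eE1, eE2]
    have hPQ : P ≤ Q + 1 := by nlinarith [sq_nonneg R, sq_nonneg (Q - P + 1)]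
    have h1 : 0 ≤ (k ^ 2 - 1) * Q * (2 * Q - P) := by
      have : 0 ≤ k ^ 2 - 1 := by nlinarith
      have h3 : 0 ≤ 2 * Q - P := by linarith
      have h4 : 0 ≤ Q := by linarith
      positivity
    nlinarith [mul_nonneg hδ h1]

end Pool.Agent.H74.PH
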