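import Pool.Agent.H74.PH.Stubs

/-! PH-CASEA -/

set_option autoImplicit false

open Complex MeasureTheory Set Filter Topology Metric
open scoped ContDiff RealInnerProductSpace

namespace Pool.Agent.H74.PH

namespace CA

theorem sig_zero {K : ℝ} {g : ℂ → ℂ} {z : ℂ} (h : g z = 0) : sig K g z = 0 := by
  unfold sig S
  rw [h]; simp

theorem PP_zero {K k ε : ℝ} {g : ℂ → ℂ} {z : ℂ} (h : g z = 0) : PP K k ε g z = 0 := by
  have hS : S g z = 0 := by unfold S; rw [h]; simp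
  unfold PP
  rw [hS]; simp

theorem k0_pos {K : ℝ} (hK : 0 < K) : 0 < k0 K := by
  have hs : 0 < √K := Real.sqrt_pos.2 hK
  unfold k0
  positivity

theorem gr_const (w : ℂ) : gr (fun _ => (0 : ℝ)) w = 0 := by
  simp [gr, d1, d2]

theorem lap_const (w : ℂ) : lap (fun _ => (0 : ℝ)) w = 0 := by
  have h1 : d1 (fun _ => (0 : ℝ)) = fun _ => 0 := by funext w; simp [d1]
  have h2 : d2 (fun _ => (0 : ℝ)) = fun _ => 0 := by funext w; simp [d2]
  unfold lap
  rw [h1, h2, h1, h2]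
  simp

end CA

open CA in
theorem caseA_proof {K : ℝ} (hK : 0 < K) : ∃ C : ℝ, 0 < C ∧ ∀ (Ω : Set ℂ) (g : ℂ → ℂ) (L : ℝ),
    PGrad K Ω g → closedBall 0 1 ⊆ Ω → (∀ z ∈ closedBall (0 : ℂ) 1, ‖g z‖ ≤ 1) →
    (∀ z ∈ closedBall (0 : ℂ) 1, sig K g z ≤ L) → sig K g 0 ≤ C := by
  obtain ⟨Cb, hCb, hPB⟩ := PP_bounds hK
  obtain ⟨Ck, hCk, hkey⟩ := key hK
  have hk0 := k0_pos hK
  have hsK : 0 < √K := Real.sqrt_pos.2 hK
  set c1 : ℝ := 1 / (4000 * Ck + 1) with hc1
  have hc1pos : 0 < c1 := by positivity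
  have hc1le : c1 ≤ 1 := by
    rw [hc1, div_le_one (by positivity)]; linarith
  set C2 : ℝ := Ck / c1 ^ 2 with hC2
  have hC2pos : 0 < C2 := by positivity
  refine ⟨√(Cb * C2), Real.sqrt_pos.2 (by positivity), ?_⟩
  intro Ω g L hg hB hg1 hL
  have h0B : (0 : ℂ) ∈ closedBall (0 : ℂ) 1 := by simp
  by_cases hg0 : g 0 = 0
  · rw [sig_zero hg0]; exact Real.sqrt_nonneg _
  by_cases hS0 : S g 0 = 0
  · have : sig K g 0 = 0 := by unfold sig; rw [hS0]; simp
    rw [this]; exact Real.sqrt_nonneg _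
  -- the estimate for `k > k0`
  have main : ∀ k : ℝ, k0 K < k → k ≤ 2 * k0 K →
      ‖g 0‖ ^ (4 * √K * (k - k0 K)) * sig K g 0 ^ 2 ≤ Cb * C2 := by
    intro k hk hk2
    have hkpos : 0 < k := hk0.trans hk
    have hE : ∀ z ∈ closedBall (0 : ℂ) 1, (1 / 10 : ℝ) * ‖g z‖ ^ (√K * k / 2) ≤ 1 / 10 := by
      intro z hz
      have : ‖g z‖ ^ (√K * k / 2) ≤ 1 :=
        Real.rpow_le_one (norm_nonneg _) (hg1 z hz) (by positivity)
      linarith
    have hpb : ∀ z ∈ closedBall (0 : ℂ) 1, g z ≠ 0 → _ := fun z hz hgz =>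
      hPB k (1 / 10) g z hk.le hk2 (by norm_num) (hE z hz) hgz
    have hcont : ContinuousOn (PP K k (1 / 10) g) (closedBall 0 1) :=
      PP_cont hK hg hB hk.le (by norm_num) hE
        (fun z hz hgz => ⟨(hpb z hz hgz).1, (hpb z hz hgz).2.2.1⟩) (Or.inr ⟨hk, hL⟩)
    have hpos : ∀ z ∈ closedBall (0 : ℂ) 1, 0 ≤ PP K k (1 / 10) g z := by
      intro z hz
      by_cases hgz : g z = 0
      · rw [PP_zero hgz]
      · exact (hpb z hz hgz).1
    have h0 := (hpb 0 h0B hg0).2.1 hS0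
    obtain ⟨z0, hz0, hgz0, hSz0, hPz0, hmax⟩ := max_point (A := fun _ => 0) continuousOn_const
      hcont hpos h0.ne'
    obtain ⟨w0, X, hw0, hX, h1, h2⟩ := hkey k (1 / 10) Ω g (fun _ => 0) (fun _ => 0) z0 hk.le hk2
      (by norm_num) hg (ball_subset_closedBall.trans hB) hz0 hgz0 hSz0 hPz0
      (fun z hz => hE z (ball_subset_closedBall hz))
      (fun z hz => hmax z (ball_subset_closedBall hz))
      (fun _ _ _ _ => rfl) (fun _ _ => contDiffAt_const)
    rw [gr_const, lap_const, add_zero, zero_add] at h1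
    have hz0B := ball_subset_closedBall hz0
    -- t ≤ 0
    have ht : w0.re ≤ 0 := by
      have h3 : ‖g z0‖ = Real.exp (w0.re / √K) := by
        rw [hw0, Complex.norm_exp]
        congr 1
        have : (w0.re : ℂ) / (√K : ℂ) = ((w0.re / √K : ℝ) : ℂ) := by push_cast; rfl
        rw [this]
        simp
      have h4 := hg1 z0 hz0B
      rw [h3, Real.exp_le_one_iff] at h4
      by_contra hc
      push Not at hc
      have : 0 < w0.re / √K := by positivity
      linarith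
    set e : ℝ := Real.exp (k / 2 * w0.re) with he
    have hepos : 0 < e := Real.exp_pos _
    have hele : e ≤ 1 := by
      rw [he, Real.exp_le_one_iff]
      nlinarith
    have hXe : c1 * e ≤ X := by
      rcases le_or_gt 1 X with hX1 | hX1
      · calc c1 * e ≤ 1 * 1 := mul_le_mul hc1le hele hepos.le zero_le_one
          _ ≤ X := by linarith
      · have h3 : Ck * X ^ 2 ≤ Ck * X := by
          apply mul_le_mul_of_nonneg_left _ hCk.le
          nlinarith
        have h4 : e ≤ 4000 * Ck * X := by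
          have : 1 / 10 * e / 200 ≤ Ck * X + Ck * X ^ 2 := h1
          linarith
        rw [hc1, one_div_mul_eq_div, div_le_iff₀ (by positivity)]
        nlinarith
    -- the value at `z0`
    have h5 : (1 - ‖z0‖ ^ 2) ^ 2 * PP K k (1 / 10) g z0 ≤ C2 := by
      have h6 : (1 - ‖z0‖ ^ 2) ^ 2 * PP K k (1 / 10) g z0 * (c1 * e) ^ 2 ≤
          Ck * Real.exp ((4 * k - 2 * k0 K) * w0.re) := by
        refine le_trans ?_ h2
        apply mul_le_mul_of_nonneg_left _ (by positivity)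
        exact pow_le_pow_left₀ (by positivity) hXe 2
      have h7 : Real.exp ((4 * k - 2 * k0 K) * w0.re) ≤ e ^ 2 := by
        rw [he, ← Real.exp_nat_mul]
        apply Real.exp_le_exp.2
        push_cast
        nlinarith
      have h8 : (1 - ‖z0‖ ^ 2) ^ 2 * PP K k (1 / 10) g z0 * (c1 ^ 2) * e ^ 2 ≤ Ck * e ^ 2 := by
        calc _ = (1 - ‖z0‖ ^ 2) ^ 2 * PP K k (1 / 10) g z0 * (c1 * e) ^ 2 := by ring
          _ ≤ _ := h6
          _ ≤ Ck * e ^ 2 := mul_le_mul_of_nonneg_left h7 hCk.le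
      have h9 := le_of_mul_le_mul_right h8 (by positivity)
      rw [hC2, le_div_iff₀ (by positivity)]
      exact h9
    have h10 := hmax 0 h0B
    simp only [Real.exp_zero, norm_zero, one_mul] at h10
    have h11 : PP K k (1 / 10) g 0 ≤ C2 := by
      have : (1 - (0 : ℝ) ^ 2) ^ 2 * PP K k (1 / 10) g 0 = PP K k (1 / 10) g 0 := by norm_num
      linarith
    calc ‖g 0‖ ^ (4 * √K * (k - k0 K)) * sig K g 0 ^ 2 ≤ Cb * PP K k (1 / 10) g 0 :=
        (hpb 0 h0B hg0).2.2.2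
      _ ≤ Cb * C2 := mul_le_mul_of_nonneg_left h11 hCb.le
  -- k → k0
  have hlim : Tendsto (fun k : ℝ => ‖g 0‖ ^ (4 * √K * (k - k0 K)) * sig K g 0 ^ 2) (𝓝[>] (k0 K))
      (𝓝 (‖g 0‖ ^ (4 * √K * (k0 K - k0 K)) * sig K g 0 ^ 2)) := by
    apply tendsto_nhdsWithin_of_tendsto_nhds
    have hng : 0 < ‖g 0‖ := norm_pos_iff.2 hg0
    have : Continuous (fun k : ℝ => ‖g 0‖ ^ (4 * √K * (k - k0 K)) * sig K g 0 ^ 2) := by
      apply Continuous.mul _ continuous_const
      exact continuous_const.rpow (by fun_prop) (fun _ => Or.inl hng.ne')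
    exact this.tendsto _
  rw [sub_self, mul_zero, Real.rpow_zero, one_mul] at hlim
  have hfin : sig K g 0 ^ 2 ≤ Cb * C2 := by
    apply le_of_tendsto hlim
    have h3 : ∀ᶠ k : ℝ in 𝓝[>] (k0 K), k ∈ Ioo (k0 K) (2 * k0 K) :=
      Ioo_mem_nhdsGT (by linarith)
    exact h3.mono fun k hk => main k hk.1 hk.2.le
  exact Real.le_sqrt_of_sq_le hfin

end Pool.Agent.H74.PH
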