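import Pool.Agent.H74.PH.Defs

/-! PH-CORE: the quadratic form inequality -/

set_option autoImplicit false

open Complex MeasureTheory Set Filter Topology Metric
open scoped ContDiff RealInnerProductSpace

namespace Pool.Agent.H74.PH

namespace CORE

theorem mul_b {x y A B : ℝ} (hx : |x| ≤ A) (hy : |y| ≤ B) : |x * y| ≤ A * B := by
  rw [abs_mul]
  exact mul_le_mul hx hy (abs_nonneg _) ((abs_nonneg _).trans hx)

theorem add_b {x y A B : ℝ} (hx : |x| ≤ A) (hy : |y| ≤ B) : |x + y| ≤ A + B :=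
  (abs_add_le _ _).trans (add_le_add hx hy)

theorem sub_b {x y A B : ℝ} (hx : |x| ≤ A) (hy : |y| ≤ B) : |x - y| ≤ A + B :=
  (abs_sub _ _).trans (add_le_add hx hy)

theorem ab_le (a b : ℝ) : |a * b| ≤ a ^ 2 + b ^ 2 := by
  rw [abs_le]
  constructor <;> nlinarith [sq_nonneg (a + b), sq_nonneg (a - b)]

theorem quart (a b : ℝ) : 3 / 4 * (a ^ 2 + b ^ 2) ^ 2 ≤ a ^ 4 + a ^ 2 * b ^ 2 + b ^ 4 := by
  nlinarith [sq_nonneg (a ^ 2 - b ^ 2)]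

theorem b11 {c E : ℝ} (c2 : c ≤ 1 / 2) (hE : E ≤ 1 / 10) :
    -(7 / 32) * (1 - c) ^ 2 + E * (-(7 / 16) * c + c ^ 2 / 4 + 49 / 256) ≤ -(39 / 1000) := by
  have h0 : -(7 / 16) * c + c ^ 2 / 4 + 49 / 256 = (c / 2 - 7 / 16) ^ 2 := by ring
  rw [h0]
  have h1 : E * (c / 2 - 7 / 16) ^ 2 ≤ 1 / 10 * (c / 2 - 7 / 16) ^ 2 :=
    mul_le_mul_of_nonneg_right hE (sq_nonneg _)
  have h2 : 1 / 2 * (1 / 2) ≤ (1 - c) * (1 - c) := mul_self_le_mul_self (by norm_num) (by linarith)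
  nlinarith

theorem b12 {c E : ℝ} (hc2 : c ^ 2 ≤ 1 / 4) (hE : E ≤ 1 / 10) :
    -(7 / 16) + 25 / 16 * c ^ 2 + E * (49 / 128 - 5 / 4 * c ^ 2) ≤ -(39 / 1000) := by
  have h0 : 0 ≤ 49 / 128 - 5 / 4 * c ^ 2 := by linarith
  have h1 : E * (49 / 128 - 5 / 4 * c ^ 2) ≤ 1 / 10 * (49 / 128 - 5 / 4 * c ^ 2) :=
    mul_le_mul_of_nonneg_right hE h0
  linarith

theorem pb {u E : ℝ} (u1 : 1 / 2 ≤ u) (u2 : u ≤ 3 / 2) (hE0 : 0 ≤ E) (hE : E ≤ 1 / 10) :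
    9 / 20 ≤ u * (1 - E) + 1 / 8 * E ∧ u * (1 - E) + 1 / 8 * E ≤ 3 / 2 := by
  have h1 : 1 / 2 * (1 - E) ≤ u * (1 - E) := mul_le_mul_of_nonneg_right u1 (by linarith)
  have h2 : u * (1 - E) ≤ 3 / 2 * (1 - E) := mul_le_mul_of_nonneg_right u2 (by linarith)
  constructor <;> linarith

theorem qb {u E : ℝ} (u1 : 1 / 2 ≤ u) (u2 : u ≤ 3 / 2) (hE0 : 0 ≤ E) (hE : E ≤ 1 / 10) :
    |E / 2 * (1 / 8 - u)| ≤ 1 / 10 := by
  have h1 : |E / 2| ≤ 1 / 20 := abs_le.2 ⟨by linarith, by linarith⟩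
  have h2 : |1 / 8 - u| ≤ 2 := abs_le.2 ⟨by linarith, by linarith⟩
  exact (mul_b h1 h2).trans (by norm_num)

theorem Pb {c p1 p2 q1 : ℝ} (hc : |c| ≤ 1 / 2) (ap1 : |p1| ≤ 3 / 2) (ap2 : |p2| ≤ 3 / 2) (aq1 : |q1| ≤ 1 / 10) :
    |(p1 + p2) * (4 * p1 - q1) + (4 * q1 - 8 * c * p2) * p1 / 2 - 8 * p1 ^ 2| ≤ 60 := by
  have a4 : |(4:ℝ)| ≤ 4 := (abs_of_nonneg (by norm_num)).le
  have a8 : |(8:ℝ)| ≤ 8 := (abs_of_nonneg (by norm_num)).le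
  have ah : |(1 / 2:ℝ)| ≤ 1 / 2 := (abs_of_nonneg (by norm_num)).le
  have k1 := mul_b (add_b ap1 ap2) (sub_b (mul_b a4 ap1) aq1)
  have k2 := mul_b (mul_b (sub_b (mul_b a4 aq1) (mul_b (mul_b a8 hc) ap2)) ap1) ah
  have k3 := mul_b a8 (mul_b ap1 ap1)
  have k4 := sub_b (add_b k1 k2) k3
  have e : (p1 + p2) * (4 * p1 - q1) + (4 * q1 - 8 * c * p2) * p1 / 2 - 8 * p1 ^ 2 =
    (p1 + p2) * (4 * p1 - q1) + (4 * q1 - 8 * c * p2) * p1 * (1 / 2) - 8 * (p1 * p1) := by ring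
  rw [e]
  exact k4.trans (by norm_num)

theorem Qb {c p1 p2 q2 : ℝ} (hc : |c| ≤ 1 / 2) (ap1 : |p1| ≤ 3 / 2) (ap2 : |p2| ≤ 3 / 2) (aq2 : |q2| ≤ 1 / 10) :
    |(p1 + p2) * (4 * p2 - q2 + 4 * c * p2) - (-4 * q2 + 8 * c * p2) * p2 / 2 - 8 * p2 ^ 2| ≤ 60 := by
  have a4 : |(4:ℝ)| ≤ 4 := (abs_of_nonneg (by norm_num)).le
  have a4' : |(-4:ℝ)| ≤ 4 := by rw [abs_neg]; exact a4
  have a8 : |(8:ℝ)| ≤ 8 := (abs_of_nonneg (by norm_num)).le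
  have ah : |(1 / 2:ℝ)| ≤ 1 / 2 := (abs_of_nonneg (by norm_num)).le
  have k1 := mul_b (add_b ap1 ap2) (add_b (sub_b (mul_b a4 ap2) aq2) (mul_b (mul_b a4 hc) ap2))
  have k2 := mul_b (mul_b (add_b (mul_b a4' aq2) (mul_b (mul_b a8 hc) ap2)) ap2) ah
  have k3 := mul_b a8 (mul_b ap2 ap2)
  have k4 := sub_b (sub_b k1 k2) k3
  have e : (p1 + p2) * (4 * p2 - q2 + 4 * c * p2) - (-4 * q2 + 8 * c * p2) * p2 / 2 - 8 * p2 ^ 2 =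
    (p1 + p2) * (4 * p2 - q2 + 4 * c * p2) - (-4 * q2 + 8 * c * p2) * p2 * (1 / 2) - 8 * (p2 * p2) := by ring
  rw [e]
  exact k4.trans (by norm_num)

theorem Rb {c p1 p2 q1 q2 : ℝ} (hc : |c| ≤ 1 / 2) (ap1 : |p1| ≤ 3 / 2) (ap2 : |p2| ≤ 3 / 2)
    (aq1 : |q1| ≤ 1 / 10) (aq2 : |q2| ≤ 1 / 10) :
    |(p1 + p2) * (4 * c * p2) + ((4 * q1 - 8 * c * p2) * p2 + (-4 * q2 + 8 * c * p2) * p1) / 2| ≤ 30 := by
  have a4 : |(4:ℝ)| ≤ 4 := (abs_of_nonneg (by norm_num)).le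
  have a4' : |(-4:ℝ)| ≤ 4 := by rw [abs_neg]; exact a4
  have a8 : |(8:ℝ)| ≤ 8 := (abs_of_nonneg (by norm_num)).le
  have ah : |(1 / 2:ℝ)| ≤ 1 / 2 := (abs_of_nonneg (by norm_num)).le
  have k1 := mul_b (add_b ap1 ap2) (mul_b (mul_b a4 hc) ap2)
  have k2 := mul_b (add_b (mul_b (sub_b (mul_b a4 aq1) (mul_b (mul_b a8 hc) ap2)) ap2)
    (mul_b (add_b (mul_b a4' aq2) (mul_b (mul_b a8 hc) ap2)) ap1)) ah
  have k4 := add_b k1 k2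
  have e : (p1 + p2) * (4 * c * p2) + ((4 * q1 - 8 * c * p2) * p2 + (-4 * q2 + 8 * c * p2) * p1) / 2 =
    (p1 + p2) * (4 * c * p2) + ((4 * q1 - 8 * c * p2) * p2 + (-4 * q2 + 8 * c * p2) * p1) * (1 / 2) := by ring
  rw [e]
  exact k4.trans (by norm_num)

theorem t1 {E C1 C2 C3 a b : ℝ} (hE0 : 0 ≤ E) (h1 : C1 ≤ -(39 / 1000)) (h2 : C2 ≤ -(39 / 1000))
    (h3 : C3 ≤ -(39 / 1000)) :
    E * (C1 * a ^ 4 + C2 * (a ^ 2 * b ^ 2) + C3 * b ^ 4) ≤ -(117 / 4000) * (E * (a ^ 2 + b ^ 2) ^ 2) := by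
  have i1 : C1 * a ^ 4 ≤ -(39 / 1000) * a ^ 4 := mul_le_mul_of_nonneg_right h1 (by positivity)
  have i2 : C2 * (a ^ 2 * b ^ 2) ≤ -(39 / 1000) * (a ^ 2 * b ^ 2) :=
    mul_le_mul_of_nonneg_right h2 (by positivity)
  have i3 : C3 * b ^ 4 ≤ -(39 / 1000) * b ^ 4 := mul_le_mul_of_nonneg_right h3 (by positivity)
  have i4 := quart a b
  have i5 : C1 * a ^ 4 + C2 * (a ^ 2 * b ^ 2) + C3 * b ^ 4 ≤ -(117 / 4000) * (a ^ 2 + b ^ 2) ^ 2 := by linarith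
  calc _ ≤ E * (-(117 / 4000) * (a ^ 2 + b ^ 2) ^ 2) := mul_le_mul_of_nonneg_left i5 hE0
    _ = _ := by ring

theorem t2 {P Q a b A T : ℝ} (hP : |P| ≤ 60) (hQ : |Q| ≤ 60) (hA : |A| ≤ T) :
    (P * a ^ 2 + Q * b ^ 2) * A ≤ 60 * (a ^ 2 + b ^ 2) * T := by
  have ha2 : |a ^ 2| ≤ a ^ 2 := (abs_of_nonneg (sq_nonneg a)).le
  have hb2 : |b ^ 2| ≤ b ^ 2 := (abs_of_nonneg (sq_nonneg b)).le
  have h1 := mul_b (add_b (mul_b hP ha2) (mul_b hQ hb2)) hA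
  calc _ ≤ |(P * a ^ 2 + Q * b ^ 2) * A| := le_abs_self _
    _ ≤ (60 * a ^ 2 + 60 * b ^ 2) * T := h1
    _ = _ := by ring

theorem t3 {R a b B T : ℝ} (hR : |R| ≤ 30) (hB : |B| ≤ T) :
    R * (a * b) * B ≤ 30 * (a ^ 2 + b ^ 2) * T := by
  calc _ ≤ |R * (a * b) * B| := le_abs_self _
    _ ≤ 30 * (a ^ 2 + b ^ 2) * T := mul_b (mul_b hR (ab_le a b)) hB

theorem fin {N M s T E L : ℝ} (hE0 : 0 ≤ E) (hs : 0 < s) (hT0 : 0 ≤ T) (hNl : 1 / 5 * s ≤ N)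
    (hNu : N ≤ 9 / 4 * s) (hMu : M ≤ 3 / 2 * s) (hM0 : 0 < M)
    (hup : N * L ≤ -(117 / 4000) * (E * s ^ 2) + 60 * s * T + 30 * s * T + T ^ 2) :
    L ≤ -(E / 200) * M + 1000 * T + 1000 * T ^ 2 / M := by
  have hN0 : 0 < N := by linarith
  have hNM : N * M ≤ (9 / 4 * s) * (3 / 2 * s) := mul_le_mul hNu hMu hM0.le (by positivity)
  have r1 : E * (N * M) ≤ E * ((9 / 4 * s) * (3 / 2 * s)) := mul_le_mul_of_nonneg_left hNM hE0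
  have r2 : 1 / 5 * s * T ≤ N * T := mul_le_mul_of_nonneg_right hNl hT0
  have hMN : M ≤ 1000 * N := by linarith
  have r3 : T ^ 2 ≤ N * (1000 * T ^ 2 / M) := by
    rw [mul_div_assoc', le_div_iff₀ hM0]
    have := mul_le_mul_of_nonneg_left hMN (sq_nonneg T)
    linarith
  have hE2 : 0 ≤ E * s ^ 2 := by positivity
  have hsT : 0 ≤ s * T := by positivity
  have hlow : N * L ≤ N * (-(E / 200) * M + 1000 * T + 1000 * T ^ 2 / M) := by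
    have e : N * (-(E / 200) * M + 1000 * T + 1000 * T ^ 2 / M) =
      -(1 / 200) * (E * (N * M)) + 1000 * (N * T) + N * (1000 * T ^ 2 / M) := by ring
    rw [e]
    have e2 : E * ((9 / 4 * s) * (3 / 2 * s)) = 27 / 8 * (E * s ^ 2) := by ring
    rw [e2] at r1
    linarith
  exact le_of_mul_le_mul_left hlow hN0

theorem core1 {c E a b x y : ℝ} (hc : |c| ≤ 1 / 2) (hE0 : 0 ≤ E) (hE : E ≤ 1 / 10)
    (hab : 0 < a ^ 2 + b ^ 2) :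
    Lap 1 c E a b x y ≤ -(E / 200) * m 1 c E a b +
      1000 * √(v1 1 c E a b x y ^ 2 + v2 1 c E a b x y ^ 2) +
      1000 * (v1 1 c E a b x y ^ 2 + v2 1 c E a b x y ^ 2) / m 1 c E a b := by
  obtain ⟨c1, c2⟩ := abs_le.1 hc
  have hc2 : c ^ 2 ≤ 1 / 4 := by
    have := pow_le_pow_left₀ (abs_nonneg c) hc 2
    rw [sq_abs] at this
    linarith
  obtain ⟨p1, hp1⟩ : ∃ p1, p1 = pi1 1 c E := ⟨_, rfl⟩
  obtain ⟨p2, hp2⟩ : ∃ p2, p2 = pi2 1 c E := ⟨_, rfl⟩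
  obtain ⟨q1, hq1⟩ : ∃ q1, q1 = E / 2 * (1 / 8 - (1 - c)) := ⟨_, rfl⟩
  obtain ⟨q2, hq2⟩ : ∃ q2, q2 = E / 2 * (1 / 8 - (1 + c)) := ⟨_, rfl⟩
  have bp1 := pb (u := 1 - c) (by linarith) (by linarith) hE0 hE
  have bp2 := pb (u := 1 + c) (by linarith) (by linarith) hE0 hE
  have bq1 := qb (u := 1 - c) (by linarith) (by linarith) hE0 hE
  have bq2 := qb (u := 1 + c) (by linarith) (by linarith) hE0 hE
  have ep1 : (1 - c) * (1 - E) + 1 / 8 * E = p1 := hp1.symm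
  have ep2 : (1 + c) * (1 - E) + 1 / 8 * E = p2 := hp2.symm
  rw [ep1] at bp1
  rw [ep2] at bp2
  rw [← hq1] at bq1
  rw [← hq2] at bq2
  have hps : (p1 + p2) / 2 ≤ 1 := by
    rw [← ep1, ← ep2]
    linarith
  have ap1 : |p1| ≤ 3 / 2 := abs_le.2 ⟨by linarith [bp1.1], bp1.2⟩
  have ap2 : |p2| ≤ 3 / 2 := abs_le.2 ⟨by linarith [bp2.1], bp2.2⟩
  have hPb := Pb hc ap1 ap2 bq1
  have hQb := Qb hc ap1 ap2 bq2
  have hRb := Rb hc ap1 ap2 bq1 bq2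
  have c11 := b11 c2 hE
  have c22 := b11 (c := -c) (by linarith) hE
  have c12 := b12 hc2 hE
  obtain ⟨P, hP⟩ : ∃ P, P = (p1 + p2) * (4 * p1 - q1) + (4 * q1 - 8 * c * p2) * p1 / 2 - 8 * p1 ^ 2 := ⟨_, rfl⟩
  obtain ⟨Q, hQ⟩ : ∃ Q, Q = (p1 + p2) * (4 * p2 - q2 + 4 * c * p2) - (-4 * q2 + 8 * c * p2) * p2 / 2 -
    8 * p2 ^ 2 := ⟨_, rfl⟩
  obtain ⟨R, hR⟩ : ∃ R, R = (p1 + p2) * (4 * c * p2) + ((4 * q1 - 8 * c * p2) * p2 +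
    (-4 * q2 + 8 * c * p2) * p1) / 2 := ⟨_, rfl⟩
  obtain ⟨C11, h11⟩ : ∃ C11, C11 = -(7 / 32) * (1 - c) ^ 2 + E * (-(7 / 16) * c + c ^ 2 / 4 + 49 / 256) := ⟨_, rfl⟩
  obtain ⟨C22, h22⟩ : ∃ C22, C22 = -(7 / 32) * (1 - -c) ^ 2 + E * (-(7 / 16) * -c + (-c) ^ 2 / 4 + 49 / 256) :=
    ⟨_, rfl⟩
  obtain ⟨C12, h12⟩ : ∃ C12, C12 = -(7 / 16) + 25 / 16 * c ^ 2 + E * (49 / 128 - 5 / 4 * c ^ 2) := ⟨_, rfl⟩
  rw [← hP] at hPb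
  rw [← hQ] at hQb
  rw [← hR] at hRb
  rw [← h11] at c11
  rw [← h22] at c22
  rw [← h12] at c12
  obtain ⟨A, hA⟩ : ∃ A, A = v1 1 c E a b x y := ⟨_, rfl⟩
  obtain ⟨B, hB⟩ : ∃ B, B = v2 1 c E a b x y := ⟨_, rfl⟩
  -- the identity
  have hid : (p1 ^ 2 * a ^ 2 + p2 ^ 2 * b ^ 2) * Lap 1 c E a b x y =
      E * (C11 * a ^ 4 + C12 * (a ^ 2 * b ^ 2) + C22 * b ^ 4) +
      (P * a ^ 2 + Q * b ^ 2) * A + R * (a * b) * B + (p1 + p2) / 2 * (A ^ 2 + B ^ 2) := by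
    rw [hP, hQ, hR, h11, h22, h12, hA, hB, hq1, hq2, hp1, hp2]
    unfold Lap v1 v2 m pi1 pi2
    ring
  have hm : m 1 c E a b = p1 * a ^ 2 + p2 * b ^ 2 := by
    rw [hp1, hp2]
    rfl
  rw [← hA, ← hB, hm]
  have ha2 : 0 ≤ a ^ 2 := sq_nonneg a
  have hb2 : 0 ≤ b ^ 2 := sq_nonneg b
  obtain ⟨T, hT⟩ : ∃ T, T = √(A ^ 2 + B ^ 2) := ⟨_, rfl⟩
  have hT0 : 0 ≤ T := by rw [hT]; exact Real.sqrt_nonneg _
  have hT2 : A ^ 2 + B ^ 2 = T ^ 2 := by rw [hT, Real.sq_sqrt (by positivity)]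
  have hAT : |A| ≤ T := by rw [hT]; exact Real.abs_le_sqrt (by linarith [sq_nonneg B])
  have hBT : |B| ≤ T := by rw [hT]; exact Real.abs_le_sqrt (by linarith [sq_nonneg A])
  rw [← hT, hT2]
  rw [hT2] at hid
  have s1 : 1 / 5 ≤ p1 ^ 2 := by
    have := pow_le_pow_left₀ (by norm_num : (0:ℝ) ≤ 9 / 20) bp1.1 2
    linarith
  have s2 : 1 / 5 ≤ p2 ^ 2 := by
    have := pow_le_pow_left₀ (by norm_num : (0:ℝ) ≤ 9 / 20) bp2.1 2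
    linarith
  have s3 : p1 ^ 2 ≤ 9 / 4 := by
    have := pow_le_pow_left₀ (by linarith [bp1.1]) bp1.2 2
    linarith
  have s4 : p2 ^ 2 ≤ 9 / 4 := by
    have := pow_le_pow_left₀ (by linarith [bp2.1]) bp2.2 2
    linarith
  refine fin hE0 hab hT0 (N := p1 ^ 2 * a ^ 2 + p2 ^ 2 * b ^ 2) ?_ ?_ ?_ ?_ ?_
  · have i1 := mul_le_mul_of_nonneg_right s1 ha2
    have i2 := mul_le_mul_of_nonneg_right s2 hb2
    linarith
  · have i1 := mul_le_mul_of_nonneg_right s3 ha2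
    have i2 := mul_le_mul_of_nonneg_right s4 hb2
    linarith
  · have i1 := mul_le_mul_of_nonneg_right bp1.2 ha2
    have i2 := mul_le_mul_of_nonneg_right bp2.2 hb2
    linarith
  · have i1 := mul_le_mul_of_nonneg_right bp1.1 ha2
    have i2 := mul_le_mul_of_nonneg_right bp2.1 hb2
    linarith
  · rw [hid]
    have k1 := t1 (a := a) (b := b) hE0 c11 c12 c22
    have k2 := t2 (a := a) (b := b) hPb hQb hAT
    have k3 := t3 (a := a) (b := b) hRb hBT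
    have k4 := mul_le_mul_of_nonneg_right hps (sq_nonneg T)
    linarith

end CORE

theorem core {k c E a b x y : ℝ} (hk : 0 < k) (hc : |c| ≤ k / 2) (hE0 : 0 ≤ E) (hE : E ≤ 1 / 10)
    (hab : 0 < a ^ 2 + b ^ 2) :
    Lap k c E a b x y ≤ -(k ^ 2 * E / 200) * m k c E a b +
      1000 * k * √(v1 k c E a b x y ^ 2 + v2 k c E a b x y ^ 2) +
      1000 * (v1 k c E a b x y ^ 2 + v2 k c E a b x y ^ 2) / m k c E a b := by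
  obtain ⟨c', rfl⟩ : ∃ c', c = k * c' := ⟨c / k, by field_simp⟩
  obtain ⟨x', rfl⟩ : ∃ x', x = k * x' := ⟨x / k, by field_simp⟩
  obtain ⟨y', rfl⟩ : ∃ y', y = k * y' := ⟨y / k, by field_simp⟩
  have hc' : |c'| ≤ 1 / 2 := by
    rw [abs_mul, abs_of_pos hk] at hc
    have : k * |c'| ≤ k * (1 / 2) := by linarith
    exact le_of_mul_le_mul_left this hk
  have h := CORE.core1 (x := x') (y := y') hc' hE0 hE hab
  have e1 : Lap k (k * c') E a b (k * x') (k * y') = k ^ 3 * Lap 1 c' E a b x' y' := by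
    unfold Lap v1 m pi1 pi2
    ring
  have e2 : v1 k (k * c') E a b (k * x') (k * y') = k ^ 2 * v1 1 c' E a b x' y' := by
    unfold v1 m pi1 pi2
    ring
  have e3 : v2 k (k * c') E a b (k * x') (k * y') = k ^ 2 * v2 1 c' E a b x' y' := by
    unfold v2 pi1 pi2
    ring
  have e4 : m k (k * c') E a b = k * m 1 c' E a b := by
    unfold m pi1 pi2
    ring
  rw [e1, e2, e3, e4]
  set A := v1 1 c' E a b x' y'
  set B := v2 1 c' E a b x' y'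
  have e5 : √((k ^ 2 * A) ^ 2 + (k ^ 2 * B) ^ 2) = k ^ 2 * √(A ^ 2 + B ^ 2) := by
    rw [show (k ^ 2 * A) ^ 2 + (k ^ 2 * B) ^ 2 = (k ^ 2) ^ 2 * (A ^ 2 + B ^ 2) by ring,
      Real.sqrt_mul (by positivity), Real.sqrt_sq (by positivity)]
  rw [e5]
  have e6 : 1000 * ((k ^ 2 * A) ^ 2 + (k ^ 2 * B) ^ 2) / (k * m 1 c' E a b) =
      k ^ 3 * (1000 * (A ^ 2 + B ^ 2) / m 1 c' E a b) := by
    by_cases hm : m 1 c' E a b = 0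
    · rw [hm]
      simp
    · field_simp
  rw [e6]
  have h2 := mul_le_mul_of_nonneg_left h (by positivity : 0 ≤ k ^ 3)
  refine h2.trans (le_of_eq ?_)
  ring

end Pool.Agent.H74.PH
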