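import Pool.Agent.H74.PH.Defs

set_option autoImplicit false

open Complex MeasureTheory Set Filter Topology Metric
open scoped ContDiff RealInnerProductSpace

namespace Pool.Agent.H74.PH

/-- PH-MAX: existence of a maximum point of `e^A (1 - |z|²)² PP`. -/
theorem max_point {K k ε : ℝ} {g : ℂ → ℂ} {A : ℂ → ℝ} (hA : ContinuousOn A (closedBall 0 1))
    (hcont : ContinuousOn (PP K k ε g) (closedBall 0 1))
    (hpos : ∀ z ∈ closedBall (0 : ℂ) 1, 0 ≤ PP K k ε g z) (h0 : PP K k ε g 0 ≠ 0) :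
    ∃ z0 ∈ ball (0 : ℂ) 1, g z0 ≠ 0 ∧ S g z0 ≠ 0 ∧ 0 < PP K k ε g z0 ∧
      ∀ z ∈ closedBall (0 : ℂ) 1, Real.exp (A z) * (1 - ‖z‖ ^ 2) ^ 2 * PP K k ε g z ≤
        Real.exp (A z0) * (1 - ‖z0‖ ^ 2) ^ 2 * PP K k ε g z0 := by
  have hc : ContinuousOn (fun z => Real.exp (A z) * (1 - ‖z‖ ^ 2) ^ 2 * PP K k ε g z)
      (closedBall 0 1) := by
    refine ContinuousOn.mul (ContinuousOn.mul (Real.continuous_exp.comp_continuousOn hA) ?_) hcont
    fun_prop
  obtain ⟨z0, hz0, hmax⟩ := (isCompact_closedBall (0 : ℂ) 1).exists_isMaxOn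
    ⟨0, mem_closedBall_self zero_le_one⟩ hc
  have h00 : 0 < PP K k ε g 0 :=
    lt_of_le_of_ne (hpos 0 (mem_closedBall_self zero_le_one)) (Ne.symm h0)
  have h1 : 0 < Real.exp (A z0) * (1 - ‖z0‖ ^ 2) ^ 2 * PP K k ε g z0 := by
    refine lt_of_lt_of_le ?_ (hmax (mem_closedBall_self zero_le_one))
    simp only [norm_zero]
    positivity
  have h2 : 0 < PP K k ε g z0 := by
    rcases (hpos z0 hz0).lt_or_eq with h | h
    · exact h
    · rw [← h, mul_zero] at h1; exact absurd h1 (lt_irrefl _)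
  have h3 : g z0 ≠ 0 := by
    intro h
    have : PP K k ε g z0 = 0 := by simp [PP, S, h]
    rw [this] at h2; exact lt_irrefl _ h2
  have h4 : S g z0 ≠ 0 := by
    intro h
    have : PP K k ε g z0 = 0 := by simp [PP, h]
    rw [this] at h2; exact lt_irrefl _ h2
  refine ⟨z0, ?_, h3, h4, h2, fun z hz => hmax hz⟩
  rw [mem_ball_zero_iff]
  rw [mem_closedBall_zero_iff] at hz0
  rcases hz0.lt_or_eq with h | h
  · exact h
  · rw [h] at h1; norm_num at h1

end Pool.Agent.H74.PH
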