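import Pool.Agent.H74.PH.PPBD

/-! PH-PPCONT (helper91): continuity of `PP` on a closed ball -/

set_option autoImplicit false

open Complex MeasureTheory Set Filter Topology Metric
open scoped ContDiff RealInnerProductSpace

namespace Pool.Agent.H74.PH

namespace PPCONT

lemma S_cont {g : ℂ → ℂ} {z : ℂ} (hs : ContDiffAt ℝ 3 g z) (h0 : g z ≠ 0) : ContinuousAt (S g) z := by
  have h1 : ContDiffAt ℝ 2 (fderiv ℝ g) z := hs.fderiv_right (by norm_num)
  have h2 : ContinuousAt (fderiv ℝ g) z := h1.continuousAt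
  have h3 : ContinuousAt g z := hs.continuousAt
  have h4 : ContinuousAt (fun z => fderiv ℝ g z (g z)) z := h2.clm_apply h3
  exact h4.div h3 h0

lemma sig_cont {K : ℝ} {g : ℂ → ℂ} {z : ℂ} (hs : ContDiffAt ℝ 3 g z) (h0 : g z ≠ 0) :
    ContinuousAt (sig K g) z := by
  unfold sig
  exact (hs.continuousAt.norm.rpow_const (Or.inl (norm_ne_zero_iff.2 h0))).mul (S_cont hs h0).norm

lemma PP_zero {K k ε : ℝ} {g : ℂ → ℂ} {z : ℂ} (h : S g z = 0) : PP K k ε g z = 0 := by
  unfold PP
  rw [h]
  simp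

lemma S_zero {g : ℂ → ℂ} {z : ℂ} (h : g z = 0) : S g z = 0 := by
  unfold S
  rw [h]
  simp

end PPCONT

open PPBD PPCONT

/-- PH-PPCONT: continuity of `PP` on a closed ball (uses PH-PPBD, as a hypothesis here). -/
theorem PP_cont {K k ε C L : ℝ} (hK : 0 < K) {Ω : Set ℂ} {g : ℂ → ℂ} (hg : PGrad K Ω g)
    (hB : closedBall (0 : ℂ) 1 ⊆ Ω) (hk : k0 K ≤ k) (hε : 0 ≤ ε)
    (hE : ∀ z ∈ closedBall (0 : ℂ) 1, ε * ‖g z‖ ^ (√K * k / 2) ≤ 1 / 10)
    (hbd : ∀ z ∈ closedBall (0 : ℂ) 1, g z ≠ 0 → 0 ≤ PP K k ε g z ∧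
      PP K k ε g z ≤ C * ‖g z‖ ^ (4 * √K * (k - k0 K)) * sig K g z ^ 2)
    (hcrit : (∀ z ∈ closedBall (0 : ℂ) 1, g z ≠ 0) ∨
      (k0 K < k ∧ ∀ z ∈ closedBall (0 : ℂ) 1, sig K g z ≤ L)) :
    ContinuousOn (PP K k ε g) (closedBall 0 1) := by
  have hk0 := k0_pos hK
  have hkp : 0 < k := hk0.trans_le hk
  have hsK : 0 < √K := Real.sqrt_pos.2 hK
  intro z0 hz0
  by_cases h0 : g z0 = 0
  · -- a zero of `g`
    rcases hcrit with hcrit | ⟨hlt, hL⟩
    · exact absurd h0 (hcrit z0 hz0)
    · have hP0 : PP K k ε g z0 = 0 := PP_zero (S_zero h0)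
      have he : 0 < 4 * √K * (k - k0 K) := by
        have : 0 < k - k0 K := by linarith
        positivity
      have hgc : ContinuousWithinAt g (closedBall 0 1) z0 := (hg.cont z0 (hB hz0)).mono hB
      have hup : ContinuousWithinAt (fun z => |C| * ‖g z‖ ^ (4 * √K * (k - k0 K)) * L ^ 2) (closedBall 0 1) z0 :=
        (continuousWithinAt_const.mul (hgc.norm.rpow_const (Or.inr he.le))).mul continuousWithinAt_const
      have hlim : Tendsto (fun z => |C| * ‖g z‖ ^ (4 * √K * (k - k0 K)) * L ^ 2) (𝓝[closedBall 0 1] z0) (𝓝 0) := by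
        have := hup.tendsto
        rw [h0, norm_zero, Real.zero_rpow he.ne', mul_zero, zero_mul] at this
        exact this
      have hbounds : ∀ z ∈ closedBall (0 : ℂ) 1, 0 ≤ PP K k ε g z ∧
          PP K k ε g z ≤ |C| * ‖g z‖ ^ (4 * √K * (k - k0 K)) * L ^ 2 := by
        intro z hz
        by_cases hz1 : g z = 0
        · rw [PP_zero (S_zero hz1)]
          exact ⟨le_rfl, by positivity⟩
        · obtain ⟨b1, b2⟩ := hbd z hz hz1
          refine ⟨b1, b2.trans ?_⟩
          have s0 : 0 ≤ sig K g z := by unfold sig; positivity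
          have s1 : sig K g z ^ 2 ≤ L ^ 2 := pow_le_pow_left₀ s0 (hL z hz) 2
          have p0 : 0 ≤ ‖g z‖ ^ (4 * √K * (k - k0 K)) := by positivity
          have c1 : C * ‖g z‖ ^ (4 * √K * (k - k0 K)) ≤ |C| * ‖g z‖ ^ (4 * √K * (k - k0 K)) :=
            mul_le_mul_of_nonneg_right (le_abs_self C) p0
          calc C * ‖g z‖ ^ (4 * √K * (k - k0 K)) * sig K g z ^ 2 ≤
              |C| * ‖g z‖ ^ (4 * √K * (k - k0 K)) * sig K g z ^ 2 :=
                mul_le_mul_of_nonneg_right c1 (by positivity)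
            _ ≤ _ := mul_le_mul_of_nonneg_left s1 (by positivity)
      unfold ContinuousWithinAt
      rw [hP0]
      refine tendsto_of_tendsto_of_tendsto_of_le_of_le' tendsto_const_nhds hlim ?_ ?_
      · filter_upwards [self_mem_nhdsWithin] with z hz
        exact (hbounds z hz).1
      · filter_upwards [self_mem_nhdsWithin] with z hz
        exact (hbounds z hz).2
  · have hs := hg.smooth z0 (hB hz0) h0
    have hgc : ContinuousAt g z0 := hs.continuousAt
    have hSc := S_cont hs h0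
    have hn0 : ‖g z0‖ ≠ 0 := norm_ne_zero_iff.2 h0
    by_cases hS : S g z0 = 0
    · -- a zero of `S g`
      have hP0 : PP K k ε g z0 = 0 := PP_zero hS
      have hup : ContinuousAt (fun z => C * ‖g z‖ ^ (4 * √K * (k - k0 K)) * sig K g z ^ 2) z0 :=
        (continuousAt_const.mul (hgc.norm.rpow_const (Or.inl hn0))).mul ((sig_cont hs h0).pow 2)
      have hlim : Tendsto (fun z => C * ‖g z‖ ^ (4 * √K * (k - k0 K)) * sig K g z ^ 2) (𝓝 z0) (𝓝 0) := by
        have := hup.tendsto
        have e : sig K g z0 = 0 := by unfold sig; rw [hS, norm_zero, mul_zero]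
        rw [e] at this
        simpa using this
      have hne : ∀ᶠ z in 𝓝[closedBall 0 1] z0, g z ≠ 0 :=
        (hgc.eventually_ne h0).filter_mono nhdsWithin_le_nhds
      unfold ContinuousWithinAt
      rw [hP0]
      refine tendsto_of_tendsto_of_tendsto_of_le_of_le' tendsto_const_nhds (hlim.mono_left nhdsWithin_le_nhds) ?_ ?_
      · filter_upwards [self_mem_nhdsWithin, hne] with z hz hz1
        exact (hbd z hz hz1).1
      · filter_upwards [self_mem_nhdsWithin, hne] with z hz hz1
        exact (hbd z hz hz1).2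
    · -- a regular point
      have ha : ContinuousAt (fun z => (S g z).re) z0 := Complex.continuous_re.continuousAt.comp hSc
      have hb : ContinuousAt (fun z => (S g z).im) z0 := Complex.continuous_im.continuousAt.comp hSc
      have hEc : ContinuousAt (fun z => ε * ‖g z‖ ^ (√K * k / 2)) z0 :=
        continuousAt_const.mul (hgc.norm.rpow_const (Or.inl hn0))
      have hc : |cc K| ≤ k / 2 := (cc_le hK).trans (by linarith)
      have hden := (den_bounds (a := (S g z0).re) (b := (S g z0).im) hK hkp hc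
        (by positivity) (hE z0 hz0)).1
      have hN : 0 < K * (S g z0).re ^ 2 + (S g z0).im ^ 2 := by
        by_contra hcon
        have h1 : 0 ≤ K * (S g z0).re ^ 2 := by positivity
        have h2 : 0 ≤ (S g z0).im ^ 2 := by positivity
        have h3 : (S g z0).im ^ 2 = 0 := by linarith
        have h4 : K * (S g z0).re ^ 2 = 0 := by linarith
        have h5 : (S g z0).im = 0 := pow_eq_zero_iff (n := 2) (by norm_num) |>.1 h3
        have h6 : (S g z0).re = 0 := pow_eq_zero_iff (n := 2) (by norm_num) |>.1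
          ((mul_eq_zero.1 h4).resolve_left hK.ne')
        exact hS (Complex.ext h6 h5)
      have hD : pi1 k (cc K) (ε * ‖g z0‖ ^ (√K * k / 2)) * (K * (S g z0).re ^ 2) +
          pi2 k (cc K) (ε * ‖g z0‖ ^ (√K * k / 2)) * (S g z0).im ^ 2 ≠ 0 := by
        have : 0 < 9 / 20 * k * (K * (S g z0).re ^ 2 + (S g z0).im ^ 2) := by positivity
        linarith
      have hnum : ContinuousAt (fun z => ‖g z‖ ^ (4 * √K * k - K - 3) * (K * (S g z).re ^ 2 + (S g z).im ^ 2) ^ 2) z0 :=
        (hgc.norm.rpow_const (Or.inl hn0)).mul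
          (((continuousAt_const.mul (ha.pow 2)).add (hb.pow 2)).pow 2)
      have hp1 : ContinuousAt (fun z => pi1 k (cc K) (ε * ‖g z‖ ^ (√K * k / 2))) z0 := by
        unfold pi1
        exact (continuousAt_const.mul (continuousAt_const.sub hEc)).add (continuousAt_const.mul hEc)
      have hp2 : ContinuousAt (fun z => pi2 k (cc K) (ε * ‖g z‖ ^ (√K * k / 2))) z0 := by
        unfold pi2
        exact (continuousAt_const.mul (continuousAt_const.sub hEc)).add (continuousAt_const.mul hEc)
      have hdn : ContinuousAt (fun z => pi1 k (cc K) (ε * ‖g z‖ ^ (√K * k / 2)) * (K * (S g z).re ^ 2) +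
          pi2 k (cc K) (ε * ‖g z‖ ^ (√K * k / 2)) * (S g z).im ^ 2) z0 :=
        (hp1.mul (continuousAt_const.mul (ha.pow 2))).add (hp2.mul (hb.pow 2))
      exact (hnum.div hdn hD).continuousWithinAt

end Pool.Agent.H74.PH
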