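import Pool.Agent.H74.PH.KeyF
import Pool.Agent.H74.PH.PPCONT
import Pool.Agent.H74.PH.MAX
import Pool.Agent.H74.PH.AF

/-! PH-CASEB -/

set_option autoImplicit false

open Complex MeasureTheory Set Filter Topology Metric
open scoped ContDiff RealInnerProductSpace

namespace Pool.Agent.H74.PH

namespace CB

theorem k0_pos {K : ℝ} (hK : 0 < K) : 0 < k0 K := by
  have hs : 0 < √K := Real.sqrt_pos.2 hK
  unfold k0
  positivity

theorem k0_eq {K : ℝ} (hK : 0 < K) : k0 K = (K + 1) / (2 * √K) := by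
  have hs : 0 < √K := Real.sqrt_pos.2 hK
  have h2 : √K * √K = K := Real.mul_self_sqrt hK.le
  unfold k0
  field_simp
  nlinarith

/-- `V` in terms of the hodograph coordinates -/
theorem V_exp {K : ℝ} (hK : 0 < K) (w : ℂ) :
    V (K + 1) (exp (w.re / √K + w.im * I)) = exp (k0 K * w.re + w.im * I) ∧
      ‖exp (k0 K * w.re + w.im * I)‖ = Real.exp (k0 K * w.re) := by
  have hs : 0 < √K := Real.sqrt_pos.2 hK
  have h2 : √K * √K = K := Real.mul_self_sqrt hK.le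
  have hn : ∀ s t : ℝ, ‖exp ((s : ℂ) + (t : ℂ) * I)‖ = Real.exp s := by
    intro s t
    rw [Complex.norm_exp]
    simp
  have e1 : ((w.re : ℂ) / (√K : ℂ)) = ((w.re / √K : ℝ) : ℂ) := by push_cast; rfl
  have e2 : ((k0 K : ℂ) * (w.re : ℂ)) = ((k0 K * w.re : ℝ) : ℂ) := by push_cast; rfl
  constructor
  · unfold V
    rw [e1, hn, e2, ← Real.exp_mul, Complex.real_smul]
    push_cast
    rw [← Complex.exp_add]
    congr 1
    have h3 : w.re / √K * ((K + 1 - 2) / 2) + w.re / √K = k0 K * w.re := by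
      rw [k0_eq hK]
      field_simp
      ring
    have h4 : ((w.re : ℂ) / (√K : ℂ)) * (((K : ℂ) + 1 - 2) / 2) + (w.re : ℂ) / (√K : ℂ) =
        (k0 K : ℂ) * (w.re : ℂ) := by
      have := congrArg (fun x : ℝ => (x : ℂ)) h3
      push_cast at this
      exact this
    rw [← h4]
    ring
  · rw [e2, hn]

theorem V_cont {K : ℝ} {ξ : ℂ} (h : ξ ≠ 0) : ContinuousAt (fun ξ => V (K + 1) ξ) ξ := by
  unfold V
  have h1 : ContinuousAt (fun ξ : ℂ => ‖ξ‖ ^ ((K + 1 - 2) / 2)) ξ :=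
    continuous_norm.continuousAt.rpow_const (Or.inl (norm_ne_zero_iff.2 h))
  have h2 : ContinuousAt (fun ξ : ℂ => ξ) ξ := continuousAt_id
  exact h1.smul h2

theorem V_zero {K : ℝ} : V (K + 1) 0 = 0 := by
  simp [V]

end CB

open CB in
theorem caseB {K : ℝ} (hK : 0 < K) : ∃ C K1 : ℝ, 0 < C ∧ 0 < K1 ∧ ∀ (Ω : Set ℂ) (g : ℂ → ℂ)
    (c0 : ℂ), PGrad K Ω g → closedBall 0 1 ⊆ Ω → K1 ≤ ‖c0‖ →
    (∀ z ∈ closedBall (0 : ℂ) 1, ‖V (K + 1) (g z) - c0‖ ≤ 1) → sig K g 0 ≤ C := by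
  obtain ⟨Cb, hCb, hPB⟩ := PP_bounds hK
  obtain ⟨Ck, hCk, hkey⟩ := key hK
  obtain ⟨Ca, hCa, haf⟩ := afun hK
  have hk0 := k0_pos hK
  have hsK : 0 < √K := Real.sqrt_pos.2 hK
  set δ : ℝ := 1 / (2 * Ck * Ca ^ 2 + 1) with hδ
  have hδpos : 0 < δ := by positivity
  have hδ1 : δ ≤ 1 := by
    rw [hδ, div_le_one (by positivity)]
    have : 0 < 2 * Ck * Ca ^ 2 := by positivity
    linarith
  have hδ2 : 2 * Ck * Ca ^ 2 * δ ≤ 1 := by
    rw [hδ, mul_one_div, div_le_one (by positivity)]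
    linarith
  set c : ℝ := δ / (3 * Ck + 1) with hc
  have hcpos : 0 < c := by positivity
  have hc1 : c ≤ 1 := by
    rw [hc, div_le_one (by positivity)]
    linarith
  have hc2 : 3 * Ck * c < 2 * δ := by
    rw [hc, mul_div_assoc', div_lt_iff₀ (by positivity)]
    nlinarith
  set C2 : ℝ := Real.exp δ * (Ck / c ^ 2) with hC2
  have hC2pos : 0 < C2 := by positivity
  refine ⟨√(Cb * C2), 2 + Ck * Ca, Real.sqrt_pos.2 (by positivity), by positivity, ?_⟩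
  intro Ω g c0 hg hB hK1 hV
  have h0B : (0 : ℂ) ∈ closedBall (0 : ℂ) 1 := by simp
  have hVn : ∀ z ∈ closedBall (0 : ℂ) 1, 1 + Ck * Ca ≤ ‖V (K + 1) (g z)‖ := by
    intro z hz
    have h1 := hV z hz
    have h2 : ‖c0‖ ≤ ‖V (K + 1) (g z)‖ + ‖V (K + 1) (g z) - c0‖ := by
      calc ‖c0‖ = ‖V (K + 1) (g z) - (V (K + 1) (g z) - c0)‖ := by rw [sub_sub_cancel]
        _ ≤ _ := norm_sub_le _ _
    linarith
  have hgne : ∀ z ∈ closedBall (0 : ℂ) 1, g z ≠ 0 := by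
    intro z hz h0
    have := hVn z hz
    rw [h0, V_zero, norm_zero] at this
    have : 0 < Ck * Ca := by positivity
    linarith
  by_cases hS0 : S g 0 = 0
  · have : sig K g 0 = 0 := by unfold sig; rw [hS0]; simp
    rw [this]; exact Real.sqrt_nonneg _
  set A : ℂ → ℝ := fun z => δ * ‖V (K + 1) (g z) - c0‖ ^ 2 with hA
  set A' : ℂ → ℝ := fun w => δ * ‖exp (k0 K * w.re + w.im * I) - c0‖ ^ 2 with hA'
  have hAc : ContinuousOn A (closedBall 0 1) := by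
    intro z hz
    have h1 : ContinuousWithinAt g (closedBall 0 1) z := (hg.cont z (hB hz)).mono hB
    have h2 : ContinuousWithinAt (fun z => V (K + 1) (g z)) (closedBall 0 1) z :=
      (V_cont (K := K) (hgne z hz)).comp_continuousWithinAt h1
    exact continuousWithinAt_const.mul ((h2.sub continuousWithinAt_const).norm.pow 2)
  have hE : ∀ z ∈ closedBall (0 : ℂ) 1, (0 : ℝ) * ‖g z‖ ^ (√K * k0 K / 2) ≤ 1 / 10 := by
    intro z hz
    rw [zero_mul]; norm_num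
  have hpb : ∀ z ∈ closedBall (0 : ℂ) 1, _ := fun z hz =>
    hPB (k0 K) 0 g z le_rfl (by linarith) le_rfl (hE z hz) (hgne z hz)
  have hcont : ContinuousOn (PP K (k0 K) 0 g) (closedBall 0 1) :=
    PP_cont (L := 0) hK hg hB le_rfl le_rfl hE
      (fun z hz _ => ⟨(hpb z hz).1, (hpb z hz).2.2.1⟩) (Or.inl hgne)
  have h0 := (hpb 0 h0B).2.1 hS0
  obtain ⟨z0, hz0, hgz0, hSz0, hPz0, hmax⟩ := max_point hAc hcont (fun z hz => (hpb z hz).1) h0.ne'
  have hz0B := ball_subset_closedBall hz0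
  -- data at the points over `g z`
  have hdat : ∀ z ∈ closedBall (0 : ℂ) 1, ∀ w : ℂ, g z = exp (w.re / √K + w.im * I) →
      V (K + 1) (g z) = exp (k0 K * w.re + w.im * I) ∧
      ‖exp (k0 K * w.re + w.im * I) - c0‖ ≤ 1 ∧ 1 + Ck * Ca ≤ Real.exp (k0 K * w.re) := by
    intro z hz w hw
    obtain ⟨e1, e2⟩ := V_exp hK w
    rw [← hw] at e1
    refine ⟨e1, ?_, ?_⟩
    · rw [← e1]; exact hV z hz
    · rw [← e2, ← e1]; exact hVn z hz
  have hCC : 0 < Ck * Ca := by positivity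
  obtain ⟨w0, X, hw0, hX, h1, h2⟩ := hkey (k0 K) 0 Ω g A A' z0 le_rfl (by linarith)
    le_rfl hg (ball_subset_closedBall.trans hB) hz0 hgz0 hSz0 hPz0
    (fun z hz => hE z (ball_subset_closedBall hz))
    (fun z hz => hmax z (ball_subset_closedBall hz))
    (fun w z hz hw => by
      simp only [hA, hA']
      rw [(hdat z (ball_subset_closedBall hz) w hw).1])
    (fun w hw => by
      obtain ⟨-, e2, e3⟩ := hdat z0 hz0B w hw
      exact (haf δ c0 w hδpos.le e2 (by linarith)).1.contDiffAt)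
  obtain ⟨-, e2, e3⟩ := hdat z0 hz0B w0 hw0
  obtain ⟨-, hgr, hlap⟩ := haf δ c0 w0 hδpos.le e2 (by linarith)
  set Q : ℝ := Real.exp (k0 K * w0.re) with hQ
  have hQ1 : 1 ≤ Q := by linarith
  have hQ2 : Ck * Ca ≤ Q := by linarith
  rw [zero_mul, zero_div, add_zero] at h1
  -- `X ≥ c Q`
  have hgr0 : 0 ≤ gr A' w0 := Real.sqrt_nonneg _
  have hmain : 4 * δ * Q ^ 2 ≤ Ck * (X + Ca * δ * Q) + Ck * (X + Ca * δ * Q) ^ 2 := by
    have g1 : X + gr A' w0 ≤ X + Ca * δ * Q := by linarith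
    have g2 : (X + gr A' w0) ^ 2 ≤ (X + Ca * δ * Q) ^ 2 := pow_le_pow_left₀ (by linarith) g1 2
    calc 4 * δ * Q ^ 2 ≤ lap A' w0 := hlap
      _ ≤ Ck * (X + gr A' w0) + Ck * (X + gr A' w0) ^ 2 := h1
      _ ≤ _ := add_le_add (mul_le_mul_of_nonneg_left g1 hCk.le)
          (mul_le_mul_of_nonneg_left g2 hCk.le)
  have hmain2 : 2 * δ * Q ^ 2 ≤ Ck * X + 2 * Ck * X ^ 2 := by
    have g1 : (X + Ca * δ * Q) ^ 2 ≤ 2 * X ^ 2 + 2 * (Ca * δ * Q) ^ 2 := by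
      nlinarith [sq_nonneg (X - Ca * δ * Q)]
    have g2 : Ck * (2 * (Ca * δ * Q) ^ 2) ≤ δ * Q ^ 2 := by
      calc Ck * (2 * (Ca * δ * Q) ^ 2) = (2 * Ck * Ca ^ 2 * δ) * (δ * Q ^ 2) := by ring
        _ ≤ 1 * (δ * Q ^ 2) := mul_le_mul_of_nonneg_right hδ2 (by positivity)
        _ = δ * Q ^ 2 := one_mul _
    have g3 : Ck * (Ca * δ * Q) ≤ δ * Q ^ 2 := by
      calc Ck * (Ca * δ * Q) = (Ck * Ca) * (δ * Q) := by ring
        _ ≤ Q * (δ * Q) := mul_le_mul_of_nonneg_right hQ2 (by positivity)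
        _ = δ * Q ^ 2 := by ring
    have g4 := mul_le_mul_of_nonneg_left g1 hCk.le
    nlinarith
  have hXQ : c * Q ≤ X := by
    by_contra hcon
    push Not at hcon
    have g1 : Ck * X ≤ Ck * (c * Q) := mul_le_mul_of_nonneg_left hcon.le hCk.le
    have g2 : X ^ 2 ≤ (c * Q) ^ 2 := pow_le_pow_left₀ hX.le hcon.le 2
    have g3 : Ck * (c * Q) ≤ Ck * c * Q ^ 2 := by
      have : Q ≤ Q ^ 2 := by nlinarith
      calc Ck * (c * Q) = Ck * c * Q := by ring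
        _ ≤ Ck * c * Q ^ 2 := mul_le_mul_of_nonneg_left this (by positivity)
    have g4 : 2 * Ck * X ^ 2 ≤ 2 * Ck * c * Q ^ 2 := by
      have h5 : (c * Q) ^ 2 ≤ c * Q ^ 2 := by
        have : c ^ 2 ≤ c := by nlinarith
        calc (c * Q) ^ 2 = c ^ 2 * Q ^ 2 := by ring
          _ ≤ c * Q ^ 2 := mul_le_mul_of_nonneg_right this (by positivity)
      have h6 := mul_le_mul_of_nonneg_left (g2.trans h5) (by positivity : (0 : ℝ) ≤ 2 * Ck)
      calc 2 * Ck * X ^ 2 ≤ 2 * Ck * (c * Q ^ 2) := h6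
        _ = _ := by ring
    have g5 : 2 * δ * Q ^ 2 ≤ (3 * Ck * c) * Q ^ 2 := by linarith
    have g6 : (3 * Ck * c) * Q ^ 2 < 2 * δ * Q ^ 2 :=
      mul_lt_mul_of_pos_right hc2 (by positivity)
    linarith
  -- the value at `z0`
  have h5 : (1 - ‖z0‖ ^ 2) ^ 2 * PP K (k0 K) 0 g z0 ≤ Ck / c ^ 2 := by
    have h6 : (1 - ‖z0‖ ^ 2) ^ 2 * PP K (k0 K) 0 g z0 * (c * Q) ^ 2 ≤
        Ck * Real.exp ((4 * k0 K - 2 * k0 K) * w0.re) := by
      refine le_trans ?_ h2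
      apply mul_le_mul_of_nonneg_left _ (by positivity)
      exact pow_le_pow_left₀ (by positivity) hXQ 2
    have h7 : Real.exp ((4 * k0 K - 2 * k0 K) * w0.re) = Q ^ 2 := by
      rw [hQ, ← Real.exp_nat_mul]
      congr 1
      push_cast
      ring
    rw [h7] at h6
    have h8 : (1 - ‖z0‖ ^ 2) ^ 2 * PP K (k0 K) 0 g z0 * (c ^ 2) * Q ^ 2 ≤ Ck * Q ^ 2 := by
      calc _ = (1 - ‖z0‖ ^ 2) ^ 2 * PP K (k0 K) 0 g z0 * (c * Q) ^ 2 := by ring
        _ ≤ _ := h6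
    have h9 := le_of_mul_le_mul_right h8 (by positivity)
    rw [le_div_iff₀ (by positivity)]
    exact h9
  have h10 := hmax 0 h0B
  have hA0 : 0 ≤ A 0 := by simp only [hA]; positivity
  have hAz0 : A z0 ≤ δ := by
    simp only [hA]
    have : ‖V (K + 1) (g z0) - c0‖ ^ 2 ≤ 1 := pow_le_one₀ (norm_nonneg _) (hV z0 hz0B)
    nlinarith
  have h11 : PP K (k0 K) 0 g 0 ≤ C2 := by
    have hp0 := (hpb 0 h0B).1
    calc PP K (k0 K) 0 g 0 ≤ Real.exp (A 0) * (1 - ‖(0 : ℂ)‖ ^ 2) ^ 2 * PP K (k0 K) 0 g 0 := by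
          rw [norm_zero]
          have : 1 ≤ Real.exp (A 0) := Real.one_le_exp hA0
          nlinarith
      _ ≤ Real.exp (A z0) * (1 - ‖z0‖ ^ 2) ^ 2 * PP K (k0 K) 0 g z0 := h10
      _ = Real.exp (A z0) * ((1 - ‖z0‖ ^ 2) ^ 2 * PP K (k0 K) 0 g z0) := by ring
      _ ≤ Real.exp δ * (Ck / c ^ 2) := by
          apply mul_le_mul (Real.exp_le_exp.2 hAz0) h5 (by positivity) (Real.exp_pos _).le
  have h12 := (hpb 0 h0B).2.2.2
  rw [sub_self, mul_zero, Real.rpow_zero, one_mul] at h12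
  apply Real.le_sqrt_of_sq_le
  exact h12.trans (mul_le_mul_of_nonneg_left h11 hCb.le)

end Pool.Agent.H74.PH
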