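import Mathlib

/-!
# Planar scalar `p`-harmonic functions: definitions

`ℝ² = ℂ`.  `K = p - 1`.
-/

set_option autoImplicit false

open Complex MeasureTheory Set Filter Topology Metric
open scoped ContDiff RealInnerProductSpace

namespace Pool.Agent.H74.PH

/-- the gradient of `u : ℂ → ℝ` at `z`, as a complex number -/
noncomputable def grad (u : ℂ → ℝ) (z : ℂ) : ℂ := ⟨fderiv ℝ u z 1, fderiv ℝ u z I⟩

/-- `A(ξ) = |ξ|^(p-2) ξ` -/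
noncomputable def A (p : ℝ) (ξ : ℂ) : ℂ := ‖ξ‖ ^ (p - 2) • ξ

/-- `V(ξ) = |ξ|^((p-2)/2) ξ` -/
noncomputable def V (p : ℝ) (ξ : ℂ) : ℂ := ‖ξ‖ ^ ((p - 2) / 2) • ξ

/-- `u` is a `C¹` weak solution of `div(|∇u|^(p-2) ∇u) = 0` on `Ω` -/
structure IsPHarmonicOn (p : ℝ) (Ω : Set ℂ) (u : ℂ → ℝ) : Prop where
  contDiff : ContDiffOn ℝ 1 u Ω
  weak : ∀ φ : ℂ → ℝ, ContDiff ℝ ∞ φ → HasCompactSupport φ → tsupport φ ⊆ Ω →
    ∫ z, ⟪A p (grad u z), grad φ z⟫ = 0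

/-- the mean oscillation `(⨍_{B(z,r)} |F - ⟨F⟩|²)^(1/2)` -/
noncomputable def osc (F : ℂ → ℂ) (z : ℂ) (r : ℝ) : ℝ :=
  √(⨍ y in ball z r, ‖F y - ⨍ x in ball z r, F x‖ ^ 2)

/-! ### the gradient as a function of its own -/

/-- `Dg(z)[g(z)] / g(z)` -/
noncomputable def S (g : ℂ → ℂ) (z : ℂ) : ℂ := fderiv ℝ g z (g z) / g z

/-- `g` is continuous, and, off its zeros, `C³`, with
`Dg (s + r i) g = ((α s + β r) + (β s - K α r) i) g`, where `α + β i = S g`: this says that `g` is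
curl free and `div (|g|^(K-1) g) = 0`. -/
structure PGrad (K : ℝ) (Ω : Set ℂ) (g : ℂ → ℂ) : Prop where
  isOpen : IsOpen Ω
  cont : ContinuousOn g Ω
  smooth : ∀ z ∈ Ω, g z ≠ 0 → ContDiffAt ℝ 3 g z
  eq : ∀ z ∈ Ω, g z ≠ 0 → ∀ s r : ℝ, fderiv ℝ g z ((s + r * I) * g z) =
    (((S g z).re * s + (S g z).im * r : ℝ) + ((S g z).im * s - K * (S g z).re * r : ℝ) * I) * g z

/-- `|g|^((K-1)/2) |S g|`, comparable with `|D (V g)|` -/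
noncomputable def sig (K : ℝ) (g : ℂ → ℂ) (z : ℂ) : ℝ := ‖g z‖ ^ ((K - 1) / 2) * ‖S g z‖

noncomputable def k0 (K : ℝ) : ℝ := (√K + 1 / √K) / 2

noncomputable def cc (K : ℝ) : ℝ := -(√K - 1 / √K) / 4

noncomputable def pi1 (k c E : ℝ) : ℝ := (k - c) * (1 - E) + k / 8 * E

noncomputable def pi2 (k c E : ℝ) : ℝ := (k + c) * (1 - E) + k / 8 * E

/-- the main quantity, as a function on the physical plane (it is `0` where `g = 0` or `S g = 0`) -/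
noncomputable def PP (K k ε : ℝ) (g : ℂ → ℂ) (z : ℂ) : ℝ :=
  ‖g z‖ ^ (4 * √K * k - K - 3) * (K * (S g z).re ^ 2 + (S g z).im ^ 2) ^ 2 /
    (pi1 k (cc K) (ε * ‖g z‖ ^ (√K * k / 2)) * (K * (S g z).re ^ 2) +
      pi2 k (cc K) (ε * ‖g z‖ ^ (√K * k / 2)) * (S g z).im ^ 2)

/-! ### the hodograph plane, `w = t + i φ` -/

/-- `Z : W → ℂ` is the inverse of `z ↦ (t, φ)`, `g = exp (t / √K + i φ)`, and
`e^(-iφ) Z_t = a + i b / √K`, `e^(-iφ) Z_φ = b - i a / √K`, `Y = e^(k0 t) (a - i b)`. -/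
structure Hodo (K : ℝ) (W : Set ℂ) (Z Y : ℂ → ℂ) : Prop where
  isOpen : IsOpen W
  smooth : ∀ w ∈ W, ContDiffAt ℝ 2 Y w
  ne : ∀ w ∈ W, Y w ≠ 0
  diff : ∀ w ∈ W, DifferentiableAt ℝ Z w
  zt : ∀ w ∈ W, fderiv ℝ Z w 1 =
    exp (w.im * I - k0 K * w.re) * ((Y w).re - (Y w).im / √K * I)
  zf : ∀ w ∈ W, fderiv ℝ Z w I =
    exp (w.im * I - k0 K * w.re) * (-(Y w).im - (Y w).re / √K * I)
  sys1 : ∀ w ∈ W, (fderiv ℝ Y w 1).re - (fderiv ℝ Y w I).im = 2 * cc K * (Y w).re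
  sys2 : ∀ w ∈ W, (fderiv ℝ Y w 1).im + (fderiv ℝ Y w I).re = -2 * cc K * (Y w).im

/-- the main quantity on the hodograph plane -/
noncomputable def MM (K k ε : ℝ) (Y : ℂ → ℂ) (w : ℂ) : ℝ :=
  Real.exp (-4 * k * w.re) * (pi1 k (cc K) (ε * Real.exp (k / 2 * w.re)) * (Y w).re ^ 2 +
    pi2 k (cc K) (ε * Real.exp (k / 2 * w.re)) * (Y w).im ^ 2)

noncomputable def d1 (f : ℂ → ℝ) (w : ℂ) : ℝ := fderiv ℝ f w 1

noncomputable def d2 (f : ℂ → ℝ) (w : ℂ) : ℝ := fderiv ℝ f w I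

/-- length of the gradient -/
noncomputable def gr (f : ℂ → ℝ) (w : ℂ) : ℝ := √(d1 f w ^ 2 + d2 f w ^ 2)

/-- Laplacian -/
noncomputable def lap (f : ℂ → ℝ) (w : ℂ) : ℝ := d1 (d1 f) w + d2 (d2 f) w

/-- `|Z_t|² + |Z_φ|² = (1 + 1/K) omega²` -/
noncomputable def omega (K : ℝ) (Y : ℂ → ℂ) (w : ℂ) : ℝ := Real.exp (-k0 K * w.re) * ‖Y w‖

/-! ### the quadratic forms at a point -/

/-- `e^(4kt) M` -/
noncomputable def m (k c E a b : ℝ) : ℝ := pi1 k c E * a ^ 2 + pi2 k c E * b ^ 2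

/-- `e^(4kt) ∂ₜ (e^(-4kt) m)`, where `Y = a + i b`, `x = ∂ₜ a`, `y = ∂_φ a`, `E = ε e^(kt/2)` -/
noncomputable def v1 (k c E a b x y : ℝ) : ℝ :=
  k / 2 * E * (k / 8 - (k - c)) * a ^ 2 + k / 2 * E * (k / 8 - (k + c)) * b ^ 2 +
    2 * pi1 k c E * a * x + 2 * pi2 k c E * b * (-y - 2 * c * b) - 4 * k * m k c E a b

/-- `e^(4kt) ∂_φ (e^(-4kt) m)` -/
noncomputable def v2 (k c E a b x y : ℝ) : ℝ :=
  2 * pi1 k c E * a * y + 2 * pi2 k c E * b * (x - 2 * c * a)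

/-- `e^(4kt) Δ (e^(-4kt) m)` -/
noncomputable def Lap (k c E a b x y : ℝ) : ℝ :=
  k / 2 * (k / 2 * E * (k / 8 - (k - c))) * a ^ 2 + k / 2 * (k / 2 * E * (k / 8 - (k + c))) * b ^ 2 +
    4 * (k / 2 * E * (k / 8 - (k - c))) * a * x +
    4 * (k / 2 * E * (k / 8 - (k + c))) * b * (-y - 2 * c * b) +
    2 * pi1 k c E * (x ^ 2 + y ^ 2 + 4 * c ^ 2 * a ^ 2) +
    2 * pi2 k c E * ((-y - 2 * c * b) ^ 2 + (x - 2 * c * a) ^ 2 + 4 * c ^ 2 * b ^ 2) -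
    8 * k * (v1 k c E a b x y + 4 * k * m k c E a b) + 16 * k ^ 2 * m k c E a b

end Pool.Agent.H74.PH
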