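import Pool.Agent.H74.PH.Defs

/-! # Project PH, stub ETA -/

set_option autoImplicit false

open Complex MeasureTheory Set Filter Topology Metric
open scoped ContDiff RealInnerProductSpace

namespace Pool.Agent.H74.PH

/-- `e^(iφ - k0 t)` -/
noncomputable def etaE (K : ℝ) (w : ℂ) : ℂ := exp (w.im * I - k0 K * w.re)

/-- `Z_t` -/
noncomputable def etaP (K : ℝ) (Y : ℂ → ℂ) (w : ℂ) : ℂ :=
  exp (w.im * I - k0 K * w.re) * ((Y w).re - (Y w).im / √K * I)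

/-- `Z_φ` -/
noncomputable def etaQ (K : ℝ) (Y : ℂ → ℂ) (w : ℂ) : ℂ :=
  exp (w.im * I - k0 K * w.re) * (-(Y w).im - (Y w).re / √K * I)

theorem eta_hre (w : ℂ) : HasFDerivAt (fun w : ℂ => ((w.re : ℝ) : ℂ)) (ofRealCLM.comp reCLM) w :=
  (ofRealCLM.comp reCLM).hasFDerivAt

theorem eta_him (w : ℂ) : HasFDerivAt (fun w : ℂ => ((w.im : ℝ) : ℂ)) (ofRealCLM.comp imCLM) w :=
  (ofRealCLM.comp imCLM).hasFDerivAt

theorem eta_hasE (K : ℝ) (w : ℂ) : HasFDerivAt (etaE K)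
    (etaE K w • (I • (ofRealCLM.comp imCLM) - (k0 K : ℂ) • (ofRealCLM.comp reCLM))) w := by
  have h1 : HasFDerivAt (fun w : ℂ => ((w.im : ℝ) : ℂ) * I - (k0 K : ℂ) * ((w.re : ℝ) : ℂ))
      (I • (ofRealCLM.comp imCLM) - (k0 K : ℂ) • (ofRealCLM.comp reCLM)) w :=
    ((eta_him w).mul_const I).sub ((eta_hre w).const_mul (k0 K : ℂ))
  exact h1.cexp

theorem eta_hasYre {Y : ℂ → ℂ} {Y' : ℂ →L[ℝ] ℂ} {w : ℂ} (h : HasFDerivAt Y Y' w) :
    HasFDerivAt (fun w => (((Y w).re : ℝ) : ℂ)) ((ofRealCLM.comp reCLM).comp Y') w :=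
  ((ofRealCLM.comp reCLM).hasFDerivAt).comp w h

theorem eta_hasYim {Y : ℂ → ℂ} {Y' : ℂ →L[ℝ] ℂ} {w : ℂ} (h : HasFDerivAt Y Y' w) :
    HasFDerivAt (fun w => (((Y w).im : ℝ) : ℂ)) ((ofRealCLM.comp imCLM).comp Y') w :=
  ((ofRealCLM.comp imCLM).hasFDerivAt).comp w h

theorem eta_hasP (K : ℝ) {Y : ℂ → ℂ} {Y' : ℂ →L[ℝ] ℂ} {w : ℂ} (h : HasFDerivAt Y Y' w) :
    ∃ P' : ℂ →L[ℝ] ℂ, HasFDerivAt (etaP K Y) P' w ∧
      P' 1 = etaE K w * (((Y' 1).re - (Y' 1).im / √K * I) - k0 K * ((Y w).re - (Y w).im / √K * I)) := by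
  have h1 := (eta_hasE K w).mul ((eta_hasYre h).sub (((eta_hasYim h).mul_const ((√K : ℂ)⁻¹)).mul_const I))
  refine ⟨_, h1.congr_of_eventuallyEq (Eventually.of_forall fun x => ?_), ?_⟩
  · simp only [etaP, etaE, div_eq_mul_inv, Pi.mul_apply, Pi.sub_apply]
  · simp only [add_apply, smul_apply, sub_apply, ContinuousLinearMap.comp_apply, ofRealCLM_apply,
      reCLM_apply, imCLM_apply, smul_eq_mul, one_im, one_re, ofReal_zero, ofReal_one, Pi.sub_apply]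
    simp only [div_eq_mul_inv]
    ring

theorem eta_hasQ (K : ℝ) {Y : ℂ → ℂ} {Y' : ℂ →L[ℝ] ℂ} {w : ℂ} (h : HasFDerivAt Y Y' w) :
    ∃ Q' : ℂ →L[ℝ] ℂ, HasFDerivAt (etaQ K Y) Q' w ∧
      Q' I = etaE K w * ((-(Y' I).im - (Y' I).re / √K * I) + I * (-(Y w).im - (Y w).re / √K * I)) := by
  have h1 := (eta_hasE K w).mul ((eta_hasYim h).neg.sub (((eta_hasYre h).mul_const ((√K : ℂ)⁻¹)).mul_const I))
  refine ⟨_, h1.congr_of_eventuallyEq (Eventually.of_forall fun x => ?_), ?_⟩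
  · simp only [etaQ, etaE, div_eq_mul_inv, Pi.mul_apply, Pi.sub_apply, Pi.neg_apply]
  · simp only [add_apply, smul_apply, sub_apply, neg_apply, ContinuousLinearMap.comp_apply, ofRealCLM_apply,
      reCLM_apply, imCLM_apply, smul_eq_mul, I_im, I_re, ofReal_zero, ofReal_one, Pi.sub_apply, Pi.neg_apply]
    simp only [div_eq_mul_inv]
    ring

theorem eta_cdE (K : ℝ) (w : ℂ) : ContDiffAt ℝ 2 (etaE K) w := by
  have h1 : ContDiff ℝ 2 (fun w : ℂ => ((w.re : ℝ) : ℂ)) := (ofRealCLM.comp reCLM).contDiff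
  have h2 : ContDiff ℝ 2 (fun w : ℂ => ((w.im : ℝ) : ℂ)) := (ofRealCLM.comp imCLM).contDiff
  exact (((h2.mul contDiff_const).sub (contDiff_const.mul h1)).cexp).contDiffAt

theorem eta_cdP (K : ℝ) {Y : ℂ → ℂ} {w : ℂ} (h : ContDiffAt ℝ 2 Y w) : ContDiffAt ℝ 2 (etaP K Y) w := by
  have h1 : ContDiffAt ℝ 2 (fun w => (((Y w).re : ℝ) : ℂ)) w := ((ofRealCLM.comp reCLM).contDiff.contDiffAt).comp w h
  have h2 : ContDiffAt ℝ 2 (fun w => (((Y w).im : ℝ) : ℂ)) w := ((ofRealCLM.comp imCLM).contDiff.contDiffAt).comp w h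
  have h3 := (eta_cdE K w).mul (h1.sub ((h2.mul (contDiffAt_const (c := ((√K : ℂ)⁻¹)))).mul
    (contDiffAt_const (c := I))))
  refine h3.congr_of_eventuallyEq (Eventually.of_forall fun x => ?_)
  simp only [etaP, etaE, div_eq_mul_inv]

theorem eta_cdQ (K : ℝ) {Y : ℂ → ℂ} {w : ℂ} (h : ContDiffAt ℝ 2 Y w) : ContDiffAt ℝ 2 (etaQ K Y) w := by
  have h1 : ContDiffAt ℝ 2 (fun w => (((Y w).re : ℝ) : ℂ)) w := ((ofRealCLM.comp reCLM).contDiff.contDiffAt).comp w h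
  have h2 : ContDiffAt ℝ 2 (fun w => (((Y w).im : ℝ) : ℂ)) w := ((ofRealCLM.comp imCLM).contDiff.contDiffAt).comp w h
  have h3 := (eta_cdE K w).mul (h2.neg.sub ((h1.mul (contDiffAt_const (c := ((√K : ℂ)⁻¹)))).mul
    (contDiffAt_const (c := I))))
  refine h3.congr_of_eventuallyEq (Eventually.of_forall fun x => ?_)
  simp only [etaQ, etaE, div_eq_mul_inv]

theorem eta_hasZ {K : ℝ} {W : Set ℂ} {Z Y : ℂ → ℂ} (h : Hodo K W Z Y) {w : ℂ} (hw : w ∈ W) :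
    HasFDerivAt Z (reCLM.smulRight (etaP K Y w) + imCLM.smulRight (etaQ K Y w)) w := by
  refine (h.diff w hw).hasFDerivAt.congr_fderiv ?_
  ext x
  have h1 : x = x.re • (1 : ℂ) + x.im • I := by
    simp only [Complex.real_smul, mul_one, Complex.re_add_im]
  conv_lhs => rw [h1]
  rw [map_add, map_smul, map_smul, h.zt w hw, h.zf w hw]
  rfl

theorem eta_cdZ {K : ℝ} {W : Set ℂ} {Z Y : ℂ → ℂ} (h : Hodo K W Z Y) {w : ℂ} (hw : w ∈ W) :
    ContDiffAt ℝ 2 Z w := by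
  have h1 : ContDiffAt ℝ (1 + 1) Z w := by
    refine (contDiffAt_succ_iff_hasFDerivAt (n := 1)).2
      ⟨fun w => reCLM.smulRight (etaP K Y w) + imCLM.smulRight (etaQ K Y w),
        ⟨W, h.isOpen.mem_nhds hw, fun x hx => eta_hasZ h hx⟩, ?_⟩
    have h2 : ContDiffAt ℝ 1 (etaP K Y) w := (eta_cdP K (h.smooth w hw)).of_le (by norm_num)
    have h3 : ContDiffAt ℝ 1 (etaQ K Y) w := (eta_cdQ K (h.smooth w hw)).of_le (by norm_num)
    exact (((ContinuousLinearMap.smulRightL ℝ ℂ ℂ reCLM).contDiff.contDiffAt).comp w h2).add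
      (((ContinuousLinearMap.smulRightL ℝ ℂ ℂ imCLM).contDiff.contDiffAt).comp w h3)
  norm_num at h1
  exact h1

theorem eta_hasf {K : ℝ} {W : Set ℂ} {Z Y : ℂ → ℂ} (h : Hodo K W Z Y) {w : ℂ} (hw : w ∈ W) :
    d1 (fun w => 1 - ‖Z w‖ ^ 2) w = -2 * ⟪Z w, etaP K Y w⟫ ∧
    d2 (fun w => 1 - ‖Z w‖ ^ 2) w = -2 * ⟪Z w, etaQ K Y w⟫ := by
  have h1 := ((eta_hasZ h hw).norm_sq).const_sub 1
  unfold d1 d2
  rw [h1.fderiv]
  constructor
  · simp only [neg_apply, smul_apply, ContinuousLinearMap.comp_apply, add_apply,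
      ContinuousLinearMap.smulRight_apply, reCLM_apply, imCLM_apply, one_re, one_im, one_smul, zero_smul,
      add_zero, innerSL_apply_apply, nsmul_eq_mul]
    push_cast
    ring
  · simp only [neg_apply, smul_apply, ContinuousLinearMap.comp_apply, add_apply,
      ContinuousLinearMap.smulRight_apply, reCLM_apply, imCLM_apply, I_re, I_im, one_smul, zero_smul,
      zero_add, innerSL_apply_apply, nsmul_eq_mul]
    push_cast
    ring

theorem eta_lap {K : ℝ} {W : Set ℂ} {Z Y : ℂ → ℂ} (h : Hodo K W Z Y) {w : ℂ} (hw : w ∈ W) :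
    lap (fun w => 1 - ‖Z w‖ ^ 2) w = -2 * (‖etaP K Y w‖ ^ 2 + ‖etaQ K Y w‖ ^ 2) -
      2 * ⟪Z w, etaE K w * (((2 * cc K - k0 K + 1 / √K) * (Y w).re : ℝ) +
        ((2 * cc K / √K + k0 K / √K - 1) * (Y w).im : ℝ) * I)⟫ := by
  have hY : HasFDerivAt Y (fderiv ℝ Y w) w := ((h.smooth w hw).differentiableAt (by norm_num)).hasFDerivAt
  obtain ⟨P', hP1, hP2⟩ := eta_hasP K hY
  obtain ⟨Q', hQ1, hQ2⟩ := eta_hasQ K hY
  have hZ := eta_hasZ h hw
  have e1 : d1 (fun w => 1 - ‖Z w‖ ^ 2) =ᶠ[𝓝 w] fun w => -2 * ⟪Z w, etaP K Y w⟫ := by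
    filter_upwards [h.isOpen.mem_nhds hw] with x hx
    exact (eta_hasf h hx).1
  have e2 : d2 (fun w => 1 - ‖Z w‖ ^ 2) =ᶠ[𝓝 w] fun w => -2 * ⟪Z w, etaQ K Y w⟫ := by
    filter_upwards [h.isOpen.mem_nhds hw] with x hx
    exact (eta_hasf h hx).2
  have f1 : d1 (d1 (fun w => 1 - ‖Z w‖ ^ 2)) w = -2 * (⟪Z w, P' 1⟫ + ‖etaP K Y w‖ ^ 2) := by
    rw [d1, e1.fderiv_eq, ((hZ.inner ℝ hP1).const_mul (-2)).fderiv]
    simp only [smul_apply, ContinuousLinearMap.comp_apply, ContinuousLinearMap.prod_apply,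
      fderivInnerCLM_apply, add_apply, ContinuousLinearMap.smulRight_apply, reCLM_apply, imCLM_apply,
      one_re, one_im, one_smul, zero_smul, add_zero, smul_eq_mul, real_inner_self_eq_norm_sq]
  have f2 : d2 (d2 (fun w => 1 - ‖Z w‖ ^ 2)) w = -2 * (⟪Z w, Q' I⟫ + ‖etaQ K Y w‖ ^ 2) := by
    rw [d2, e2.fderiv_eq, ((hZ.inner ℝ hQ1).const_mul (-2)).fderiv]
    simp only [smul_apply, ContinuousLinearMap.comp_apply, ContinuousLinearMap.prod_apply,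
      fderivInnerCLM_apply, add_apply, ContinuousLinearMap.smulRight_apply, reCLM_apply, imCLM_apply,
      I_re, I_im, one_smul, zero_smul, zero_add, smul_eq_mul, real_inner_self_eq_norm_sq]
  have h3 : P' 1 + Q' I = etaE K w * (((2 * cc K - k0 K + 1 / √K) * (Y w).re : ℝ) +
        ((2 * cc K / √K + k0 K / √K - 1) * (Y w).im : ℝ) * I) := by
    have s1 : ((fderiv ℝ Y w 1).re : ℂ) = (2 * cc K * (Y w).re : ℝ) + ((fderiv ℝ Y w I).im : ℂ) := by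
      rw [← h.sys1 w hw]; push_cast; ring
    have s2 : ((fderiv ℝ Y w 1).im : ℂ) = (-2 * cc K * (Y w).im : ℝ) - ((fderiv ℝ Y w I).re : ℂ) := by
      rw [← h.sys2 w hw]; push_cast; ring
    rw [hP2, hQ2, s1, s2]
    push_cast
    linear_combination (-(etaE K w * ((Y w).re : ℂ) / (√K : ℂ))) * Complex.I_sq
  rw [lap, f1, f2, ← h3, inner_add_right]
  ring

theorem eta_norm_E (K : ℝ) (w : ℂ) : ‖etaE K w‖ = Real.exp (-k0 K * w.re) := by
  rw [etaE, Complex.norm_exp]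
  congr 1
  simp

/-- PH-ETA: the cut-off function `1 - |Z|²` on the hodograph plane. -/
theorem eta {K : ℝ} (hK : 0 < K) : ∃ C : ℝ, 0 < C ∧ ∀ (W : Set ℂ) (Z Y : ℂ → ℂ), Hodo K W Z Y →
    ∀ w ∈ W, ‖Z w‖ ≤ 1 →
      ContDiffAt ℝ 2 (fun w => 1 - ‖Z w‖ ^ 2) w ∧
      gr (fun w => 1 - ‖Z w‖ ^ 2) w ≤ C * omega K Y w ∧
      |lap (fun w => 1 - ‖Z w‖ ^ 2) w| ≤ C * (omega K Y w + omega K Y w ^ 2) := by
  obtain ⟨κ, hκ⟩ : ∃ κ : ℝ, κ = 1 + 1 / √K := ⟨_, rfl⟩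
  have hκ1 : 1 ≤ κ := by rw [hκ]; have : 0 ≤ 1 / √K := by positivity
                         linarith
  obtain ⟨c1, hc1⟩ : ∃ c1 : ℝ, c1 = 2 * cc K - k0 K + 1 / √K := ⟨_, rfl⟩
  obtain ⟨c2, hc2⟩ : ∃ c2 : ℝ, c2 = 2 * cc K / √K + k0 K / √K - 1 := ⟨_, rfl⟩
  refine ⟨4 * κ ^ 2 + 4 * κ + 2 * (|c1| + |c2|), by positivity, fun W Z Y h w hw hZ => ?_⟩
  obtain ⟨o, ho⟩ : ∃ o : ℝ, o = omega K Y w := ⟨_, rfl⟩
  have ho0 : 0 ≤ o := by rw [ho, omega]; positivity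
  have hP : ‖etaP K Y w‖ ≤ κ * o := by
    have e : etaP K Y w = etaE K w * ((Y w).re - (Y w).im / √K * I) := rfl
    have h2 : ‖(((Y w).re : ℂ) - (Y w).im / √K * I)‖ ≤ κ * ‖Y w‖ := by
      refine (norm_sub_le _ _).trans ?_
      rw [norm_mul, norm_div, Complex.norm_I, mul_one, Complex.norm_real, Complex.norm_real,
        Complex.norm_real, Real.norm_eq_abs, Real.norm_eq_abs, Real.norm_eq_abs, hκ, add_mul, one_mul,
        abs_of_nonneg (Real.sqrt_nonneg K), div_mul_eq_mul_div, one_mul]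
      exact add_le_add (Complex.abs_re_le_norm _)
        (div_le_div_of_nonneg_right (Complex.abs_im_le_norm _) (Real.sqrt_nonneg K))
    rw [e, norm_mul, eta_norm_E, ho, omega]
    calc _ ≤ Real.exp (-k0 K * w.re) * (κ * ‖Y w‖) := mul_le_mul_of_nonneg_left h2 (Real.exp_pos _).le
      _ = _ := by ring
  have hQ : ‖etaQ K Y w‖ ≤ κ * o := by
    have e : etaQ K Y w = etaE K w * (-(Y w).im - (Y w).re / √K * I) := rfl
    have h2 : ‖(-((Y w).im : ℂ) - (Y w).re / √K * I)‖ ≤ κ * ‖Y w‖ := by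
      refine (norm_sub_le _ _).trans ?_
      rw [norm_neg, norm_mul, norm_div, Complex.norm_I, mul_one, Complex.norm_real, Complex.norm_real,
        Complex.norm_real, Real.norm_eq_abs, Real.norm_eq_abs, Real.norm_eq_abs, hκ, add_mul, one_mul,
        abs_of_nonneg (Real.sqrt_nonneg K), div_mul_eq_mul_div, one_mul]
      exact add_le_add (Complex.abs_im_le_norm _)
        (div_le_div_of_nonneg_right (Complex.abs_re_le_norm _) (Real.sqrt_nonneg K))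
    rw [e, norm_mul, eta_norm_E, ho, omega]
    calc _ ≤ Real.exp (-k0 K * w.re) * (κ * ‖Y w‖) := mul_le_mul_of_nonneg_left h2 (Real.exp_pos _).le
      _ = _ := by ring
  have hR : ‖etaE K w * (((2 * cc K - k0 K + 1 / √K) * (Y w).re : ℝ) +
        ((2 * cc K / √K + k0 K / √K - 1) * (Y w).im : ℝ) * I)‖ ≤ (|c1| + |c2|) * o := by
    rw [← hc1, ← hc2, norm_mul, eta_norm_E, ho, omega]
    have h2 : ‖((c1 * (Y w).re : ℝ) : ℂ) + ((c2 * (Y w).im : ℝ) : ℂ) * I‖ ≤ (|c1| + |c2|) * ‖Y w‖ := by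
      refine (norm_add_le _ _).trans ?_
      rw [norm_mul, Complex.norm_I, mul_one, Complex.norm_real, Complex.norm_real,
        Real.norm_eq_abs, Real.norm_eq_abs, abs_mul, abs_mul, add_mul]
      exact add_le_add (mul_le_mul_of_nonneg_left (Complex.abs_re_le_norm _) (abs_nonneg _))
        (mul_le_mul_of_nonneg_left (Complex.abs_im_le_norm _) (abs_nonneg _))
    calc _ ≤ Real.exp (-k0 K * w.re) * ((|c1| + |c2|) * ‖Y w‖) :=
          mul_le_mul_of_nonneg_left h2 (Real.exp_pos _).le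
      _ = _ := by ring
  have hiP : |⟪Z w, etaP K Y w⟫| ≤ κ * o :=
    (abs_real_inner_le_norm _ _).trans ((mul_le_of_le_one_left (norm_nonneg _) hZ).trans hP)
  have hiQ : |⟪Z w, etaQ K Y w⟫| ≤ κ * o :=
    (abs_real_inner_le_norm _ _).trans ((mul_le_of_le_one_left (norm_nonneg _) hZ).trans hQ)
  have hiR := (abs_real_inner_le_norm (Z w) (etaE K w * (((2 * cc K - k0 K + 1 / √K) * (Y w).re : ℝ) +
        ((2 * cc K / √K + k0 K / √K - 1) * (Y w).im : ℝ) * I))).trans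
        ((mul_le_of_le_one_left (norm_nonneg _) hZ).trans hR)
  obtain ⟨g1, g2⟩ := eta_hasf h hw
  have hab : 0 ≤ |c1| + |c2| := by positivity
  refine ⟨?_, ?_, ?_⟩
  · exact contDiffAt_const.sub ((eta_cdZ h hw).norm_sq ℝ)
  · rw [gr, g1, g2, ← ho]
    have h2 : √((-2 * ⟪Z w, etaP K Y w⟫) ^ 2 + (-2 * ⟪Z w, etaQ K Y w⟫) ^ 2) ≤ 4 * (κ * o) := by
      rw [Real.sqrt_le_left (by positivity)]
      have i1 := sq_le_sq' (by have := (abs_le.1 hiP).1; linarith) (abs_le.1 hiP).2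
      have i2 := sq_le_sq' (by have := (abs_le.1 hiQ).1; linarith) (abs_le.1 hiQ).2
      nlinarith [sq_nonneg (κ * o)]
    refine h2.trans ?_
    have h3 : 4 * κ ≤ 4 * κ ^ 2 + 4 * κ + 2 * (|c1| + |c2|) := by nlinarith
    calc 4 * (κ * o) = 4 * κ * o := by ring
      _ ≤ _ := mul_le_mul_of_nonneg_right h3 ho0
  · rw [eta_lap h hw, ← ho]
    have i1 : ‖etaP K Y w‖ ^ 2 ≤ (κ * o) ^ 2 := pow_le_pow_left₀ (norm_nonneg _) hP 2
    have i2 : ‖etaQ K Y w‖ ^ 2 ≤ (κ * o) ^ 2 := pow_le_pow_left₀ (norm_nonneg _) hQ 2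
    have i3 : 0 ≤ ‖etaP K Y w‖ ^ 2 := by positivity
    have i4 : 0 ≤ ‖etaQ K Y w‖ ^ 2 := by positivity
    obtain ⟨i5, i6⟩ := abs_le.1 hiR
    have i7 : 0 ≤ κ * o := by positivity
    have i8 : 0 ≤ (|c1| + |c2|) * o ^ 2 := by positivity
    have i9 : 0 ≤ κ ^ 2 * o := by positivity
    have i10 : 0 ≤ κ * o ^ 2 := by positivity
    rw [abs_le]
    constructor
    · nlinarith
    · nlinarith

end Pool.Agent.H74.PH
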