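import Pool.Agent.H74.PH.Defs

/-! # PH-L2: from the gradient estimate to the `L²` decay -/

set_option autoImplicit false

open Complex MeasureTheory Set Filter Topology Metric
open scoped ContDiff RealInnerProductSpace

namespace Pool.Agent.H74.PH

namespace L2

lemma vol_ball (z : ℂ) {r : ℝ} (hr : 0 ≤ r) : volume.real (ball z r) = Real.pi * r ^ 2 := by
  rw [Measure.real, Complex.volume_ball, ENNReal.toReal_mul, ENNReal.toReal_pow,
    ENNReal.toReal_ofReal hr]
  simp
  ring

lemma int_F {s : Set ℂ} (hs : volume s ≠ ⊤) {F : ℂ → ℂ}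
    (hm : AEStronglyMeasurable F (volume.restrict s)) (h2 : IntegrableOn (fun x => ‖F x‖ ^ 2) s) :
    IntegrableOn F s := by
  have h1 : IntegrableOn (fun x : ℂ => (1 : ℝ) + ‖F x‖ ^ 2) s :=
    (integrableOn_const hs).add h2
  refine Integrable.mono' h1 hm (Eventually.of_forall fun x => ?_)
  nlinarith [sq_nonneg (‖F x‖ - 1), norm_nonneg (F x)]

lemma int_sub {s : Set ℂ} (hs : volume s ≠ ⊤) {F : ℂ → ℂ}
    (hm : AEStronglyMeasurable F (volume.restrict s)) (h2 : IntegrableOn (fun x => ‖F x‖ ^ 2) s)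
    (c : ℂ) : IntegrableOn (fun x => ‖F x - c‖ ^ 2) s := by
  have h1 : IntegrableOn (fun x : ℂ => 2 * ‖F x‖ ^ 2 + 2 * ‖c‖ ^ 2) s :=
    (h2.const_mul 2).add (integrableOn_const hs)
  refine Integrable.mono' h1 ((hm.sub aestronglyMeasurable_const).norm.pow 2)
    (Eventually.of_forall fun x => ?_)
  rw [Real.norm_of_nonneg (by positivity)]
  have h3 := norm_sub_le (F x) c
  nlinarith [sq_nonneg (‖F x‖ - ‖c‖), norm_nonneg (F x - c), norm_nonneg (F x), norm_nonneg c]

/-- the mean is the best constant -/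
lemma var_le {s : Set ℂ} (hs : volume s ≠ ⊤) (hs0 : volume s ≠ 0) {F : ℂ → ℂ}
    (hm : AEStronglyMeasurable F (volume.restrict s)) (h2 : IntegrableOn (fun x => ‖F x‖ ^ 2) s)
    (c : ℂ) : ∫ y in s, ‖F y - ⨍ x in s, F x‖ ^ 2 ≤ ∫ y in s, ‖F y - c‖ ^ 2 := by
  have hF := int_F hs hm h2
  obtain ⟨m, hme⟩ : ∃ m, m = ⨍ x in s, F x := ⟨_, rfl⟩
  rw [← hme]
  have hv : 0 < volume.real s := ENNReal.toReal_pos hs0 hs
  have hsum : ∫ y in s, (F y - c) = (volume.real s : ℂ) * (m - c) := by
    rw [integral_sub hF (integrableOn_const hs), setIntegral_const, hme, setAverage_eq]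
    rw [mul_sub, real_smul, real_smul]
    push_cast
    rw [mul_inv_cancel_left₀ (by exact_mod_cast hv.ne')]
  have hint := int_sub hs hm h2 c
  have hGi : IntegrableOn (fun y => F y - c) s := hF.sub (integrableOn_const hs)
  have e1 : ∀ y, ‖F y - m‖ ^ 2 = ‖F y - c‖ ^ 2 - 2 * ((F y - c) * (starRingEnd ℂ) (m - c)).re +
      ‖m - c‖ ^ 2 := by
    intro y
    have : F y - m = (F y - c) - (m - c) := by ring
    rw [this, ← Complex.normSq_eq_norm_sq, Complex.normSq_sub, Complex.normSq_eq_norm_sq,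
      Complex.normSq_eq_norm_sq]
    ring
  have h3 : IntegrableOn (fun y => ((F y - c) * (starRingEnd ℂ) (m - c)).re) s :=
    (hGi.mul_const _).re
  have h4 : ∫ y in s, ((F y - c) * (starRingEnd ℂ) (m - c)).re = volume.real s * ‖m - c‖ ^ 2 := by
    have h5 : ∫ y in s, ((F y - c) * (starRingEnd ℂ) (m - c)).re =
        (∫ y in s, (F y - c) * (starRingEnd ℂ) (m - c)).re := by
      exact integral_re (hGi.mul_const _)
    rw [h5, integral_mul_const, hsum, mul_assoc, Complex.mul_conj, ← Complex.ofReal_mul,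
      Complex.ofReal_re, Complex.normSq_eq_norm_sq]
  calc ∫ y in s, ‖F y - m‖ ^ 2
      = ∫ y in s, (‖F y - c‖ ^ 2 - 2 * ((F y - c) * (starRingEnd ℂ) (m - c)).re +
          ‖m - c‖ ^ 2) := by
        congr 1
        funext y
        exact e1 y
    _ = (∫ y in s, ‖F y - c‖ ^ 2) - 2 * (volume.real s * ‖m - c‖ ^ 2) +
          volume.real s * ‖m - c‖ ^ 2 := by
        have h6 : IntegrableOn (fun y => ‖F y - c‖ ^ 2 -
            2 * ((F y - c) * (starRingEnd ℂ) (m - c)).re) s := hint.sub (h3.const_mul 2)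
        have h7 : ∫ y in s, (‖F y - c‖ ^ 2 - 2 * ((F y - c) * (starRingEnd ℂ) (m - c)).re +
          ‖m - c‖ ^ 2) = (∫ y in s, (‖F y - c‖ ^ 2 -
            2 * ((F y - c) * (starRingEnd ℂ) (m - c)).re)) + ∫ y in s, ‖m - c‖ ^ 2 :=
          integral_add h6 (integrableOn_const hs)
        have h8 : ∫ y in s, (‖F y - c‖ ^ 2 - 2 * ((F y - c) * (starRingEnd ℂ) (m - c)).re) =
            (∫ y in s, ‖F y - c‖ ^ 2) - ∫ y in s, 2 * ((F y - c) * (starRingEnd ℂ) (m - c)).re :=
          integral_sub hint (h3.const_mul 2)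
        rw [h7, h8, integral_const_mul, h4, setIntegral_const]
        simp
    _ ≤ ∫ y in s, ‖F y - c‖ ^ 2 := by
        have : 0 ≤ volume.real s * ‖m - c‖ ^ 2 := by positivity
        linarith

lemma osc_nonneg (F : ℂ → ℂ) (z : ℂ) (r : ℝ) : 0 ≤ osc F z r := Real.sqrt_nonneg _

lemma osc_sq (F : ℂ → ℂ) (z : ℂ) {r : ℝ} (hr : 0 < r) :
    osc F z r ^ 2 * (Real.pi * r ^ 2) = ∫ y in ball z r, ‖F y - ⨍ x in ball z r, F x‖ ^ 2 := by
  have hv : 0 < volume.real (ball z r) := by
    rw [vol_ball z hr.le]; positivity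
  have h0 : 0 ≤ ⨍ y in ball z r, ‖F y - ⨍ x in ball z r, F x‖ ^ 2 := by
    rw [setAverage_eq, smul_eq_mul]
    have : 0 ≤ ∫ y in ball z r, ‖F y - ⨍ x in ball z r, F x‖ ^ 2 :=
      integral_nonneg fun y => by positivity
    positivity
  rw [osc, Real.sq_sqrt h0, setAverage_eq (f := fun y => ‖F y - ⨍ x in ball z r, F x‖ ^ 2),
    smul_eq_mul, ← vol_ball z hr.le]
  field_simp

lemma osc_le {F : ℂ → ℂ} {z : ℂ} {r B : ℝ} (hr : 0 < r) (hB : 0 ≤ B)
    (hm : AEStronglyMeasurable F (volume.restrict (ball z r)))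
    (h2 : IntegrableOn (fun x => ‖F x‖ ^ 2) (ball z r)) (c : ℂ)
    (h : ∫ y in ball z r, ‖F y - c‖ ^ 2 ≤ B ^ 2 * (Real.pi * r ^ 2)) : osc F z r ≤ B := by
  have h1 := var_le measure_ball_lt_top.ne (measure_ball_pos volume z hr).ne' hm h2 c
  have h3 := osc_sq F z hr
  have h4 : osc F z r ^ 2 ≤ B ^ 2 := by
    have : 0 < Real.pi * r ^ 2 := by positivity
    exact le_of_mul_le_mul_right (by rw [h3]; exact h1.trans h) this
  exact le_of_sq_le_sq h4 hB

end L2

open L2 in
/-- PH-L2: from the gradient estimate to the `L²` decay. -/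
theorem decay {C : ℝ} (hC : 0 < C) : ∃ C' : ℝ, 0 < C' ∧ ∀ (z : ℂ) (R : ℝ) (F : ℂ → ℂ), 0 < R →
    ContinuousOn F (ball z R) → IntegrableOn (fun x => ‖F x‖ ^ 2) (ball z R) →
    (∀ (c0 x : ℂ) (r O : ℝ), 0 < r → 0 < O → closedBall x r ⊆ ball z R →
      (∀ y ∈ closedBall x r, ‖F y - c0‖ ≤ O) →
      ∀ y1 ∈ ball x (r / 2), ∀ y2 ∈ ball x (r / 2), ‖F y1 - F y2‖ ≤ C * O / r * ‖y1 - y2‖) →
    ∀ θ : ℝ, 0 < θ → θ ≤ 1 → osc F z (θ * R) ≤ C' * θ * osc F z R := by
  obtain ⟨κ, hκ⟩ : ∃ κ, κ = min (1 / 2 : ℝ) (1 / (4 * C)) := ⟨_, rfl⟩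
  have hκ0 : 0 < κ := by rw [hκ]; positivity
  have hκ1 : κ ≤ 1 / 2 := hκ ▸ min_le_left _ _
  have hκ2 : C * κ ≤ 1 / 4 := by
    have : κ ≤ 1 / (4 * C) := hκ ▸ min_le_right _ _
    calc C * κ ≤ C * (1 / (4 * C)) := by gcongr
      _ = 1 / 4 := by field_simp
  refine ⟨32 * C / κ + 16, by positivity, ?_⟩
  intro z R F hR hF h2 hyp θ hθ hθ1
  obtain ⟨D, hD⟩ : ∃ D, D = osc F z R := ⟨_, rfl⟩
  have hD0 : 0 ≤ D := hD ▸ osc_nonneg _ _ _
  rw [← hD]
  obtain ⟨c0, hc0⟩ : ∃ c0, c0 = ⨍ x in ball z R, F x := ⟨_, rfl⟩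
  have hDsq : D ^ 2 * (Real.pi * R ^ 2) = ∫ y in ball z R, ‖F y - c0‖ ^ 2 := by
    rw [hD, hc0]; exact osc_sq F z hR
  have hmeas : AEStronglyMeasurable F (volume.restrict (ball z R)) :=
    hF.aestronglyMeasurable measurableSet_ball
  have hint0 : IntegrableOn (fun x => ‖F x - c0‖ ^ 2) (ball z R) :=
    int_sub measure_ball_lt_top.ne hmeas h2 c0
  -- step (a)
  have hb : ∀ x ∈ closedBall z (R / 2), ‖F x - c0‖ ≤ 16 * D / κ := by
    have hKsub : closedBall z (3 * R / 4) ⊆ ball z R := closedBall_subset_ball (by linarith)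
    obtain ⟨x0, hx0, hmax⟩ := (isCompact_closedBall z (3 * R / 4)).exists_isMaxOn
      (f := fun x => (3 * R / 4 - ‖x - z‖) * ‖F x - c0‖) ⟨z, by simp; positivity⟩
      (((continuous_const.sub (continuous_id.sub continuous_const).norm).continuousOn).mul
        ((hF.mono hKsub).sub continuousOn_const).norm)
    have hmax' : ∀ x ∈ closedBall z (3 * R / 4), (3 * R / 4 - ‖x - z‖) * ‖F x - c0‖ ≤
      (3 * R / 4 - ‖x0 - z‖) * ‖F x0 - c0‖ := fun x hx => hmax hx
    obtain ⟨ρ, hρ⟩ : ∃ ρ, ρ = 3 * R / 4 - ‖x0 - z‖ := ⟨_, rfl⟩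
    obtain ⟨a, ha⟩ : ∃ a, a = ‖F x0 - c0‖ := ⟨_, rfl⟩
    rw [← hρ, ← ha] at hmax'
    have hx0' : ‖x0 - z‖ ≤ 3 * R / 4 := by simpa [dist_eq_norm] using hx0
    have hρ0 : 0 ≤ ρ := by rw [hρ]; linarith
    have ha0 : 0 ≤ a := by rw [ha]; positivity
    have hM : κ * (ρ * a) ≤ 4 * R * D := by
      rcases hρ0.eq_or_lt with h0 | hρ0
      · rw [← h0]; simp; positivity
      rcases ha0.eq_or_lt with h0 | ha0
      · rw [← h0]; simp; positivity
      have hsub : closedBall x0 (ρ / 2) ⊆ closedBall z (3 * R / 4) := by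
        intro y hy
        have hy' : ‖y - x0‖ ≤ ρ / 2 := by simpa [dist_eq_norm] using hy
        have : ‖y - z‖ ≤ ‖y - x0‖ + ‖x0 - z‖ := by
          simpa using norm_add_le (y - x0) (x0 - z)
        rw [mem_closedBall, dist_eq_norm]
        linarith
      have hlip := hyp c0 x0 (ρ / 2) (2 * a) (by positivity) (by positivity)
        (hsub.trans hKsub) (by
          intro y hy
          have hy' : ‖y - x0‖ ≤ ρ / 2 := by simpa [dist_eq_norm] using hy
          have h3 : ‖y - z‖ ≤ ‖y - x0‖ + ‖x0 - z‖ := by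
            simpa using norm_add_le (y - x0) (x0 - z)
          have h4 := hmax' y (hsub hy)
          have h5 : ρ / 2 * ‖F y - c0‖ ≤ ρ * a := by
            refine le_trans ?_ h4
            apply mul_le_mul_of_nonneg_right _ (norm_nonneg _)
            linarith
          have h6 : ρ * (‖F y - c0‖) ≤ ρ * (2 * a) := by linarith
          exact le_of_mul_le_mul_left h6 hρ0)
      have hsub2 : ball x0 (κ * (ρ / 2)) ⊆ ball x0 (ρ / 2 / 2) := by
        apply ball_subset_ball
        nlinarith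
      have hlow : ∀ y ∈ ball x0 (κ * (ρ / 2)), a / 2 ≤ ‖F y - c0‖ := by
        intro y hy
        have h3 := hlip y (hsub2 hy) x0 (by simp; positivity)
        have hy' : ‖y - x0‖ < κ * (ρ / 2) := by simpa [dist_eq_norm] using hy
        have h4 : ‖F y - F x0‖ ≤ a / 2 := by
          calc ‖F y - F x0‖ ≤ C * (2 * a) / (ρ / 2) * ‖y - x0‖ := h3
            _ ≤ C * (2 * a) / (ρ / 2) * (κ * (ρ / 2)) := by gcongr
            _ = 2 * a * (C * κ) := by field_simp
            _ ≤ 2 * a * (1 / 4) := by gcongr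
            _ = a / 2 := by ring
        have h5 : a ≤ ‖F y - F x0‖ + ‖F y - c0‖ := by
          rw [ha]
          calc ‖F x0 - c0‖ = ‖(F y - c0) - (F y - F x0)‖ := by congr 1; ring
            _ ≤ ‖F y - c0‖ + ‖F y - F x0‖ := norm_sub_le _ _
            _ = _ := add_comm _ _
        linarith
      have hsub3 : ball x0 (κ * (ρ / 2)) ⊆ ball z R :=
        (hsub2.trans ((ball_subset_ball (by linarith)).trans ball_subset_closedBall)).trans
          (hsub.trans hKsub)
      have h7 : (a / 2) ^ 2 * (Real.pi * (κ * (ρ / 2)) ^ 2) ≤ ∫ y in ball z R, ‖F y - c0‖ ^ 2 := by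
        calc (a / 2) ^ 2 * (Real.pi * (κ * (ρ / 2)) ^ 2)
            = ∫ y in ball x0 (κ * (ρ / 2)), (a / 2) ^ 2 := by
              rw [setIntegral_const, vol_ball x0 (by positivity), smul_eq_mul, mul_comm]
          _ ≤ ∫ y in ball x0 (κ * (ρ / 2)), ‖F y - c0‖ ^ 2 := by
              apply setIntegral_mono_on (integrableOn_const measure_ball_lt_top.ne)
                (hint0.mono_set hsub3) measurableSet_ball
              intro y hy
              have := hlow y hy
              gcongr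
          _ ≤ ∫ y in ball z R, ‖F y - c0‖ ^ 2 :=
              setIntegral_mono_set hint0 (Eventually.of_forall fun y => by positivity)
                hsub3.eventuallyLE
      rw [← hDsq] at h7
      have h8 : (κ * (ρ * a)) ^ 2 ≤ (4 * R * D) ^ 2 := by
        have h9 : Real.pi * (κ * (ρ * a)) ^ 2 ≤ Real.pi * (4 * R * D) ^ 2 := by nlinarith
        exact le_of_mul_le_mul_left h9 Real.pi_pos
      exact le_of_sq_le_sq h8 (by positivity)
    intro x hx
    have hx' : ‖x - z‖ ≤ R / 2 := by simpa [dist_eq_norm] using hx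
    have h3 := hmax' x (closedBall_subset_closedBall (by linarith) hx)
    rw [le_div_iff₀ hκ0]
    have h4 : R / 4 * ‖F x - c0‖ ≤ ρ * a := by
      refine le_trans ?_ h3
      apply mul_le_mul_of_nonneg_right _ (norm_nonneg _)
      linarith
    have h5 : κ * (R / 4 * ‖F x - c0‖) ≤ 4 * R * D :=
      (mul_le_mul_of_nonneg_left h4 hκ0.le).trans hM
    have h6 : R * (‖F x - c0‖ * κ) ≤ R * (16 * D) := by linarith
    exact le_of_mul_le_mul_left h6 hR
  rcases le_or_gt θ (1 / 4) with h4 | h4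
  · -- Lipschitz
    have hlip : ∀ y ∈ ball z (θ * R), ‖F y - F z‖ ≤ 32 * C / κ * θ * D := by
      intro y hy
      have hy' : ‖y - z‖ < θ * R := by simpa [dist_eq_norm] using hy
      have hy2 : y ∈ ball z (R / 2 / 2) := by
        rw [mem_ball, dist_eq_norm]
        nlinarith
      refine le_of_forall_pos_le_add fun δ hδ => ?_
      have h5 := hyp c0 z (R / 2) (16 * D / κ + δ / (2 * C)) (by positivity) (by positivity)
        (closedBall_subset_ball (by linarith)) (fun y hy => (hb y hy).trans (by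
          have : 0 < δ / (2 * C) := by positivity
          linarith)) y hy2 z (by simp; positivity)
      calc ‖F y - F z‖ ≤ C * (16 * D / κ + δ / (2 * C)) / (R / 2) * ‖y - z‖ := h5
        _ ≤ C * (16 * D / κ + δ / (2 * C)) / (R / 2) * (θ * R) := by gcongr
        _ = 32 * C / κ * θ * D + δ * θ := by field_simp; ring
        _ ≤ 32 * C / κ * θ * D + δ := by nlinarith
    have hB : 0 ≤ 32 * C / κ * θ * D := by positivity
    have hsub : ball z (θ * R) ⊆ ball z R := ball_subset_ball (by nlinarith)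
    have hm' : AEStronglyMeasurable F (volume.restrict (ball z (θ * R))) :=
      (hF.mono hsub).aestronglyMeasurable measurableSet_ball
    have h6 : osc F z (θ * R) ≤ 32 * C / κ * θ * D := by
      apply osc_le (by positivity) hB hm' (h2.mono_set hsub) (F z)
      calc ∫ y in ball z (θ * R), ‖F y - F z‖ ^ 2
          ≤ ∫ y in ball z (θ * R), (32 * C / κ * θ * D) ^ 2 := by
            apply setIntegral_mono_on (int_sub measure_ball_lt_top.ne hm' (h2.mono_set hsub) _)
              (integrableOn_const measure_ball_lt_top.ne) measurableSet_ball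
            intro y hy
            have := hlip y hy
            gcongr
        _ = (32 * C / κ * θ * D) ^ 2 * (Real.pi * (θ * R) ^ 2) := by
            rw [setIntegral_const, vol_ball z (by positivity), smul_eq_mul, mul_comm]
    refine h6.trans ?_
    have : 0 ≤ 16 * θ * D := by positivity
    linarith
  · have hsub : ball z (θ * R) ⊆ ball z R := ball_subset_ball (by nlinarith)
    have hm' : AEStronglyMeasurable F (volume.restrict (ball z (θ * R))) :=
      (hF.mono hsub).aestronglyMeasurable measurableSet_ball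
    have h6 : osc F z (θ * R) ≤ D / θ := by
      apply osc_le (by positivity) (by positivity) hm' (h2.mono_set hsub) c0
      calc ∫ y in ball z (θ * R), ‖F y - c0‖ ^ 2
          ≤ ∫ y in ball z R, ‖F y - c0‖ ^ 2 :=
            setIntegral_mono_set hint0 (Eventually.of_forall fun y => by positivity)
                hsub.eventuallyLE
        _ = D ^ 2 * (Real.pi * R ^ 2) := hDsq.symm
        _ = (D / θ) ^ 2 * (Real.pi * (θ * R) ^ 2) := by field_simp
    refine h6.trans ?_
    rw [div_le_iff₀ hθ]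
    have h7 : 0 ≤ 32 * C / κ := by positivity
    have h8 : 1 ≤ 16 * (θ * θ) := by nlinarith
    calc D = 1 * D := (one_mul _).symm
      _ ≤ (16 * (θ * θ)) * D := by gcongr
      _ ≤ (32 * C / κ + 16) * (θ * θ) * D := by
        gcongr
        linarith
      _ = (32 * C / κ + 16) * θ * D * θ := by ring

end Pool.Agent.H74.PH
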