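import Pool.Agent.H74.PH.Defs

set_option autoImplicit false

open Complex MeasureTheory Set Filter Topology Metric
open scoped ContDiff RealInnerProductSpace

namespace Pool.Agent.H74.PH

theorem lip_zero {F : ℂ → ℂ} {s : Set ℂ} (hs : Convex ℝ s) (hF : ContinuousOn F s)
    {L : ℝ} (hL : 0 ≤ L) (hd : ∀ z ∈ s, F z ≠ 0 → DifferentiableAt ℝ F z ∧ ‖fderiv ℝ F z‖ ≤ L)
    {x z : ℂ} (hx : x ∈ s) (hz : z ∈ s) (h0 : F z = 0) : ‖F x‖ ≤ L * ‖x - z‖ := by
  by_cases hx0 : F x = 0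
  · rw [hx0, norm_zero]; positivity
  set γ : ℝ → ℂ := fun t => x + t • (z - x) with hγ
  have hγc : Continuous γ := by fun_prop
  have hγs : ∀ t ∈ Icc (0 : ℝ) 1, γ t ∈ s := fun t ht => hs.segment_subset hx hz (by
     rw [segment_eq_image']; exact ⟨t, ht, rfl⟩)
  have hc : ContinuousOn (fun t => F (γ t)) (Icc 0 1) := hF.comp hγc.continuousOn hγs
  set Z : Set ℝ := Icc 0 1 ∩ (fun t => F (γ t)) ⁻¹' {0} with hZ
  have hZcl : IsClosed Z := hc.preimage_isClosed_of_isClosed isClosed_Icc isClosed_singleton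
  have hZc : IsCompact Z := isCompact_Icc.of_isClosed_subset hZcl inter_subset_left
  have hZ1 : (1 : ℝ) ∈ Z := by
    refine ⟨⟨zero_le_one, le_rfl⟩, ?_⟩
    show F (x + (1 : ℝ) • (z - x)) = 0
    rw [one_smul, add_sub_cancel, h0]
  obtain ⟨t1, ht1, hmin⟩ := hZc.exists_isLeast ⟨1, hZ1⟩
  have ht1pos : 0 < t1 := by
    refine lt_of_le_of_ne ht1.1.1 ?_
    rintro rfl
    have : F (x + (0 : ℝ) • (z - x)) = 0 := ht1.2
    rw [zero_smul, add_zero] at this
    exact hx0 this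
  have key : ∀ t ∈ Ico 0 t1, ‖F (γ t) - F x‖ ≤ L * ‖γ t - x‖ := by
    intro t ht
    have hne : ∀ w ∈ segment ℝ x (γ t), w ∈ s ∧ F w ≠ 0 := by
      intro w hw
      rw [segment_eq_image'] at hw
      obtain ⟨u, hu, rfl⟩ := hw
      have hut : x + u • (γ t - x) = γ (u * t) := by
        simp only [hγ]
        rw [add_sub_cancel_left, smul_smul]
      have hm : u * t ∈ Icc (0 : ℝ) 1 :=
        ⟨mul_nonneg hu.1 ht.1, mul_le_one₀ hu.2 ht.1 (ht.2.le.trans ht1.1.2)⟩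
      show x + u • (γ t - x) ∈ s ∧ F (x + u • (γ t - x)) ≠ 0
      rw [hut]
      refine ⟨hγs _ hm, fun h => ?_⟩
      have h1 : t1 ≤ u * t := hmin ⟨hm, h⟩
      have h2 : u * t ≤ t := mul_le_of_le_one_left ht.1 hu.2
      exact absurd ht.2 (not_lt.2 (h1.trans h2))
    exact Convex.norm_image_sub_le_of_norm_fderiv_le (𝕜 := ℝ)
      (fun w hw => (hd w (hne w hw).1 (hne w hw).2).1)
      (fun w hw => (hd w (hne w hw).1 (hne w hw).2).2) (convex_segment x (γ t))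
      (left_mem_segment ℝ x (γ t)) (right_mem_segment ℝ x (γ t))
  have hsub : Ico 0 t1 ⊆ Icc (0 : ℝ) 1 := fun t ht => ⟨ht.1, ht.2.le.trans ht1.1.2⟩
  have hlim : ‖F (γ t1) - F x‖ ≤ L * ‖γ t1 - x‖ := by
    refine ContinuousWithinAt.closure_le (s := Ico 0 t1) (f := fun t => ‖F (γ t) - F x‖)
      (g := fun t => L * ‖γ t - x‖) ?_ ?_ ?_ key
    · rw [closure_Ico ht1pos.ne]
      exact ⟨ht1pos.le, le_rfl⟩
    · have h1 : ContinuousWithinAt (fun t => F (γ t)) (Ico 0 t1) t1 :=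
        (hc t1 ht1.1).mono hsub
      exact (h1.sub continuousWithinAt_const).norm
    · exact (by fun_prop : Continuous fun t => L * ‖γ t - x‖).continuousWithinAt
  have hz1 : F (γ t1) = 0 := ht1.2
  rw [hz1, zero_sub, norm_neg] at hlim
  refine hlim.trans (mul_le_mul_of_nonneg_left ?_ hL)
  simp only [hγ]
  rw [add_sub_cancel_left, norm_smul, Real.norm_eq_abs, abs_of_pos ht1pos, norm_sub_rev x z]
  exact mul_le_of_le_one_left (norm_nonneg _) ht1.1.2

/-- PH-LIPSEG: a gradient bound off the zeros gives a Lipschitz bound. -/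
theorem lip_seg {F : ℂ → ℂ} {s : Set ℂ} (hs : Convex ℝ s) (ho : IsOpen s) (hF : ContinuousOn F s)
    {L : ℝ} (hL : 0 ≤ L) (hd : ∀ z ∈ s, F z ≠ 0 → DifferentiableAt ℝ F z ∧ ‖fderiv ℝ F z‖ ≤ L)
    {x y : ℂ} (hx : x ∈ s) (hy : y ∈ s) : ‖F x - F y‖ ≤ L * ‖x - y‖ := by
  have hseg : segment ℝ x y ⊆ s := hs.segment_subset hx hy
  by_cases h : ∃ z ∈ segment ℝ x y, F z = 0
  · obtain ⟨z, hz, h0⟩ := h
    have h1 := lip_zero hs hF hL hd hx (hseg hz) h0
    have h2 := lip_zero hs hF hL hd hy (hseg hz) h0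
    have h3 : dist x z + dist z y = dist x y := dist_add_dist_of_mem_segment hz
    rw [dist_eq_norm, dist_eq_norm, dist_eq_norm, norm_sub_rev z y] at h3
    calc ‖F x - F y‖ ≤ ‖F x‖ + ‖F y‖ := norm_sub_le _ _
      _ ≤ L * ‖x - z‖ + L * ‖y - z‖ := add_le_add h1 h2
      _ = L * ‖x - y‖ := by rw [← mul_add, h3]
  · push Not at h
    exact Convex.norm_image_sub_le_of_norm_fderiv_le (𝕜 := ℝ)
      (fun w hw => (hd w (hseg hw) (h w hw)).1)
      (fun w hw => (hd w (hseg hw) (h w hw)).2) (convex_segment x y)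
      (right_mem_segment ℝ x y) (left_mem_segment ℝ x y)

end Pool.Agent.H74.PH
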