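import Pool.Agent.H74.PH.Defs

/-! # Project PH, stub SIG -/

set_option autoImplicit false

open Complex MeasureTheory Set Filter Topology Metric
open scoped ContDiff RealInnerProductSpace

namespace Pool.Agent.H74.PH

/-- derivative of `|g|^q g` -/
theorem sig_hasFDerivAt {q : ℝ} {g : ℂ → ℂ} {g' : ℂ →L[ℝ] ℂ} {z : ℂ} (hg : HasFDerivAt g g' z)
    (h0 : g z ≠ 0) : HasFDerivAt (fun z => ‖g z‖ ^ q • g z)
      (‖g z‖ ^ q • g' + ((q * ‖g z‖ ^ (q - 2)) • ((innerSL ℝ (g z)).comp g')).smulRight (g z)) z := by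
  have hn : 0 < ‖g z‖ := norm_pos_iff.2 h0
  have e : ∀ r : ℝ, 0 ≤ r → r ^ q = (r ^ 2) ^ (q / 2) := by
    intro r hr
    rw [← Real.rpow_natCast, ← Real.rpow_mul hr]
    congr 1
    push_cast
    ring
  have h1 : HasFDerivAt (fun ξ : ℂ => ‖ξ‖ ^ 2) (2 • innerSL ℝ (g z)) (g z) :=
    (hasStrictFDerivAt_norm_sq (g z)).hasFDerivAt
  have h2 := h1.comp z hg
  have h3 := h2.rpow_const (p := q / 2) (Or.inl (by simp only [Function.comp]; positivity))
  have h4 : HasFDerivAt (fun z => ‖g z‖ ^ q) ((q * ‖g z‖ ^ (q - 2)) • ((innerSL ℝ (g z)).comp g')) z := by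
    refine (h3.congr_of_eventuallyEq (Eventually.of_forall fun x => ?_)).congr_fderiv ?_
    · exact e _ (norm_nonneg _)
    · ext x
      simp only [Function.comp, smul_apply, ContinuousLinearMap.comp_apply,
        smul_eq_mul]
      have h5 : (‖g z‖ ^ 2) ^ (q / 2 - 1) = ‖g z‖ ^ (q - 2) := by
        rw [← Real.rpow_natCast, ← Real.rpow_mul hn.le]
        congr 1
        push_cast
        ring
      rw [h5]
      simp only [nsmul_eq_mul]
      push_cast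
      ring
  exact h4.smul hg

theorem sig_bounds {K : ℝ} (hK : 0 < K) : ∃ C : ℝ, 0 < C ∧ ∀ (Ω : Set ℂ) (g : ℂ → ℂ),
    PGrad K Ω g → ∀ z ∈ Ω, g z ≠ 0 →
      DifferentiableAt ℝ (fun z => V (K + 1) (g z)) z ∧
      sig K g z ≤ C * ‖fderiv ℝ (fun z => V (K + 1) (g z)) z‖ ∧
      ‖fderiv ℝ (fun z => V (K + 1) (g z)) z‖ ≤ C * sig K g z := by
  refine ⟨3 + 2 * K, by positivity, fun Ω g hP z hz h0 => ?_⟩
  obtain ⟨q, hq⟩ : ∃ q : ℝ, q = (K - 1) / 2 := ⟨_, rfl⟩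
  have hV : (fun z => V (K + 1) (g z)) = fun z => ‖g z‖ ^ q • g z := by
    funext x
    unfold V
    congr 2
    rw [hq]
    ring
  rw [hV]
  have hg : HasFDerivAt g (fderiv ℝ g z) z :=
    ((hP.smooth z hz h0).differentiableAt (by norm_num)).hasFDerivAt
  have hF := sig_hasFDerivAt (q := q) hg h0
  refine ⟨hF.differentiableAt, ?_⟩
  rw [hF.fderiv]
  obtain ⟨F', hF'⟩ : ∃ F' : ℂ →L[ℝ] ℂ, F' = ‖g z‖ ^ q • fderiv ℝ g z +
    ((q * ‖g z‖ ^ (q - 2)) • ((innerSL ℝ (g z)).comp (fderiv ℝ g z))).smulRight (g z) := ⟨_, rfl⟩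
  rw [← hF']
  have hn : 0 < ‖g z‖ := norm_pos_iff.2 h0
  obtain ⟨α, hα⟩ : ∃ α : ℝ, α = (S g z).re := ⟨_, rfl⟩
  obtain ⟨β, hβ⟩ : ∃ β : ℝ, β = (S g z).im := ⟨_, rfl⟩
  -- the value of the derivative
  have hval : ∀ s r : ℝ, F' ((s + r * I) * g z) =
      ((‖g z‖ ^ q : ℝ) : ℂ) * (((1 + q) * (α * s + β * r) : ℝ) + ((β * s - K * α * r : ℝ) : ℂ) * I) * g z := by
    intro s r
    have h1 := hP.eq z hz h0 s r
    rw [← hα, ← hβ] at h1
    rw [hF']
    simp only [add_apply, smul_apply,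
      ContinuousLinearMap.smulRight_apply, ContinuousLinearMap.comp_apply, innerSL_apply_apply, h1]
    have h2 : ⟪g z, (((α * s + β * r : ℝ) : ℂ) + ((β * s - K * α * r : ℝ) : ℂ) * I) * g z⟫ =
        (α * s + β * r) * ‖g z‖ ^ 2 := by
      rw [Complex.inner]
      have h3 : ((((α * s + β * r : ℝ) : ℂ) + ((β * s - K * α * r : ℝ) : ℂ) * I) * g z) * (starRingEnd ℂ) (g z) =
          (((α * s + β * r : ℝ) : ℂ) + ((β * s - K * α * r : ℝ) : ℂ) * I) * ((‖g z‖ ^ 2 : ℝ) : ℂ) := by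
        rw [← Complex.normSq_eq_norm_sq, ← Complex.mul_conj]
        ring
      rw [h3, Complex.re_mul_ofReal]
      simp
    rw [h2]
    have h4 : q * ‖g z‖ ^ (q - 2) * ((α * s + β * r) * ‖g z‖ ^ 2) = q * (α * s + β * r) * ‖g z‖ ^ q := by
      have h5 : ‖g z‖ ^ (q - 2) * ‖g z‖ ^ 2 = ‖g z‖ ^ q := by
        rw [← Real.rpow_natCast, ← Real.rpow_add hn]
        congr 1
        push_cast
        ring
      calc _ = q * (α * s + β * r) * (‖g z‖ ^ (q - 2) * ‖g z‖ ^ 2) := by ring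
        _ = _ := by rw [h5]
    rw [smul_eq_mul, h4]
    simp only [Complex.real_smul]
    push_cast
    ring
  have hS : ‖S g z‖ = √(α ^ 2 + β ^ 2) := by
    rw [Complex.norm_def, Complex.normSq_apply, hα, hβ]
    congr 1
    ring
  have hsig : sig K g z = ‖g z‖ ^ q * √(α ^ 2 + β ^ 2) := by
    rw [sig, hS, hq]
  have hnq : 0 < ‖g z‖ ^ q := Real.rpow_pos_of_pos hn _
  have hαn : |α| ≤ √(α ^ 2 + β ^ 2) := Real.abs_le_sqrt (by nlinarith [sq_nonneg β])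
  have hβn : |β| ≤ √(α ^ 2 + β ^ 2) := Real.abs_le_sqrt (by nlinarith [sq_nonneg α])
  obtain ⟨T, hT⟩ : ∃ T : ℝ, T = √(α ^ 2 + β ^ 2) := ⟨_, rfl⟩
  rw [hsig]
  rw [← hT] at hαn hβn ⊢
  have hT0 : 0 ≤ T := by rw [hT]; positivity
  have hq1 : 1 + q = (K + 1) / 2 := by rw [hq]; ring
  constructor
  · -- lower bound
    have h1 := F'.le_opNorm (g z)
    have h2 : F' (g z) = ((‖g z‖ ^ q : ℝ) : ℂ) * (((1 + q) * α : ℝ) + (β : ℂ) * I) * g z := by
      have := hval 1 0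
      simp only [Complex.ofReal_one, Complex.ofReal_zero, zero_mul, add_zero, one_mul, mul_one, mul_zero,
        sub_zero] at this
      exact this
    have h3 : ‖(((1 + q) * α : ℝ) : ℂ) + (β : ℂ) * I‖ = √(((1 + q) * α) ^ 2 + β ^ 2) := by
      rw [Complex.norm_add_mul_I]
    have h4 : T / 2 ≤ √(((1 + q) * α) ^ 2 + β ^ 2) := by
      apply Real.le_sqrt_of_sq_le
      rw [div_pow, hT, Real.sq_sqrt (by positivity), hq1]
      nlinarith [sq_nonneg α, sq_nonneg β, mul_nonneg hK.le (sq_nonneg α), sq_nonneg (K * α)]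
    rw [h2, norm_mul, norm_mul, h3, Complex.norm_real, Real.norm_eq_abs, abs_of_pos hnq] at h1
    have h5 : ‖g z‖ ^ q * √(((1 + q) * α) ^ 2 + β ^ 2) ≤ ‖F'‖ := le_of_mul_le_mul_right h1 hn
    have h6 : ‖g z‖ ^ q * (T / 2) ≤ ‖F'‖ := (mul_le_mul_of_nonneg_left h4 hnq.le).trans h5
    have h7 : 0 ≤ ‖F'‖ := norm_nonneg _
    nlinarith [mul_nonneg hK.le h7]
  · -- upper bound
    refine F'.opNorm_le_bound (by positivity) fun h => ?_
    obtain ⟨s, hs⟩ : ∃ s : ℝ, s = (h / g z).re := ⟨_, rfl⟩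
    obtain ⟨r, hr⟩ : ∃ r : ℝ, r = (h / g z).im := ⟨_, rfl⟩
    have h1 : h = (s + r * I) * g z := by
      rw [hs, hr, Complex.re_add_im]
      field_simp
    have h2 : ‖h‖ = √(s ^ 2 + r ^ 2) * ‖g z‖ := by
      conv_lhs => rw [h1]
      rw [norm_mul, Complex.norm_add_mul_I]
    have hval' := hval s r
    rw [← h1] at hval'
    rw [hval', norm_mul, norm_mul, Complex.norm_real, Real.norm_eq_abs, abs_of_pos hnq, h2]
    obtain ⟨ρ, hρ⟩ : ∃ ρ : ℝ, ρ = √(s ^ 2 + r ^ 2) := ⟨_, rfl⟩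
    have hρ0 : 0 ≤ ρ := by rw [hρ]; positivity
    have hsρ : |s| ≤ ρ := by rw [hρ]; exact Real.abs_le_sqrt (by nlinarith [sq_nonneg r])
    have hrρ : |r| ≤ ρ := by rw [hρ]; exact Real.abs_le_sqrt (by nlinarith [sq_nonneg s])
    rw [← hρ]
    have h3 : ‖(((1 + q) * (α * s + β * r) : ℝ) : ℂ) + ((β * s - K * α * r : ℝ) : ℂ) * I‖ ≤
        (3 + 2 * K) * T * ρ := by
      refine (norm_add_le _ _).trans ?_
      rw [norm_mul, Complex.norm_real, Complex.norm_real, Complex.norm_I, mul_one, Real.norm_eq_abs,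
        Real.norm_eq_abs, hq1]
      have e1 : |α * s| ≤ T * ρ := by rw [abs_mul]; exact mul_le_mul hαn hsρ (abs_nonneg _) hT0
      have e2 : |β * r| ≤ T * ρ := by rw [abs_mul]; exact mul_le_mul hβn hrρ (abs_nonneg _) hT0
      have e3 : |β * s| ≤ T * ρ := by rw [abs_mul]; exact mul_le_mul hβn hsρ (abs_nonneg _) hT0
      have e4 : |α * r| ≤ T * ρ := by rw [abs_mul]; exact mul_le_mul hαn hrρ (abs_nonneg _) hT0
      have e5 : |(K + 1) / 2 * (α * s + β * r)| ≤ (K + 1) / 2 * (2 * (T * ρ)) := by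
        rw [abs_mul, abs_of_pos (by positivity : 0 < (K + 1) / 2)]
        refine mul_le_mul_of_nonneg_left ((abs_add_le _ _).trans ?_) (by positivity)
        linarith
      have e6 : |β * s - K * α * r| ≤ T * ρ + K * (T * ρ) := by
        refine (abs_sub _ _).trans (add_le_add e3 ?_)
        rw [mul_assoc, abs_mul, abs_of_pos hK]
        exact mul_le_mul_of_nonneg_left e4 hK.le
      have e7 : 0 ≤ T * ρ := mul_nonneg hT0 hρ0
      have e8 : 0 ≤ K * (T * ρ) := mul_nonneg hK.le e7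
      nlinarith
    calc ‖g z‖ ^ q * ‖(((1 + q) * (α * s + β * r) : ℝ) : ℂ) + ((β * s - K * α * r : ℝ) : ℂ) * I‖ * ‖g z‖
        ≤ ‖g z‖ ^ q * ((3 + 2 * K) * T * ρ) * ‖g z‖ :=
          mul_le_mul_of_nonneg_right (mul_le_mul_of_nonneg_left h3 hnq.le) hn.le
      _ = _ := by ring

end Pool.Agent.H74.PH
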