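import Pool.Agent.H74.PH.Defs

set_option autoImplicit false

open Complex MeasureTheory Set Filter Topology Metric
open scoped ContDiff RealInnerProductSpace

namespace Pool.Agent.H74.PH

namespace WeakH

theorem grad_eq (u : ℂ → ℝ) (z : ℂ) :
    grad u z = (fderiv ℝ u z 1 : ℂ) + (fderiv ℝ u z I : ℂ) * I := by
  unfold grad
  rw [mk_eq_add_mul_I]

theorem grad_smooth {u : ℂ → ℝ} {z : ℂ} (h : ContDiffAt ℝ 4 u z) : ContDiffAt ℝ 3 (grad u) z := by
  have h1 : ContDiffAt ℝ 3 (fderiv ℝ u) z := h.fderiv_right (by norm_num)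
  have hof : ContDiff ℝ 3 (fun x : ℝ => (x : ℂ)) := ofRealCLM.contDiff
  have e : grad u = fun z => (fderiv ℝ u z 1 : ℂ) + (fderiv ℝ u z I : ℂ) * I := by
    funext z
    exact grad_eq u z
  rw [e]
  exact (hof.contDiffAt.comp z (h1.clm_apply contDiffAt_const)).add
    ((hof.contDiffAt.comp z (h1.clm_apply contDiffAt_const)).mul contDiffAt_const)

theorem grad_fderiv {u : ℂ → ℝ} {z : ℂ} (h : ContDiffAt ℝ 4 u z) (v : ℂ) :
    fderiv ℝ (grad u) z v = (fderiv ℝ (fderiv ℝ u) z v 1 : ℂ) +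
      (fderiv ℝ (fderiv ℝ u) z v I : ℂ) * I := by
  have h1 : ContDiffAt ℝ 3 (fderiv ℝ u) z := h.fderiv_right (by norm_num)
  have h2 := (h1.differentiableAt (by norm_num)).hasFDerivAt
  have h3 : ∀ w : ℂ, HasFDerivAt (fun x => (fderiv ℝ u x w : ℂ))
      (ofRealCLM.comp ((ContinuousLinearMap.apply ℝ ℝ w).comp (fderiv ℝ (fderiv ℝ u) z))) z := by
    intro w
    exact ofRealCLM.hasFDerivAt.comp z ((ContinuousLinearMap.apply ℝ ℝ w).hasFDerivAt.comp z h2)
  have h4 : HasFDerivAt (fun z => (fderiv ℝ u z 1 : ℂ) + (fderiv ℝ u z I : ℂ) * I) _ z :=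
    (h3 1).add ((h3 I).mul_const I)
  have e : grad u = fun z => (fderiv ℝ u z 1 : ℂ) + (fderiv ℝ u z I : ℂ) * I := by
    funext z
    exact grad_eq u z
  rw [e, h4.fderiv]
  simp
  ring

theorem grad_sym {u : ℂ → ℝ} {z : ℂ} (h : ContDiffAt ℝ 4 u z) :
    (fderiv ℝ (grad u) z 1).im = (fderiv ℝ (grad u) z I).re := by
  have hsym := (h.isSymmSndFDerivAt (by
      rw [minSmoothness_of_isRCLikeNormedField]
      have : (4 : ℕ∞ω) = 2 + 2 := by norm_num
      rw [this]
      exact le_self_add)).eq (1 : ℂ) I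
  rw [grad_fderiv h, grad_fderiv h]
  simp
  exact hsym

/-- the vector field -/
theorem X_fderiv {p : ℝ} {g : ℂ → ℂ} {z : ℂ} (hg : DifferentiableAt ℝ g z) (h0 : g z ≠ 0) :
    ∃ ψ : ℝ, 0 < ψ ∧ ∀ v, fderiv ℝ (fun z => A p (g z)) z v =
      ψ * (((g z).re ^ 2 + (g z).im ^ 2 : ℝ) * fderiv ℝ g z v +
        ((p - 2) * ((g z).re * (fderiv ℝ g z v).re + (g z).im * (fderiv ℝ g z v).im) : ℝ) * g z) := by
  have e : (fun z => A p (g z)) = fun z => ((g z).re ^ 2 + (g z).im ^ 2) ^ ((p - 2) / 2) • g z := by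
    funext z
    unfold A
    congr 1
    have h1 : (g z).re ^ 2 + (g z).im ^ 2 = ‖g z‖ ^ 2 := by
      rw [← Complex.normSq_eq_norm_sq, Complex.normSq_apply]
      ring
    rw [h1, ← Real.rpow_natCast_mul (norm_nonneg _)]
    congr 1
    push_cast
    ring
  obtain ⟨N, hN⟩ : ∃ N : ℝ, N = (g z).re ^ 2 + (g z).im ^ 2 := ⟨_, rfl⟩
  have hN0 : 0 < N := by
    have h1 : (g z).re ^ 2 + (g z).im ^ 2 = ‖g z‖ ^ 2 := by
      rw [← Complex.normSq_eq_norm_sq, Complex.normSq_apply]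
      ring
    rw [hN, h1]
    have := norm_pos_iff.2 h0
    positivity
  have hgd := hg.hasFDerivAt
  have hre : HasFDerivAt (fun z => (g z).re) (reCLM.comp (fderiv ℝ g z)) z :=
    reCLM.hasFDerivAt.comp z hgd
  have him : HasFDerivAt (fun z => (g z).im) (imCLM.comp (fderiv ℝ g z)) z :=
    imCLM.hasFDerivAt.comp z hgd
  have h1 : HasFDerivAt (fun z => (g z).re ^ 2 + (g z).im ^ 2) _ z := (hre.pow 2).add (him.pow 2)
  have h2 := h1.rpow_const (p := (p - 2) / 2) (Or.inl (by rw [← hN]; exact hN0.ne'))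
  have h3 := h2.smul hgd
  refine ⟨N ^ ((p - 2) / 2 - 1), Real.rpow_pos_of_pos hN0 _, fun v => ?_⟩
  have h4 : N ^ ((p - 2) / 2) = N ^ ((p - 2) / 2 - 1) * N := by
    rw [← Real.rpow_add_one hN0.ne']
    congr 1
    ring
  have h5 : HasFDerivAt (fun z => ((g z).re ^ 2 + (g z).im ^ 2) ^ ((p - 2) / 2) • g z) _ z := h3
  rw [e, h5.fderiv, ← hN]
  simp only [ContinuousLinearMap.add_apply, ContinuousLinearMap.smul_apply,
    ContinuousLinearMap.smulRight_apply, ContinuousLinearMap.comp_apply, reCLM_apply,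
    imCLM_apply, smul_eq_mul, real_smul, nsmul_eq_mul]
  rw [h4]
  push_cast
  ring

/-- integrability of products with a function of compact support -/
theorem int_of {G : Set ℂ} (hG : IsOpen G) {h φ : ℂ → ℝ} (hh : ContinuousOn h G)
    (hφ : Continuous φ) (hc : HasCompactSupport φ) (hs : tsupport φ ⊆ G) :
    Integrable (fun x => h x * φ x) := by
  have h1 : tsupport (fun x => h x * φ x) ⊆ tsupport φ := tsupport_mul_subset_right
  have h2 : Continuous (fun x => h x * φ x) :=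
    (hh.mul hφ.continuousOn).continuous_of_tsupport_subset hG (h1.trans hs)
  exact h2.integrable_of_hasCompactSupport hc.mul_left

theorem parts {G : Set ℂ} (hG : IsOpen G) {h φ : ℂ → ℝ} (hh : ContDiffOn ℝ 1 h G)
    (hφ : ContDiff ℝ ∞ φ) (hc : HasCompactSupport φ) (hs : tsupport φ ⊆ G) (v : ℂ) :
    ∫ x, h x * fderiv ℝ φ x v = -∫ x, fderiv ℝ h x v * φ x := by
  have hh' : ContinuousOn (fun x => fderiv ℝ h x v) G :=
    (hh.continuousOn_fderiv_of_isOpen hG le_rfl).clm_apply continuousOn_const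
  have hφ1 : Continuous (fun x => fderiv ℝ φ x v) :=
    (hφ.continuous_fderiv (by simp)).clm_apply continuous_const
  have i1 := int_of hG hh' hφ.continuous hc hs
  have i2 := int_of hG hh.continuousOn hφ1 (hc.fderiv_apply (𝕜 := ℝ) v)
    ((tsupport_fderiv_apply_subset ℝ v).trans hs)
  have i3 := int_of hG hh.continuousOn hφ.continuous hc hs
  have := integral_bilinear_hasLineDerivAt_right_eq_neg_left_of_integrable
    (μ := (volume : Measure ℂ)) (f := h) (f' := fun x => fderiv ℝ h x v) (g := φ)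
    (g' := fun x => fderiv ℝ φ x v) (v := v) (B := ContinuousLinearMap.mul ℝ ℝ)
    (by simpa using i1) (by simpa using i2) (by simpa using i3)
    (fun x hx => ((hh.contDiffAt (hG.mem_nhds (hs hx))).differentiableAt
      (by norm_num)).hasFDerivAt.hasLineDerivAt v)
    (fun x _ => ((hφ.differentiable (by simp)) x).hasFDerivAt.hasLineDerivAt v)
  simpa using this

theorem div_zero {p : ℝ} {Ω : Set ℂ} {u : ℂ → ℝ}
    (hu : IsPHarmonicOn p Ω u) {G : Set ℂ} (hG : IsOpen G) (hGΩ : G ⊆ Ω)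
    (hX : ContDiffOn ℝ 1 (fun z => A p (grad u z)) G) :
    ∀ z ∈ G, (fderiv ℝ (fun z => A p (grad u z)) z 1).re +
      (fderiv ℝ (fun z => A p (grad u z)) z I).im = 0 := by
  obtain ⟨X, hXd⟩ : ∃ X : ℂ → ℂ, X = fun z => A p (grad u z) := ⟨_, rfl⟩
  rw [← hXd] at hX ⊢
  have hXre : ContDiffOn ℝ 1 (fun z => (X z).re) G := reCLM.contDiff.comp_contDiffOn hX
  have hXim : ContDiffOn ℝ 1 (fun z => (X z).im) G := imCLM.contDiff.comp_contDiffOn hX
  have hdre : ∀ z ∈ G, ∀ v, fderiv ℝ (fun z => (X z).re) z v = (fderiv ℝ X z v).re := by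
    intro z hz v
    have h1 := ((hX.contDiffAt (hG.mem_nhds hz)).differentiableAt (by norm_num)).hasFDerivAt
    have h2 : HasFDerivAt (fun z => (X z).re) (reCLM.comp (fderiv ℝ X z)) z :=
      reCLM.hasFDerivAt.comp z h1
    rw [h2.fderiv]
    rfl
  have hdim : ∀ z ∈ G, ∀ v, fderiv ℝ (fun z => (X z).im) z v = (fderiv ℝ X z v).im := by
    intro z hz v
    have h1 := ((hX.contDiffAt (hG.mem_nhds hz)).differentiableAt (by norm_num)).hasFDerivAt
    have h2 : HasFDerivAt (fun z => (X z).im) (imCLM.comp (fderiv ℝ X z)) z :=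
      imCLM.hasFDerivAt.comp z h1
    rw [h2.fderiv]
    rfl
  obtain ⟨d, hd⟩ : ∃ d : ℂ → ℝ, d = fun z => fderiv ℝ (fun z => (X z).re) z 1 +
    fderiv ℝ (fun z => (X z).im) z I := ⟨_, rfl⟩
  have hdc1 : ContinuousOn (fun z => fderiv ℝ (fun z => (X z).re) z 1) G :=
    (hXre.continuousOn_fderiv_of_isOpen hG le_rfl).clm_apply continuousOn_const
  have hdc2 : ContinuousOn (fun z => fderiv ℝ (fun z => (X z).im) z I) G :=
    (hXim.continuousOn_fderiv_of_isOpen hG le_rfl).clm_apply continuousOn_const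
  have hdc : ContinuousOn d G := by
    rw [hd]
    exact hdc1.add hdc2
  have hae : ∀ᵐ x ∂(volume : Measure ℂ), x ∈ G → d x = 0 := by
    refine hG.ae_eq_zero_of_integral_contDiff_smul_eq_zero
      (hdc.locallyIntegrableOn hG.measurableSet) ?_
    intro φ hφ hc hs
    have p1 := parts hG hXre hφ hc hs 1
    have p2 := parts hG hXim hφ hc hs I
    have hw := hu.weak φ hφ hc (hs.trans hGΩ)
    have e1 : ∀ z, ⟪A p (grad u z), grad φ z⟫ =
        (X z).re * fderiv ℝ φ z 1 + (X z).im * fderiv ℝ φ z I := by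
      intro z
      rw [Complex.inner, hXd]
      unfold grad
      simp
      ring
    have hφ1 : ∀ v, Continuous (fun x => fderiv ℝ φ x v) := fun v =>
      (hφ.continuous_fderiv (by simp)).clm_apply continuous_const
    have j1 := int_of hG hXre.continuousOn (hφ1 1) (hc.fderiv_apply (𝕜 := ℝ) 1)
      ((tsupport_fderiv_apply_subset ℝ 1).trans hs)
    have j2 := int_of hG hXim.continuousOn (hφ1 I) (hc.fderiv_apply (𝕜 := ℝ) I)
      ((tsupport_fderiv_apply_subset ℝ I).trans hs)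
    simp only [e1] at hw
    rw [integral_add j1 j2, p1, p2] at hw
    have j3 := int_of hG hdc1 hφ.continuous hc hs
    have j4 := int_of hG hdc2 hφ.continuous hc hs
    have e2 : ∀ x, φ x • d x = fderiv ℝ (fun z => (X z).re) x 1 * φ x +
        fderiv ℝ (fun z => (X z).im) x I * φ x := by
      intro x
      rw [hd, smul_eq_mul]
      ring
    simp only [e2]
    rw [integral_add j3 j4]
    linarith
  have heq : EqOn d (fun _ => 0) G := by
    refine Measure.eqOn_open_of_ae_eq (μ := volume) ?_ hG hdc continuousOn_const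
    rw [Filter.EventuallyEq, ae_restrict_iff' hG.measurableSet]
    exact hae
  intro z hz
  rw [← hdre z hz, ← hdim z hz]
  have := heq hz
  rw [hd] at this
  exact this

end WeakH

open WeakH in
/-- PH-WEAK: from the weak form to the classical equation off the critical set. -/
theorem pgrad_of_weak {p : ℝ} (hp : 1 < p) {Ω : Set ℂ} (hΩ : IsOpen Ω) {u : ℂ → ℝ}
    (hu : IsPHarmonicOn p Ω u) (hs : ∀ z ∈ Ω, grad u z ≠ 0 → ContDiffAt ℝ 4 u z) :
    PGrad (p - 1) Ω (grad u) := by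
  have hcont : ContinuousOn (grad u) Ω := by
    have h1 : ContinuousOn (fderiv ℝ u) Ω := hu.contDiff.continuousOn_fderiv_of_isOpen hΩ le_rfl
    have e : grad u = fun z => (fderiv ℝ u z 1 : ℂ) + (fderiv ℝ u z I : ℂ) * I := by
      funext z
      exact grad_eq u z
    rw [e]
    exact (continuous_ofReal.comp_continuousOn (h1.clm_apply continuousOn_const)).add
      ((continuous_ofReal.comp_continuousOn (h1.clm_apply continuousOn_const)).mul
        continuousOn_const)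
  obtain ⟨G, hGd⟩ : ∃ G : Set ℂ, G = Ω ∩ grad u ⁻¹' {0}ᶜ := ⟨_, rfl⟩
  have hG : IsOpen G := by
    rw [hGd]
    exact hcont.isOpen_inter_preimage hΩ isOpen_compl_singleton
  have hmem : ∀ z, z ∈ G ↔ z ∈ Ω ∧ grad u z ≠ 0 := by
    intro z
    rw [hGd]
    rfl
  have hGs : ∀ z ∈ G, ContDiffAt ℝ 4 u z := fun z hz => hs z ((hmem z).1 hz).1 ((hmem z).1 hz).2
  have hX : ContDiffOn ℝ 1 (fun z => A p (grad u z)) G := by
    intro z hz
    have h0 := ((hmem z).1 hz).2
    have hg3 := grad_smooth (hGs z hz)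
    have h1 : ContDiffAt ℝ 3 (fun z => ‖grad u z‖) z := hg3.norm ℝ h0
    have h2 : ContDiffAt ℝ 3 (fun z => ‖grad u z‖ ^ (p - 2)) z :=
      h1.rpow_const_of_ne (norm_ne_zero_iff.2 h0)
    have h3 : ContDiffAt ℝ 3 (fun z => A p (grad u z)) z := h2.smul hg3
    exact (h3.of_le (by norm_num)).contDiffWithinAt
  have hdiv := div_zero hu hG (fun z hz => ((hmem z).1 hz).1) hX
  refine ⟨hΩ, hcont, fun z hz h0 => grad_smooth (hs z hz h0), fun z hz h0 s r => ?_⟩
  have hzG : z ∈ G := (hmem z).2 ⟨hz, h0⟩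
  have hC := hs z hz h0
  have hsym := grad_sym hC
  have hgd : DifferentiableAt ℝ (grad u) z := (grad_smooth hC).differentiableAt (by norm_num)
  obtain ⟨ψ, hψ, hψ'⟩ := X_fderiv (p := p) hgd h0
  have hd := hdiv z hzG
  rw [hψ', hψ'] at hd
  obtain ⟨g1, hg1⟩ : ∃ g1, g1 = (grad u z).re := ⟨_, rfl⟩
  obtain ⟨g2, hg2⟩ : ∃ g2, g2 = (grad u z).im := ⟨_, rfl⟩
  obtain ⟨h11, hh11⟩ : ∃ h11, h11 = (fderiv ℝ (grad u) z 1).re := ⟨_, rfl⟩
  obtain ⟨h12, hh12⟩ : ∃ h12, h12 = (fderiv ℝ (grad u) z I).re := ⟨_, rfl⟩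
  obtain ⟨h22, hh22⟩ : ∃ h22, h22 = (fderiv ℝ (grad u) z I).im := ⟨_, rfl⟩
  rw [← hh12] at hsym
  have hgz : grad u z = g1 + g2 * I := by rw [hg1, hg2, re_add_im]
  have hd1 : fderiv ℝ (grad u) z 1 = h11 + h12 * I := by rw [hh11, ← hsym, re_add_im]
  have hdI : fderiv ℝ (grad u) z I = h12 + h22 * I := by rw [hh12, hh22, re_add_im]
  have hN : g1 ^ 2 + g2 ^ 2 ≠ 0 := by
    intro h
    apply h0
    have a1 : g1 = 0 := by nlinarith [sq_nonneg g1, sq_nonneg g2]
    have a2 : g2 = 0 := by nlinarith [sq_nonneg g1, sq_nonneg g2]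
    rw [hgz, a1, a2]
    simp
  rw [← hg1, ← hg2, hd1, hdI, hgz] at hd
  -- the classical equation
  have hpde : (g1 ^ 2 + g2 ^ 2) * (h11 + h22) +
      (p - 2) * (g1 ^ 2 * h11 + 2 * g1 * g2 * h12 + g2 ^ 2 * h22) = 0 := by
    apply mul_left_cancel₀ hψ.ne'
    rw [mul_zero, ← hd]
    simp only [re_ofReal_mul, im_ofReal_mul, add_re, add_im, ofReal_re, ofReal_im, mul_re,
      mul_im, I_re, I_im]
    ring
  -- derivatives in all directions
  have hlin : ∀ x y : ℝ, fderiv ℝ (grad u) z (x + y * I) =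
      x * (h11 + h12 * I) + y * (h12 + h22 * I) := by
    intro x y
    have e : ((x : ℂ) + y * I) = x • (1 : ℂ) + y • I := by simp
    rw [e, map_add, map_smul, map_smul, hd1, hdI]
    simp
    ring
  have hS : S (grad u) z = (g1 * (h11 + h12 * I) + g2 * (h12 + h22 * I)) / (g1 + g2 * I) := by
    unfold S
    rw [hgz, hlin]
  have hgne : (g1 : ℂ) + g2 * I ≠ 0 := by rw [← hgz]; exact h0
  obtain ⟨α, hα⟩ : ∃ α, α = (S (grad u) z).re := ⟨_, rfl⟩
  obtain ⟨β, hβ⟩ : ∃ β, β = (S (grad u) z).im := ⟨_, rfl⟩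
  have hSαβ : (α : ℂ) + β * I = (g1 * (h11 + h12 * I) + g2 * (h12 + h22 * I)) /
      (g1 + g2 * I) := by
    rw [hα, hβ, re_add_im, hS]
  have hmul : ((α : ℂ) + β * I) * (g1 + g2 * I) =
      g1 * (h11 + h12 * I) + g2 * (h12 + h22 * I) := by
    rw [hSαβ, div_mul_cancel₀ _ hgne]
  have m1 := congrArg Complex.re hmul
  have m2 := congrArg Complex.im hmul
  simp at m1 m2
  rw [← hα, ← hβ, hgz]
  have e : ((s : ℂ) + r * I) * (g1 + g2 * I) = ((s * g1 - r * g2 : ℝ) : ℂ) +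
      ((s * g2 + r * g1 : ℝ) : ℂ) * I := by
    push_cast
    linear_combination (r * g2 : ℂ) * I_sq
  rw [e, hlin]
  have k1 : (g1 ^ 2 + g2 ^ 2) * (β * g1 + (p - 1) * α * g2) =
      (g1 ^ 2 + g2 ^ 2) * (-g2 * h11 + g1 * h12) := by
    linear_combination (-g1 * g2 + (p - 1) * g2 * g1) * m1 + (g1 ^ 2 + (p - 1) * g2 ^ 2) * m2 +
      g2 * hpde
  have k2 : (g1 ^ 2 + g2 ^ 2) * (β * g2 - (p - 1) * α * g1) =
      (g1 ^ 2 + g2 ^ 2) * (-g2 * h12 + g1 * h22) := by
    linear_combination (-g2 ^ 2 - (p - 1) * g1 ^ 2) * m1 + (g1 * g2 - (p - 1) * g1 * g2) * m2 -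
      g1 * hpde
  have k1' := mul_left_cancel₀ hN k1
  have k2' := mul_left_cancel₀ hN k2
  apply Complex.ext
  · simp
    linear_combination (-s) * m1 - r * k1'
  · simp
    linear_combination (-s) * m2 - r * k2'

end Pool.Agent.H74.PH
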