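import Pool.Agent.H74.PH.MasterF
import Pool.Agent.H74.PH.SIG
import Pool.Agent.H74.PH.LIPSEG
import Pool.Agent.H74.PH.L2
import Pool.Agent.H74.PH.WEAK

/-!
# The gradient estimate for `V(∇u)` in Lipschitz form
-/

set_option autoImplicit false

open Complex MeasureTheory Set Filter Topology Metric
open scoped ContDiff RealInnerProductSpace NNReal

namespace Pool.Agent.H74.PH

/-- `sig` is bounded on compact sets if `V g` is locally Lipschitz. -/
theorem sig_bdd {K : ℝ} (hK : 0 < K) {Ω : Set ℂ} {g : ℂ → ℂ} (hg : PGrad K Ω g)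
    (hL : LocallyLipschitzOn Ω (fun z => V (K + 1) (g z))) {s : Set ℂ} (hs : IsCompact s)
    (hsΩ : s ⊆ Ω) : ∃ L : ℝ, ∀ z ∈ s, sig K g z ≤ L := by
  obtain ⟨C, hC, hC2⟩ := sig_bounds hK
  have h1 : ∀ z ∈ s, ∃ U ∈ 𝓝[s] z, ∃ L : ℝ, ∀ y ∈ U, sig K g y ≤ L := by
    intro z hz
    obtain ⟨L, t, ht, hLt⟩ := hL (hsΩ hz)
    rw [hg.isOpen.nhdsWithin_eq (hsΩ hz)] at ht
    obtain ⟨U, hUt, hUo, hzU⟩ := _root_.mem_nhds_iff.mp ht
    refine ⟨U ∩ Ω, mem_nhdsWithin_of_mem_nhds ((hUo.inter hg.isOpen).mem_nhds ⟨hzU, hsΩ hz⟩),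
      C * L, ?_⟩
    intro y hy
    by_cases h0 : g y = 0
    · have : sig K g y = 0 := by simp [sig, S, h0]
      rw [this]; positivity
    · obtain ⟨_, h2, _⟩ := hC2 Ω g hg y hy.2 h0
      refine h2.trans ?_
      gcongr
      exact norm_fderiv_le_of_lipschitzOn ℝ (hUo.mem_nhds hy.1) (hLt.mono hUt)
  choose! U hU L hL' using h1
  obtain ⟨t, ht, hcov⟩ := hs.elim_nhdsWithin_subcover U hU
  refine ⟨∑ x ∈ t, |L x|, fun z hz => ?_⟩
  obtain ⟨x, hx, hzx⟩ := mem_iUnion₂.mp (hcov hz)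
  calc sig K g z ≤ L x := hL' x (ht x hx) z hzx
    _ ≤ |L x| := le_abs_self _
    _ ≤ ∑ x ∈ t, |L x| := Finset.single_le_sum (fun i _ => abs_nonneg (L i)) hx

/-- the gradient estimate in Lipschitz form -/
theorem lip_est {K : ℝ} (hK : 0 < K) : ∃ C : ℝ, 0 < C ∧ ∀ (Ω : Set ℂ) (g : ℂ → ℂ),
    PGrad K Ω g → LocallyLipschitzOn Ω (fun z => V (K + 1) (g z)) →
    ∀ (c0 z : ℂ) (r O : ℝ), 0 < r → 0 < O → closedBall z r ⊆ Ω →
      (∀ x ∈ closedBall z r, ‖V (K + 1) (g x) - c0‖ ≤ O) →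
      ∀ x ∈ ball z (r / 2), ∀ y ∈ ball z (r / 2),
        ‖V (K + 1) (g x) - V (K + 1) (g y)‖ ≤ C * O / r * ‖x - y‖ := by
  obtain ⟨C1, hC1, hm⟩ := master hK
  obtain ⟨C2, hC2, hs⟩ := sig_bounds hK
  refine ⟨2 * C1 * C2, by positivity, ?_⟩
  intro Ω g hg hL c0 z r O hr hO hB hb x hx y hy
  have hbb : ball z (r / 2) ⊆ Ω := (ball_subset_closedBall.trans
    (closedBall_subset_closedBall (by linarith))).trans hB
  obtain ⟨L, hLb⟩ := sig_bdd hK hg hL (isCompact_closedBall z r) hB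
  refine lip_seg (F := fun z => V (K + 1) (g z)) (convex_ball z (r / 2)) isOpen_ball
    (hL.continuousOn.mono hbb) (by positivity) ?_ hx hy
  intro w hw hFw
  have hgw : g w ≠ 0 := by
    intro h; apply hFw; simp [V, h]
  obtain ⟨hd, _, h3⟩ := hs Ω g hg w (hbb hw) hgw
  refine ⟨hd, h3.trans ?_⟩
  have hsub : closedBall w (r / 2) ⊆ closedBall z r := by
    apply closedBall_subset_closedBall'
    have := mem_ball.mp hw
    linarith
  have h4 := hm Ω g c0 w (r / 2) O L hg (by positivity) hO (hsub.trans hB)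
    (fun v hv => hb v (hsub hv)) (fun v hv => hLb v (hsub hv))
  calc C2 * sig K g w ≤ C2 * (C1 * O / (r / 2)) := by gcongr
    _ = 2 * C1 * C2 * O / r := by field_simp

end Pool.Agent.H74.PH
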