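import Pool.Agent.H74.PH.Defs

set_option autoImplicit false

open Complex MeasureTheory Set Filter Topology Metric
open scoped ContDiff RealInnerProductSpace

namespace Pool.Agent.H74.PH

namespace HodoH

/-- the linear map `x ↦ k Re x + i Im x` -/
noncomputable def LL (k : ℝ) : ℂ →L[ℝ] ℂ := (k • reCLM).smulRight (1 : ℂ) + imCLM.smulRight I

theorem LL_apply (k : ℝ) (x : ℂ) : LL k x = k * x.re + x.im * I := by
  simp [LL]

theorem exists_log {g : ℂ → ℂ} {z : ℂ} (hg : ContDiffAt ℝ 3 g z) (h0 : g z ≠ 0) :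
    ∃ L : ℂ → ℂ, ContDiffAt ℝ 3 L z ∧ ∀ᶠ x in 𝓝 z, exp (L x) = g x := by
  refine ⟨fun x => log (g x / g z) + log (g z), ?_, ?_⟩
  · have h1 : ContDiffAt ℝ 3 (fun x => g x / g z) z := hg.div_const _
    have h2 : ContDiffAt ℝ 3 log (g z / g z) := by
      rw [div_self h0]
      exact (contDiffAt_log one_mem_slitPlane).restrict_scalars ℝ
    exact (h2.comp z h1).add contDiffAt_const
  · filter_upwards [hg.continuousAt.eventually_ne h0] with x hx
    rw [exp_add, exp_log (div_ne_zero hx h0), exp_log h0, div_mul_cancel₀ _ h0]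

theorem coord {v g : ℂ} (hg : g ≠ 0) : ((v / g).re + (v / g).im * I) * g = v := by
  rw [re_add_im, div_mul_cancel₀ _ hg]

theorem exists_inv {K : ℝ} (hK : 0 < K) {Ω : Set ℂ} {g : ℂ → ℂ} (hg : PGrad K Ω g) {z : ℂ}
    (hz : z ∈ Ω) (h0 : g z ≠ 0) (hS : S g z ≠ 0) :
    ∃ (W : Set ℂ) (Z : ℂ → ℂ) (w0 : ℂ), IsOpen W ∧ w0 ∈ W ∧ Z w0 = z ∧
      ∀ w ∈ W, ContDiffAt ℝ 3 Z w ∧ Z w ∈ Ω ∧ g (Z w) = exp (w.re / √K + w.im * I) := by
  obtain ⟨L, hL, hexp⟩ := exists_log (hg.smooth z hz h0) h0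
  have hsK : 0 < √K := Real.sqrt_pos.2 hK
  obtain ⟨Φ, hΦd⟩ : ∃ Φ : ℂ → ℂ, Φ = fun x => LL (√K) (L x) := ⟨_, rfl⟩
  have hΦ : ContDiffAt ℝ 3 Φ z := by
    rw [hΦd]
    exact (LL (√K)).contDiff.contDiffAt.comp z hL
  have hLd : HasFDerivAt L (fderiv ℝ L z) z := (hL.differentiableAt (by norm_num)).hasFDerivAt
  have hdL : ∀ h, fderiv ℝ g z h = g z * fderiv ℝ L z h := by
    intro h
    have h1 : HasFDerivAt (fun x => exp (L x)) (exp (L z) • fderiv ℝ L z) z := hLd.cexp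
    have h2 : fderiv ℝ (fun x => exp (L x)) z = fderiv ℝ g z := Filter.EventuallyEq.fderiv_eq hexp
    rw [← h2, h1.fderiv]
    simp [hexp.self_of_nhds]
  have hdΦ : ∀ h, fderiv ℝ Φ z h = LL (√K) (fderiv ℝ L z h) := by
    intro h
    have h1 : HasFDerivAt Φ ((LL (√K)).comp (fderiv ℝ L z)) z := by
      rw [hΦd]
      exact (LL (√K)).hasFDerivAt.comp z hLd
    rw [h1.fderiv]
    rfl
  have hinj : Function.Injective (fderiv ℝ Φ z : ℂ →ₗ[ℝ] ℂ) := by
    rw [injective_iff_map_eq_zero]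
    intro h hh
    have hh' : LL (√K) (fderiv ℝ L z h) = 0 := by
      rw [← hdΦ]
      exact hh
    obtain ⟨s, hs⟩ : ∃ s : ℝ, s = (h / g z).re := ⟨_, rfl⟩
    obtain ⟨r, hr⟩ : ∃ r : ℝ, r = (h / g z).im := ⟨_, rfl⟩
    have hsr : h = (s + r * I) * g z := by
      rw [hs, hr, coord h0]
    obtain ⟨α, hα⟩ : ∃ α : ℝ, α = (S g z).re := ⟨_, rfl⟩
    obtain ⟨β, hβ⟩ : ∃ β : ℝ, β = (S g z).im := ⟨_, rfl⟩
    have h1 := hg.eq z hz h0 s r
    rw [← hsr, hdL, ← hα, ← hβ, mul_comm] at h1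
    have h2 := mul_right_cancel₀ h0 h1
    rw [LL_apply, h2] at hh'
    have e1 := congrArg Complex.re hh'
    have e2 := congrArg Complex.im hh'
    simp at e1 e2
    have hαβ : α ≠ 0 ∨ β ≠ 0 := by
      by_contra hcon
      push Not at hcon
      apply hS
      apply Complex.ext
      · rw [← hα, hcon.1]; rfl
      · rw [← hβ, hcon.2]; rfl
    have hD : 0 < K * α ^ 2 + β ^ 2 := by
      rcases hαβ with h | h
      · have : 0 < K * α ^ 2 := by positivity
        nlinarith [sq_nonneg β]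
      · have : 0 < β ^ 2 := by positivity
        nlinarith [mul_nonneg hK.le (sq_nonneg α)]
    have e1' : α * s + β * r = 0 := by
      rcases e1 with h | h
      · exact absurd h hsK.ne'
      · exact h
    have e2' : β * s - K * α * r = 0 := e2
    have hs0 : s = 0 := by
      have : (K * α ^ 2 + β ^ 2) * s = 0 := by linear_combination K * α * e1' + β * e2'
      exact (mul_eq_zero.1 this).resolve_left hD.ne'
    have hr0 : r = 0 := by
      have : (K * α ^ 2 + β ^ 2) * r = 0 := by linear_combination β * e1' - α * e2'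
      exact (mul_eq_zero.1 this).resolve_left hD.ne'
    rw [hsr, hs0, hr0]
    simp
  obtain ⟨Φ', hΦ'e⟩ : ∃ Φ' : ℂ ≃L[ℝ] ℂ, Φ' =
    (LinearEquiv.ofInjectiveEndo (fderiv ℝ Φ z : ℂ →ₗ[ℝ] ℂ) hinj).toContinuousLinearEquiv := ⟨_, rfl⟩
  have hΦ' : HasFDerivAt Φ (Φ' : ℂ →L[ℝ] ℂ) z := by
    have h1 : (Φ' : ℂ →L[ℝ] ℂ) = fderiv ℝ Φ z := by
      rw [hΦ'e]
      ext <;> rfl
    rw [h1]
    exact (hΦ.differentiableAt (by norm_num)).hasFDerivAt
  have hn : (3 : ℕ∞ω) ≠ 0 := by norm_num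
  obtain ⟨e, he⟩ : ∃ e, e = hΦ.toOpenPartialHomeomorph Φ hΦ' hn := ⟨_, rfl⟩
  have hecoe : ∀ x, e x = Φ x := by
    intro x
    rw [he]
    rfl
  have hes : z ∈ e.source := by
    rw [he]
    exact hΦ.mem_toOpenPartialHomeomorph_source hΦ' hn
  have het : Φ z ∈ e.target := by
    rw [← hecoe]
    exact e.map_source hes
  have hZ : ContDiffAt ℝ 3 e.symm (Φ z) := by
    have := hΦ.to_localInverse hΦ' hn
    rw [he]
    exact this
  have hZz : e.symm (Φ z) = z := by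
    rw [← hecoe]
    exact e.left_inv hes
  have hZc : Tendsto e.symm (𝓝 (Φ z)) (𝓝 z) := by
    have := hZ.continuousAt
    unfold ContinuousAt at this
    rwa [hZz] at this
  have ev : ∀ᶠ w in 𝓝 (Φ z), ContDiffAt ℝ 3 e.symm w ∧ e.symm w ∈ Ω ∧
      g (e.symm w) = exp (w.re / √K + w.im * I) := by
    filter_upwards [hZ.eventually (by norm_num), hZc.eventually (hg.isOpen.mem_nhds hz),
      hZc.eventually hexp, e.open_target.mem_nhds het] with w h1 h2 h3 h4
    refine ⟨h1, h2, ?_⟩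
    rw [← h3]
    congr 1
    have h5 : Φ (e.symm w) = w := by
      rw [← hecoe]
      exact e.right_inv h4
    rw [hΦd] at h5
    have h6 : LL (√K) (L (e.symm w)) = w := h5
    rw [LL_apply] at h6
    have e1 := congrArg Complex.re h6
    have e2 := congrArg Complex.im h6
    simp at e1 e2
    apply Complex.ext
    · simp
      rw [← e1]
      field_simp
    · simp
      exact e2
  obtain ⟨W, hW1, hW2, hW3⟩ := _root_.eventually_nhds_iff.1 ev
  exact ⟨W, e.symm, Φ z, hW2, hW3, hZz, hW1⟩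

/-! ### derivatives -/

theorem hasFDerivAt_e (k : ℝ) (w : ℂ) :
    HasFDerivAt (fun w : ℂ => exp (w.im * I - k * w.re))
      (exp (w.im * I - k * w.re) • (imCLM.smulRight I - (k • reCLM).smulRight (1 : ℂ))) w := by
  have h1 : HasFDerivAt (fun w : ℂ => (imCLM.smulRight I - (k • reCLM).smulRight (1 : ℂ)) w)
      (imCLM.smulRight I - (k • reCLM).smulRight (1 : ℂ)) w := ContinuousLinearMap.hasFDerivAt _
  have h2 := h1.cexp
  have e : ∀ w : ℂ, (imCLM.smulRight I - (k • reCLM).smulRight (1 : ℂ)) w =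
      w.im * I - k * w.re := by
    intro w
    simp
  simp only [e] at h2
  exact h2

theorem hasFDerivAt_G (k : ℝ) (w : ℂ) :
    HasFDerivAt (fun w : ℂ => exp (w.re / k + w.im * I))
      (exp (w.re / k + w.im * I) •
        ((k⁻¹ • reCLM).smulRight (1 : ℂ) + imCLM.smulRight I)) w := by
  have h1 : HasFDerivAt (fun w : ℂ => ((k⁻¹ • reCLM).smulRight (1 : ℂ) + imCLM.smulRight I) w)
      ((k⁻¹ • reCLM).smulRight (1 : ℂ) + imCLM.smulRight I) w := ContinuousLinearMap.hasFDerivAt _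
  have h2 := h1.cexp
  have e : ∀ w : ℂ, ((k⁻¹ • reCLM).smulRight (1 : ℂ) + imCLM.smulRight I) w =
      w.re / k + w.im * I := by
    intro w
    simp
    ring
  simp only [e] at h2
  exact h2

/-- the data at a point of the hodograph plane -/
theorem facts {K : ℝ} (hK : 0 < K) {Ω : Set ℂ} {g : ℂ → ℂ} (hg : PGrad K Ω g) {W : Set ℂ}
    {Z : ℂ → ℂ} (hW : IsOpen W) (hprop : ∀ w ∈ W, ContDiffAt ℝ 3 Z w ∧ Z w ∈ Ω ∧
      g (Z w) = exp (w.re / √K + w.im * I)) {w : ℂ} (hw : w ∈ W) :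
    ∃ α β s s' : ℝ, S g (Z w) = α + β * I ∧
      fderiv ℝ Z w 1 = (s + s' / √K * I) * g (Z w) ∧
      fderiv ℝ Z w I = (s' - s / √K * I) * g (Z w) ∧
      0 < K * α ^ 2 + β ^ 2 ∧ (K * α ^ 2 + β ^ 2) * s = √K * α ∧
      (K * α ^ 2 + β ^ 2) * s' = β := by
  obtain ⟨hZ, hZΩ, hgZ⟩ := hprop w hw
  have hsK : 0 < √K := Real.sqrt_pos.2 hK
  have hKK : √K * √K = K := Real.mul_self_sqrt hK.le
  have hg0 : g (Z w) ≠ 0 := by rw [hgZ]; exact exp_ne_zero _
  have hZd : HasFDerivAt Z (fderiv ℝ Z w) w := (hZ.differentiableAt (by norm_num)).hasFDerivAt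
  have hgd : HasFDerivAt g (fderiv ℝ g (Z w)) (Z w) :=
    ((hg.smooth _ hZΩ hg0).differentiableAt (by norm_num)).hasFDerivAt
  have h1 : HasFDerivAt (fun w => g (Z w)) ((fderiv ℝ g (Z w)).comp (fderiv ℝ Z w)) w :=
    hgd.comp w hZd
  have h2 : (fun w => g (Z w)) =ᶠ[𝓝 w] fun w : ℂ => exp (w.re / √K + w.im * I) := by
    filter_upwards [hW.mem_nhds hw] with x hx
    exact (hprop x hx).2.2
  have h3 : HasFDerivAt (fun w => g (Z w)) (exp (w.re / √K + w.im * I) •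
      (((√K)⁻¹ • reCLM).smulRight (1 : ℂ) + imCLM.smulRight I)) w :=
    (hasFDerivAt_G (√K) w).congr_of_eventuallyEq h2
  have h4 := h1.unique h3
  have d1 : fderiv ℝ g (Z w) (fderiv ℝ Z w 1) = ((√K)⁻¹ : ℝ) * g (Z w) := by
    have h5 := congrArg (fun T : ℂ →L[ℝ] ℂ => T 1) h4
    simp only [ContinuousLinearMap.comp_apply] at h5
    rw [h5, ← hgZ]
    simp
    ring
  have d2 : fderiv ℝ g (Z w) (fderiv ℝ Z w I) = I * g (Z w) := by
    have h5 := congrArg (fun T : ℂ →L[ℝ] ℂ => T I) h4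
    simp only [ContinuousLinearMap.comp_apply] at h5
    rw [h5, ← hgZ]
    simp
    ring
  obtain ⟨α, hα⟩ : ∃ α : ℝ, α = (S g (Z w)).re := ⟨_, rfl⟩
  obtain ⟨β, hβ⟩ : ∃ β : ℝ, β = (S g (Z w)).im := ⟨_, rfl⟩
  obtain ⟨s, hs⟩ : ∃ s : ℝ, s = (fderiv ℝ Z w 1 / g (Z w)).re := ⟨_, rfl⟩
  obtain ⟨r, hr⟩ : ∃ r : ℝ, r = (fderiv ℝ Z w 1 / g (Z w)).im := ⟨_, rfl⟩
  obtain ⟨s', hs'⟩ : ∃ s' : ℝ, s' = (fderiv ℝ Z w I / g (Z w)).re := ⟨_, rfl⟩
  obtain ⟨r', hr'⟩ : ∃ r' : ℝ, r' = (fderiv ℝ Z w I / g (Z w)).im := ⟨_, rfl⟩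
  have hzt : fderiv ℝ Z w 1 = (s + r * I) * g (Z w) := by rw [hs, hr, coord hg0]
  have hzf : fderiv ℝ Z w I = (s' + r' * I) * g (Z w) := by rw [hs', hr', coord hg0]
  have q1 := hg.eq _ hZΩ hg0 s r
  have q2 := hg.eq _ hZΩ hg0 s' r'
  rw [← hzt, d1, ← hα, ← hβ] at q1
  rw [← hzf, d2, ← hα, ← hβ] at q2
  have q1' := mul_right_cancel₀ hg0 q1
  have q2' := mul_right_cancel₀ hg0 q2
  have a1 := congrArg Complex.re q1'
  have a2 := congrArg Complex.im q1'
  have a3 := congrArg Complex.re q2'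
  have a4 := congrArg Complex.im q2'
  simp at a1 a2 a3 a4
  have hαβ : α ≠ 0 ∨ β ≠ 0 := by
    by_contra hcon
    push Not at hcon
    rw [hcon.1, hcon.2] at a1
    have : (√K)⁻¹ ≠ 0 := inv_ne_zero hsK.ne'
    apply this
    rw [a1]
    ring
  have hD : 0 < K * α ^ 2 + β ^ 2 := by
    rcases hαβ with h | h
    · have : 0 < K * α ^ 2 := by positivity
      nlinarith [sq_nonneg β]
    · have : 0 < β ^ 2 := by positivity
      nlinarith [mul_nonneg hK.le (sq_nonneg α)]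
  have i1 : √K * (√K)⁻¹ = 1 := mul_inv_cancel₀ hsK.ne'
  have b1 : (K * α ^ 2 + β ^ 2) * s = √K * α := by
    have : K * (√K)⁻¹ = √K := by
      rw [← hKK]
      field_simp
      rw [Real.sqrt_sq hsK.le]
    linear_combination (-(K * α)) * a1 - β * a2 + α * this
  have b2 : (K * α ^ 2 + β ^ 2) * r = β * (√K)⁻¹ := by
    linear_combination (-β) * a1 + α * a2
  have b3 : (K * α ^ 2 + β ^ 2) * s' = β := by
    linear_combination (-(K * α)) * a3 - β * a4
  have b4 : (K * α ^ 2 + β ^ 2) * r' = -α := by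
    linear_combination (-β) * a3 + α * a4
  have hr1 : r = s' / √K := by
    apply mul_left_cancel₀ hD.ne'
    rw [b2, div_eq_mul_inv, ← mul_assoc, b3]
  have hr2 : r' = -(s / √K) := by
    apply mul_left_cancel₀ hD.ne'
    rw [b4, div_eq_mul_inv]
    have : (K * α ^ 2 + β ^ 2) * -(s * (√K)⁻¹) = -(((K * α ^ 2 + β ^ 2) * s) * (√K)⁻¹) := by ring
    rw [this, b1]
    linear_combination α * i1
  refine ⟨α, β, s, s', ?_, ?_, ?_, hD, b1, b3⟩
  · rw [hα, hβ, re_add_im]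
  · rw [hzt, hr1]
    push_cast
    ring
  · rw [hzf, hr2]
    push_cast
    ring

end HodoH

open HodoH in
/-- PH-HODO: the hodograph transform at a noncritical point of `V g`. -/
theorem hodograph {K : ℝ} (hK : 0 < K) {Ω : Set ℂ} {g : ℂ → ℂ} (hg : PGrad K Ω g) {z : ℂ}
    (hz : z ∈ Ω) (h0 : g z ≠ 0) (hS : S g z ≠ 0) :
    ∃ (W : Set ℂ) (Z Y : ℂ → ℂ) (w0 : ℂ), Hodo K W Z Y ∧ w0 ∈ W ∧ Z w0 = z ∧
      ∀ w ∈ W, Z w ∈ Ω ∧ g (Z w) = exp (w.re / √K + w.im * I) ∧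
        S g (Z w) = Real.exp (k0 K * w.re + w.re / √K) / ‖Y w‖ ^ 2 *
          ((Y w).re / √K - (Y w).im * I) := by
  obtain ⟨W, Z, w0, hW, hw0, hZ0, hprop⟩ := exists_inv hK hg hz h0 hS
  have hsK : 0 < √K := Real.sqrt_pos.2 hK
  have hKK : √K * √K = K := Real.mul_self_sqrt hK.le
  obtain ⟨Y, hY⟩ : ∃ Y : ℂ → ℂ, Y = fun w => (Real.exp (k0 K * w.re) : ℂ) *
    (((exp (-(w.im * I)) * fderiv ℝ Z w 1).re : ℂ) -
      ((exp (-(w.im * I)) * fderiv ℝ Z w I).re : ℂ) * I) := ⟨_, rfl⟩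
  have c0 : ∀ x y : ℝ, ((x : ℂ) - (y : ℂ) * I).re = x := by
    intro x y
    simp
  have c0' : ∀ x y : ℝ, ((x : ℂ) - (y : ℂ) * I).im = -y := by
    intro x y
    simp
  -- data
  have key : ∀ w ∈ W, ∃ D s s' : ℝ, 0 < D ∧ D * (s ^ 2 + s' ^ 2) = 1 ∧
      S g (Z w) = D * (s / √K + s' * I) ∧
      fderiv ℝ Z w 1 = (s + s' / √K * I) * (Real.exp (w.re / √K) * exp (w.im * I)) ∧
      fderiv ℝ Z w I = (s' - s / √K * I) * (Real.exp (w.re / √K) * exp (w.im * I)) ∧
      (Y w).re = Real.exp (k0 K * w.re) * (Real.exp (w.re / √K) * s) ∧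
      (Y w).im = -(Real.exp (k0 K * w.re) * (Real.exp (w.re / √K) * s')) := by
    intro w hw
    obtain ⟨α, β, s, s', e1, e2, e3, e4, e5, e6⟩ := facts hK hg hW hprop hw
    have hgZ : g (Z w) = Real.exp (w.re / √K) * exp (w.im * I) := by
      rw [(hprop w hw).2.2, exp_add]
      push_cast
      rfl
    rw [hgZ] at e2 e3
    have hu : exp (-(w.im * I)) * exp (w.im * I) = 1 := by
      rw [← exp_add, neg_add_cancel, exp_zero]
    have f1 : exp (-(w.im * I)) * fderiv ℝ Z w 1 =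
        (Real.exp (w.re / √K) : ℂ) * (s + s' / √K * I) := by
      rw [e2]
      linear_combination ((s + s' / √K * I) * (Real.exp (w.re / √K) : ℂ)) * hu
    have f2 : exp (-(w.im * I)) * fderiv ℝ Z w I =
        (Real.exp (w.re / √K) : ℂ) * (s' - s / √K * I) := by
      rw [e3]
      linear_combination ((s' - s / √K * I) * (Real.exp (w.re / √K) : ℂ)) * hu
    have f1' : (exp (-(w.im * I)) * fderiv ℝ Z w 1).re = Real.exp (w.re / √K) * s := by
      rw [f1, re_ofReal_mul]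
      congr 1
      have : (s : ℂ) + s' / √K * I = (s : ℂ) + ((s' / √K : ℝ) : ℂ) * I := by push_cast; rfl
      rw [this]
      simp
    have f2' : (exp (-(w.im * I)) * fderiv ℝ Z w I).re = Real.exp (w.re / √K) * s' := by
      rw [f2, re_ofReal_mul]
      congr 1
      have : (s' : ℂ) - s / √K * I = (s' : ℂ) - ((s / √K : ℝ) : ℂ) * I := by push_cast; rfl
      rw [this]
      simp
    have hYw : Y w = (Real.exp (k0 K * w.re) : ℂ) *
        (((Real.exp (w.re / √K) * s : ℝ) : ℂ) - ((Real.exp (w.re / √K) * s' : ℝ) : ℂ) * I) := by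
      rw [hY]
      simp only
      rw [f1', f2']
    refine ⟨K * α ^ 2 + β ^ 2, s, s', e4, ?_, ?_, e2, e3, ?_, ?_⟩
    · apply mul_left_cancel₀ e4.ne'
      have : (K * α ^ 2 + β ^ 2) * ((K * α ^ 2 + β ^ 2) * (s ^ 2 + s' ^ 2)) =
        ((K * α ^ 2 + β ^ 2) * s) ^ 2 + ((K * α ^ 2 + β ^ 2) * s') ^ 2 := by ring
      rw [this, e5, e6, mul_pow, Real.sq_sqrt hK.le]
      ring
    · have g1 : ((K * α ^ 2 + β ^ 2 : ℝ) : ℂ) * (s / √K) = α := by
        have : (K * α ^ 2 + β ^ 2) * (s / √K) = α := by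
          rw [← mul_div_assoc, e5]
          field_simp
        exact_mod_cast this
      have g2 : ((K * α ^ 2 + β ^ 2 : ℝ) : ℂ) * s' = β := by exact_mod_cast e6
      rw [e1, mul_add, g1, ← mul_assoc, g2]
    · rw [hYw, re_ofReal_mul, c0]
    · rw [hYw, im_ofReal_mul, c0', mul_neg]
  have hk1 : k0 K - 1 / √K = -(2 * cc K) := by
    unfold k0 cc
    ring
  have hk2 : k0 K - √K = 2 * cc K := by
    unfold k0 cc
    ring
  have hzt : ∀ w ∈ W, fderiv ℝ Z w 1 =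
      exp (w.im * I - k0 K * w.re) * ((Y w).re - (Y w).im / √K * I) := by
    intro w hw
    obtain ⟨D, s, s', -, -, -, e2, -, e4, e5⟩ := key w hw
    rw [e2, e4, e5]
    have h1 : exp (w.im * I - k0 K * w.re) * (Real.exp (k0 K * w.re) : ℂ) = exp (w.im * I) := by
      rw [ofReal_exp, ← exp_add]
      congr 1
      push_cast
      ring
    push_cast at h1 ⊢
    linear_combination (-((s + s' / √K * I) * exp (w.re / √K))) * h1
  have hzf : ∀ w ∈ W, fderiv ℝ Z w I =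
      exp (w.im * I - k0 K * w.re) * (-(Y w).im - (Y w).re / √K * I) := by
    intro w hw
    obtain ⟨D, s, s', -, -, -, -, e3, e4, e5⟩ := key w hw
    rw [e3, e4, e5]
    have h1 : exp (w.im * I - k0 K * w.re) * (Real.exp (k0 K * w.re) : ℂ) = exp (w.im * I) := by
      rw [ofReal_exp, ← exp_add]
      congr 1
      push_cast
      ring
    push_cast at h1 ⊢
    linear_combination (-((s' - s / √K * I) * exp (w.re / √K))) * h1
  have hYs : ∀ w ∈ W, ContDiffAt ℝ 2 Y w := by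
    intro w hw
    have hZ3 := (hprop w hw).1
    have hfd : ContDiffAt ℝ 2 (fderiv ℝ Z) w := hZ3.fderiv_right (by norm_num)
    have h1 : ContDiffAt ℝ 2 (fun w => fderiv ℝ Z w 1) w := hfd.clm_apply contDiffAt_const
    have h2 : ContDiffAt ℝ 2 (fun w => fderiv ℝ Z w I) w := hfd.clm_apply contDiffAt_const
    have hre : ContDiff ℝ 2 (fun w : ℂ => w.re) := reCLM.contDiff
    have him : ContDiff ℝ 2 (fun w : ℂ => w.im) := imCLM.contDiff
    have hof : ContDiff ℝ 2 (fun x : ℝ => (x : ℂ)) := ofRealCLM.contDiff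
    have hex : ContDiff ℝ 2 (fun x : ℂ => exp x) := Complex.contDiff_exp
    have he : ContDiffAt ℝ 2 (fun w : ℂ => exp (-(w.im * I))) w :=
      (hex.comp (((hof.comp him).mul contDiff_const).neg)).contDiffAt
    rw [hY]
    exact (hof.comp (Real.contDiff_exp.comp (contDiff_const.mul hre))).contDiffAt.mul
      ((hof.contDiffAt.comp w (hre.contDiffAt.comp w (he.mul h1))).sub
        ((hof.contDiffAt.comp w (hre.contDiffAt.comp w (he.mul h2))).mul contDiffAt_const))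
  -- the system
  have hsys : ∀ w ∈ W, (fderiv ℝ Y w 1).re - (fderiv ℝ Y w I).im = 2 * cc K * (Y w).re ∧
      (fderiv ℝ Y w 1).im + (fderiv ℝ Y w I).re = -2 * cc K * (Y w).im := by
    intro w hw
    have hZ3 := (hprop w hw).1
    have hYd : HasFDerivAt Y (fderiv ℝ Y w) w :=
      ((hYs w hw).differentiableAt (by norm_num)).hasFDerivAt
    have hfd : DifferentiableAt ℝ (fderiv ℝ Z) w :=
      (hZ3.fderiv_right (m := 2) (by norm_num)).differentiableAt (by norm_num)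
    have hsym := (hZ3.isSymmSndFDerivAt (by
      rw [minSmoothness_of_isRCLikeNormedField]
      have : (3 : ℕ∞ω) = 2 + 1 := by norm_num
      rw [this]
      exact le_self_add)).eq (1 : ℂ) I
    have hP : HasFDerivAt (fun w => fderiv ℝ Z w 1)
        ((ContinuousLinearMap.apply ℝ ℂ (1 : ℂ)).comp (fderiv ℝ (fderiv ℝ Z) w)) w :=
      (ContinuousLinearMap.apply ℝ ℂ (1 : ℂ)).hasFDerivAt.comp w hfd.hasFDerivAt
    have hQ : HasFDerivAt (fun w => fderiv ℝ Z w I)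
        ((ContinuousLinearMap.apply ℝ ℂ I).comp (fderiv ℝ (fderiv ℝ Z) w)) w :=
      (ContinuousLinearMap.apply ℝ ℂ I).hasFDerivAt.comp w hfd.hasFDerivAt
    obtain ⟨M1, hM1⟩ : ∃ M1 : ℂ →L[ℝ] ℂ, M1 = reCLM.smulRight (1 : ℂ) -
      ((√K)⁻¹ • imCLM).smulRight I := ⟨_, rfl⟩
    obtain ⟨M2, hM2⟩ : ∃ M2 : ℂ →L[ℝ] ℂ, M2 = -(imCLM.smulRight (1 : ℂ)) -
      ((√K)⁻¹ • reCLM).smulRight I := ⟨_, rfl⟩
    have hM1a : ∀ x : ℂ, M1 x = x.re - x.im / √K * I := by
      intro x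
      rw [hM1]
      simp
      ring
    have hM2a : ∀ x : ℂ, M2 x = -x.im - x.re / √K * I := by
      intro x
      rw [hM2]
      simp
      ring
    have hE := hasFDerivAt_e (k0 K) w
    have hP' : HasFDerivAt (fun w => fderiv ℝ Z w 1)
        (exp (w.im * I - k0 K * w.re) • (M1.comp (fderiv ℝ Y w)) + M1 (Y w) •
          (exp (w.im * I - k0 K * w.re) • (imCLM.smulRight I -
            (k0 K • reCLM).smulRight (1 : ℂ)))) w := by
      have h1 := hE.mul (M1.hasFDerivAt.comp w hYd)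
      refine h1.congr_of_eventuallyEq ?_
      filter_upwards [hW.mem_nhds hw] with x hx
      rw [hzt x hx]
      show _ = exp (x.im * I - k0 K * x.re) * M1 (Y x)
      rw [hM1a]
    have hQ' : HasFDerivAt (fun w => fderiv ℝ Z w I)
        (exp (w.im * I - k0 K * w.re) • (M2.comp (fderiv ℝ Y w)) + M2 (Y w) •
          (exp (w.im * I - k0 K * w.re) • (imCLM.smulRight I -
            (k0 K • reCLM).smulRight (1 : ℂ)))) w := by
      have h1 := hE.mul (M2.hasFDerivAt.comp w hYd)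
      refine h1.congr_of_eventuallyEq ?_
      filter_upwards [hW.mem_nhds hw] with x hx
      rw [hzf x hx]
      show _ = exp (x.im * I - k0 K * x.re) * M2 (Y x)
      rw [hM2a]
    have h1 := congrArg (fun T : ℂ →L[ℝ] ℂ => T I) (hP.unique hP')
    have h2 := congrArg (fun T : ℂ →L[ℝ] ℂ => T 1) (hQ.unique hQ')
    simp only [ContinuousLinearMap.comp_apply, ContinuousLinearMap.apply_apply] at h1 h2
    rw [← hsym, h2] at h1
    have hne : exp (w.im * I - k0 K * w.re) ≠ 0 := exp_ne_zero _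
    have h3 : exp (w.im * I - k0 K * w.re) * (M2 (fderiv ℝ Y w 1) - k0 K * M2 (Y w)) =
        exp (w.im * I - k0 K * w.re) * (M1 (fderiv ℝ Y w I) + I * M1 (Y w)) := by
      simp at h1
      linear_combination h1
    have h4 := mul_left_cancel₀ hne h3
    rw [hM2a, hM2a, hM1a, hM1a] at h4
    have c1 : ∀ x y : ℝ, ((x : ℂ) - y / √K * I) = ((x : ℂ) - ((y / √K : ℝ) : ℂ) * I) := by
      intro x y
      push_cast
      rfl
    have c2 : ∀ x y : ℝ, (-(x : ℂ) - y / √K * I) = (((-x : ℝ) : ℂ) - ((y / √K : ℝ) : ℂ) * I) := by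
      intro x y
      push_cast
      rfl
    rw [c1, c1, c2, c2] at h4
    have r1 := congrArg Complex.re h4
    have r2 := congrArg Complex.im h4
    simp at r1 r2
    have i1 : √K * (√K)⁻¹ = 1 := mul_inv_cancel₀ hsK.ne'
    constructor
    · linear_combination (-√K) * r2 + (Y w).re * hk2 -
        ((fderiv ℝ Y w 1).re - k0 K * (Y w).re - (fderiv ℝ Y w I).im) * i1
    · linear_combination (-1 : ℝ) * r1 + (Y w).im * hk1
  refine ⟨W, Z, Y, w0, ⟨hW, hYs, ?_, fun w hw => (hprop w hw).1.differentiableAt (by norm_num),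
    hzt, hzf, fun w hw => (hsys w hw).1, fun w hw => (hsys w hw).2⟩, hw0, hZ0, ?_⟩
  · intro w hw h
    obtain ⟨D, s, s', e0, e1, -, -, -, e4, e5⟩ := key w hw
    rw [h] at e4 e5
    have hx1 := Real.exp_pos (k0 K * w.re)
    have hx2 := Real.exp_pos (w.re / √K)
    simp at e4 e5
    rw [e4, e5] at e1
    norm_num at e1
  · intro w hw
    refine ⟨(hprop w hw).2.1, (hprop w hw).2.2, ?_⟩
    obtain ⟨D, s, s', e0, e1, e2, -, -, e4, e5⟩ := key w hw
    have hn : ‖Y w‖ ^ 2 = (Real.exp (k0 K * w.re) * Real.exp (w.re / √K)) ^ 2 / D := by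
      rw [← Complex.normSq_eq_norm_sq, Complex.normSq_apply, e4, e5, eq_div_iff e0.ne']
      linear_combination (Real.exp (k0 K * w.re) * Real.exp (w.re / √K)) ^ 2 * e1
    obtain ⟨P, hP⟩ : ∃ P : ℝ, P = Real.exp (k0 K * w.re) * Real.exp (w.re / √K) := ⟨_, rfl⟩
    have hP0 : (P : ℂ) ≠ 0 := by
      have : 0 < P := by rw [hP]; positivity
      exact_mod_cast this.ne'
    have hD0 : (D : ℂ) ≠ 0 := by exact_mod_cast e0.ne'
    have hK0 : ((√K : ℝ) : ℂ) ≠ 0 := by exact_mod_cast hsK.ne'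
    have hn' : (‖Y w‖ : ℂ) ^ 2 = (P : ℂ) ^ 2 / D := by
      rw [← hP] at hn
      exact_mod_cast hn
    have e4' : ((Y w).re : ℂ) = P * s := by
      rw [e4, hP]
      push_cast
      ring
    have e5' : ((Y w).im : ℂ) = -(P * s') := by
      rw [e5, hP]
      push_cast
      ring
    have hex : ((Real.exp (k0 K * w.re + w.re / √K) : ℝ) : ℂ) = P := by
      rw [Real.exp_add, ← hP]
    rw [e2, e4', e5', hn', hex]
    field_simp
    ring

end Pool.Agent.H74.PH
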