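import Pool.Agent.H74.PH.Defs

set_option autoImplicit false

open Complex MeasureTheory Set Filter Topology Metric
open scoped ContDiff RealInnerProductSpace

namespace Pool.Agent.H74.PH

theorem k0_pos_ppmm {K : ℝ} (hK : 0 < K) : 0 < k0 K := by
  unfold k0
  have : 0 < √K := Real.sqrt_pos.mpr hK
  positivity

theorem cc_le_ppmm {K : ℝ} (hK : 0 < K) : |cc K| ≤ k0 K / 2 := by
  have h : 0 < √K := Real.sqrt_pos.mpr hK
  have h' : 0 < 1 / √K := by positivity
  unfold cc k0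
  rw [abs_le]
  constructor <;> linarith

theorem PP_mul_MM {K k ε : ℝ} (hK : 0 < K) {g : ℂ → ℂ} {Z Y : ℂ → ℂ} {w : ℂ} (hY : Y w ≠ 0)
    (hk : k0 K ≤ k) (hε : 0 ≤ ε) (hE : ε * Real.exp (k / 2 * w.re) ≤ 1 / 10)
    (hg : g (Z w) = exp (w.re / √K + w.im * I))
    (hS : S g (Z w) = Real.exp (k0 K * w.re + w.re / √K) / ‖Y w‖ ^ 2 *
          ((Y w).re / √K - (Y w).im * I)) :
    0 < MM K k ε Y w ∧ PP K k ε g (Z w) * MM K k ε Y w = 1 := by
  have hs : 0 < √K := Real.sqrt_pos.mpr hK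
  have hsK : √K ^ 2 = K := Real.sq_sqrt hK.le
  have hk0 := k0_pos_ppmm hK
  have hkp : 0 < k := lt_of_lt_of_le hk0 hk
  have hc := abs_le.mp (cc_le_ppmm hK)
  set t := w.re with ht
  set a := (Y w).re with ha
  set b := (Y w).im with hb
  set E := ε * Real.exp (k / 2 * t) with hEdef
  have hE0 : 0 ≤ E := by positivity
  have hN : ‖Y w‖ ^ 2 = a ^ 2 + b ^ 2 := by
    rw [← Complex.normSq_eq_norm_sq, Complex.normSq_apply]; ring
  have hNpos : 0 < a ^ 2 + b ^ 2 := by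
    rw [← hN]; have := norm_pos_iff.mpr hY; positivity
  have hp1 : 0 < pi1 k (cc K) E := by
    unfold pi1
    have : 0 < k - cc K := by linarith [hc.2]
    have h1 : 0 < 1 - E := by linarith
    positivity
  have hp2 : 0 < pi2 k (cc K) E := by
    unfold pi2
    have : 0 < k + cc K := by linarith [hc.1]
    have h1 : 0 < 1 - E := by linarith
    positivity
  have hm : 0 < pi1 k (cc K) E * a ^ 2 + pi2 k (cc K) E * b ^ 2 := by
    rcases eq_or_ne a 0 with h0 | h0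
    · have : b ≠ 0 := by
        intro h1; rw [h0, h1] at hNpos; simp at hNpos
      have : 0 < b ^ 2 := by positivity
      nlinarith [mul_pos hp2 this, mul_nonneg hp1.le (sq_nonneg a)]
    · have : 0 < a ^ 2 := by positivity
      nlinarith [mul_pos hp1 this, mul_nonneg hp2.le (sq_nonneg b)]
  have hMM : MM K k ε Y w = Real.exp (-4 * k * t) *
      (pi1 k (cc K) E * a ^ 2 + pi2 k (cc K) E * b ^ 2) := rfl
  have hMpos : 0 < MM K k ε Y w := by rw [hMM]; positivity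
  refine ⟨hMpos, ?_⟩
  have hgn : ‖g (Z w)‖ = Real.exp (t / √K) := by
    rw [hg, Complex.norm_exp]
    congr 1
    have : ((t : ℂ) / (√K : ℂ) + (w.im : ℂ) * I).re = t / √K := by
      have e : (t : ℂ) / (√K : ℂ) + (w.im : ℂ) * I = ((t / √K : ℝ) : ℂ) + (w.im : ℂ) * I := by
        push_cast; rfl
      rw [e]
      simp
    exact this
  set lam := Real.exp (k0 K * t + t / √K) / (a ^ 2 + b ^ 2) with hlam
  have hlpos : 0 < lam := by positivity
  have hSe : S g (Z w) = ((lam * (a / √K) : ℝ) : ℂ) + ((-(lam * b) : ℝ) : ℂ) * I := by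
    rw [hS, hlam, show ((‖Y w‖ : ℂ)) ^ 2 = (((a ^ 2 + b ^ 2 : ℝ)) : ℂ) by
      rw [← hN]; push_cast; rfl]
    push_cast
    ring
  have hre : (S g (Z w)).re = lam * (a / √K) := by
    rw [hSe]; simp
  have him : (S g (Z w)).im = -(lam * b) := by
    rw [hSe]; simp
  have hpow1 : ‖g (Z w)‖ ^ (√K * k / 2) = Real.exp (k / 2 * t) := by
    rw [hgn, ← Real.exp_mul]; congr 1; field_simp
  have hpow2 : ‖g (Z w)‖ ^ (4 * √K * k - K - 3) =
      Real.exp (4 * k * t - (K + 3) * (t / √K)) := by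
    rw [hgn, ← Real.exp_mul]; congr 1; field_simp; ring
  have hKa : K * (lam * (a / √K)) ^ 2 = lam ^ 2 * a ^ 2 := by
    have e : K * (lam * (a / √K)) ^ 2 = K * (lam ^ 2 * (a ^ 2 / √K ^ 2)) := by ring
    rw [e, hsK]; field_simp
  unfold PP
  rw [hpow1, hpow2, hre, him, hKa, hMM, ← hEdef]
  have hbb : (-(lam * b)) ^ 2 = lam ^ 2 * b ^ 2 := by ring
  rw [hbb]
  have hden : pi1 k (cc K) E * (lam ^ 2 * a ^ 2) + pi2 k (cc K) E * (lam ^ 2 * b ^ 2) =
      lam ^ 2 * (pi1 k (cc K) E * a ^ 2 + pi2 k (cc K) E * b ^ 2) := by ring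
  rw [hden]
  have hlam2 : lam ^ 2 * (a ^ 2 + b ^ 2) ^ 2 = Real.exp (2 * (k0 K * t + t / √K)) := by
    have e : Real.exp (2 * (k0 K * t + t / √K)) = Real.exp (k0 K * t + t / √K) ^ 2 := by
      rw [sq, ← Real.exp_add]; congr 1; ring
    rw [e, hlam, div_pow, div_mul_cancel₀]
    positivity
  have hexp : Real.exp (4 * k * t - (K + 3) * (t / √K)) *
      Real.exp (2 * (k0 K * t + t / √K)) * Real.exp (-4 * k * t) = 1 := by
    rw [← Real.exp_add, ← Real.exp_add, Real.exp_eq_one_iff]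
    unfold k0
    field_simp
    rw [hsK]; ring
  calc Real.exp (4 * k * t - (K + 3) * (t / √K)) * (lam ^ 2 * a ^ 2 + lam ^ 2 * b ^ 2) ^ 2 /
        (lam ^ 2 * (pi1 k (cc K) E * a ^ 2 + pi2 k (cc K) E * b ^ 2)) *
        (Real.exp (-4 * k * t) * (pi1 k (cc K) E * a ^ 2 + pi2 k (cc K) E * b ^ 2))
      = Real.exp (4 * k * t - (K + 3) * (t / √K)) * (lam ^ 2 * (a ^ 2 + b ^ 2) ^ 2) *
          Real.exp (-4 * k * t) := by
        have hm' := hm.ne'
        have hl' : lam ^ 2 ≠ 0 := by positivity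
        have e1 : (lam ^ 2 * a ^ 2 + lam ^ 2 * b ^ 2) ^ 2 =
            lam ^ 2 * (lam ^ 2 * (a ^ 2 + b ^ 2) ^ 2) := by ring
        rw [e1]
        generalize pi1 k (cc K) E * a ^ 2 + pi2 k (cc K) E * b ^ 2 = M at hm'
        field_simp
    _ = 1 := by rw [hlam2, hexp]

end Pool.Agent.H74.PH
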