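import Pool.Agent.H74.PH.MinptF
import Pool.Agent.H74.PH.HODO
import Pool.Agent.H74.PH.Ppmm
import Pool.Agent.H74.PH.ETA

/-! # PH-KEY: the inequality at a maximum point

Uses `hodograph`, `PP_mul_MM`, `minpt`, `eta`. -/

set_option autoImplicit false

open Complex MeasureTheory Set Filter Topology Metric
open scoped ContDiff RealInnerProductSpace

namespace Pool.Agent.H74.PH

namespace KEY

lemma one_le_k0 {K : ℝ} (hK : 0 < K) : 1 ≤ k0 K := by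
  have hs : 0 < √K := Real.sqrt_pos.2 hK
  rw [k0, le_div_iff₀ (by norm_num)]
  have h1 : √K * (1 / √K) = 1 := by field_simp
  have h2 : 0 < 1 / √K := by positivity
  nlinarith [sq_nonneg (√K - 1 / √K)]

lemma abs_cc_le {K : ℝ} (hK : 0 < K) : |cc K| ≤ k0 K / 2 := by
  have hs : 0 < √K := Real.sqrt_pos.2 hK
  have h2 : 0 < 1 / √K := by positivity
  rw [cc, k0, abs_le]
  constructor <;> linarith

lemma omega_pos {K : ℝ} {Y : ℂ → ℂ} {w : ℂ} (hY : Y w ≠ 0) : 0 < omega K Y w := by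
  have : 0 < ‖Y w‖ := norm_pos_iff.2 hY
  rw [omega]
  positivity

lemma norm_exp {K : ℝ} (w : ℂ) : ‖exp (w.re / √K + w.im * I)‖ = Real.exp (w.re / √K) := by
  rw [Complex.norm_exp]
  congr 1
  simp [← Complex.ofReal_div]

lemma eps_eq {K k : ℝ} (hK : 0 < K) (w : ℂ) :
    ‖exp (w.re / √K + w.im * I)‖ ^ (√K * k / 2) = Real.exp (k / 2 * w.re) := by
  have hs : 0 < √K := Real.sqrt_pos.2 hK
  rw [norm_exp, ← Real.exp_mul]
  congr 1
  field_simp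

lemma MM_ge {K k ε : ℝ} (hK : 0 < K) (hk : k0 K ≤ k) (hε : 0 ≤ ε) (Y : ℂ → ℂ) (w : ℂ)
    (hE : ε * Real.exp (k / 2 * w.re) ≤ 1 / 10) :
    Real.exp (-4 * k * w.re) * (9 / 20 * ‖Y w‖ ^ 2) ≤ MM K k ε Y w := by
  obtain ⟨E, hEE⟩ : ∃ E, E = ε * Real.exp (k / 2 * w.re) := ⟨_, rfl⟩
  have hE0 : 0 ≤ E := by rw [hEE]; positivity
  rw [MM, ← hEE]
  rw [← hEE] at hE
  have h1 := abs_le.1 (abs_cc_le hK)
  have h2 := one_le_k0 hK
  have h3 : 9 / 20 ≤ pi1 k (cc K) E := by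
    rw [pi1]
    have h4 : k / 2 ≤ k - cc K := by linarith [h1.2]
    nlinarith
  have h4 : 9 / 20 ≤ pi2 k (cc K) E := by
    rw [pi2]
    have h4 : k / 2 ≤ k + cc K := by linarith [h1.1]
    nlinarith
  apply mul_le_mul_of_nonneg_left _ (Real.exp_pos _).le
  rw [← Complex.normSq_eq_norm_sq, Complex.normSq_apply]
  nlinarith [mul_self_nonneg (Y w).re, mul_self_nonneg (Y w).im]

lemma final_ineq {q k C1 X GA G h L LA E om : ℝ} (hq : 1 ≤ q) (hk : q ≤ k) (hk2 : k ≤ 2 * q)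
    (hC1 : 0 < C1) (hom : 0 < om) (hh : 0 < h) (hh1 : h ≤ 1) (hX : X = om / h) (hGA : 0 ≤ GA)
    (hG0 : 0 ≤ G) (hG : G ≤ C1 * om) (hL0 : 0 ≤ L) (hL : L ≤ C1 * (om + om ^ 2)) (hE : 0 ≤ E)
    (hmain : LA + k ^ 2 * E / 200 ≤ 1000 * k * (GA + 2 * G / h) + 1000 * (GA + 2 * G / h) ^ 2 +
      2 * G ^ 2 / h ^ 2 + 2 * L / h) :
    LA + E / 200 ≤
      (2000 * q * (1 + 2 * C1) + 2 * C1 + 1000 * (1 + 2 * C1) ^ 2 + 2 * C1 ^ 2 + 2 * C1 + 3) *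
        (X + GA) +
      (2000 * q * (1 + 2 * C1) + 2 * C1 + 1000 * (1 + 2 * C1) ^ 2 + 2 * C1 ^ 2 + 2 * C1 + 3) *
        (X + GA) ^ 2 := by
  have hX0 : 0 < X := by rw [hX]; positivity
  have homX : om ≤ X := by rw [hX, le_div_iff₀ hh]; nlinarith
  have h1 : G / h ≤ C1 * X := by
    rw [hX, div_le_iff₀ hh]
    calc G ≤ C1 * om := hG
      _ = C1 * (om / h) * h := by field_simp
  have h1' : 0 ≤ G / h := by positivity
  have h2 : L / h ≤ C1 * (X + X ^ 2) := by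
    calc L / h ≤ C1 * (om + om ^ 2) / h := by gcongr
      _ = C1 * (om / h + om * (om / h)) := by field_simp
      _ ≤ C1 * (X + X * X) := by rw [← hX]; gcongr
      _ = _ := by ring
  obtain ⟨B, hB⟩ : ∃ B, B = X + GA := ⟨_, rfl⟩
  have hXB : X ≤ B := by linarith
  have hGB : GA ≤ B := by linarith
  have hB0 : 0 < B := by linarith
  rw [← hB]
  have h3 : GA + 2 * G / h ≤ (1 + 2 * C1) * B := by
    have : 2 * G / h = 2 * (G / h) := by ring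
    rw [this]
    nlinarith
  have h3' : 0 ≤ GA + 2 * G / h := by positivity
  have h4 : 1000 * k * (GA + 2 * G / h) ≤ 2000 * q * (1 + 2 * C1) * B := by
    calc 1000 * k * (GA + 2 * G / h) ≤ 1000 * (2 * q) * ((1 + 2 * C1) * B) := by gcongr
      _ = _ := by ring
  have h5 : 1000 * (GA + 2 * G / h) ^ 2 ≤ 1000 * (1 + 2 * C1) ^ 2 * B ^ 2 := by
    calc 1000 * (GA + 2 * G / h) ^ 2 ≤ 1000 * ((1 + 2 * C1) * B) ^ 2 := by gcongr
      _ = _ := by ring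
  have h6 : 2 * G ^ 2 / h ^ 2 ≤ 2 * C1 ^ 2 * B ^ 2 := by
    calc 2 * G ^ 2 / h ^ 2 = 2 * (G / h) ^ 2 := by ring
      _ ≤ 2 * (C1 * B) ^ 2 := by
        gcongr
        exact h1.trans (by gcongr)
      _ = _ := by ring
  have h7 : 2 * L / h ≤ 2 * C1 * B + 2 * C1 * B ^ 2 := by
    calc 2 * L / h = 2 * (L / h) := by ring
      _ ≤ 2 * (C1 * (B + B ^ 2)) := by
        gcongr
        exact h2.trans (by gcongr)
      _ = _ := by ring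
  have h8 : E / 200 ≤ k ^ 2 * E / 200 := by
    have : 1 ≤ k ^ 2 := by nlinarith
    nlinarith
  have h9 : 0 ≤ 2000 * q * (1 + 2 * C1) * B ^ 2 := by positivity
  have h10 : 0 ≤ 1000 * (1 + 2 * C1) ^ 2 * B := by positivity
  have h11 : 0 ≤ C1 ^ 2 * B := by positivity
  have h12 : 0 ≤ C1 * B := by positivity
  have h13 : 0 ≤ C1 * B ^ 2 := by positivity
  have h14 : 0 ≤ B ^ 2 := by positivity
  linarith

end KEY

open KEY in
/-- PH-KEY: PH-HODO, PH-PPMM, PH-MINPT and PH-ETA at a maximum point. -/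
theorem key {K : ℝ} (hK : 0 < K) : ∃ C : ℝ, 0 < C ∧ ∀ (k ε : ℝ) (Ω : Set ℂ) (g : ℂ → ℂ)
    (A A' : ℂ → ℝ) (z0 : ℂ), k0 K ≤ k → k ≤ 2 * k0 K → 0 ≤ ε → PGrad K Ω g → ball 0 1 ⊆ Ω →
    z0 ∈ ball (0 : ℂ) 1 → g z0 ≠ 0 → S g z0 ≠ 0 → 0 < PP K k ε g z0 →
    (∀ z ∈ ball (0 : ℂ) 1, ε * ‖g z‖ ^ (√K * k / 2) ≤ 1 / 10) →
    (∀ z ∈ ball (0 : ℂ) 1, Real.exp (A z) * (1 - ‖z‖ ^ 2) ^ 2 * PP K k ε g z ≤
        Real.exp (A z0) * (1 - ‖z0‖ ^ 2) ^ 2 * PP K k ε g z0) →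
    (∀ w z : ℂ, z ∈ ball (0 : ℂ) 1 → g z = exp (w.re / √K + w.im * I) → A z = A' w) →
    (∀ w : ℂ, g z0 = exp (w.re / √K + w.im * I) → ContDiffAt ℝ 2 A' w) →
    ∃ (w0 : ℂ) (X : ℝ), g z0 = exp (w0.re / √K + w0.im * I) ∧ 0 < X ∧
      lap A' w0 + ε * Real.exp (k / 2 * w0.re) / 200 ≤
        C * (X + gr A' w0) + C * (X + gr A' w0) ^ 2 ∧
      (1 - ‖z0‖ ^ 2) ^ 2 * PP K k ε g z0 * X ^ 2 ≤
        C * Real.exp ((4 * k - 2 * k0 K) * w0.re) := by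
  obtain ⟨C1, hC1, heta⟩ := eta hK
  have hq := one_le_k0 hK
  refine ⟨2000 * k0 K * (1 + 2 * C1) + 2 * C1 + 1000 * (1 + 2 * C1) ^ 2 + 2 * C1 ^ 2 + 2 * C1 + 3,
    by positivity, ?_⟩
  intro k ε Ω g A A' z0 hk hk2 hε hg hB hz0 hgz hSz hPP hE hmax hAA' hA'
  obtain ⟨W, Z, Y, w0, hH, hw0, hZ0, hW⟩ := hodograph hK hg (hB hz0) hgz hSz
  have hz0' : ‖z0‖ < 1 := by simpa using hz0
  have hη0 : 0 < 1 - ‖z0‖ ^ 2 := by nlinarith [norm_nonneg z0]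
  have hη1 : 1 - ‖z0‖ ^ 2 ≤ 1 := by nlinarith [norm_nonneg z0]
  -- on the part of `W` with `Z w` in the ball
  have hEw : ∀ w ∈ W, Z w ∈ ball (0 : ℂ) 1 → ε * Real.exp (k / 2 * w.re) ≤ 1 / 10 := by
    intro w hw hZw
    have h1 := hE (Z w) hZw
    rwa [(hW w hw).2.1, eps_eq hK] at h1
  have hMM : ∀ w ∈ W, Z w ∈ ball (0 : ℂ) 1 →
      0 < MM K k ε Y w ∧ PP K k ε g (Z w) * MM K k ε Y w = 1 := fun w hw hZw =>
    PP_mul_MM hK (hH.ne w hw) hk hε (hEw w hw hZw) (hW w hw).2.1 (hW w hw).2.2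
  have hgz0 : g z0 = exp (w0.re / √K + w0.im * I) := by
    have := (hW w0 hw0).2.1
    rwa [hZ0] at this
  have hZb : ∀ᶠ w in 𝓝 w0, w ∈ W ∧ Z w ∈ ball (0 : ℂ) 1 := by
    have hc : ContinuousAt Z w0 := (hH.diff w0 hw0).continuousAt
    refine Filter.Eventually.and (hH.isOpen.mem_nhds hw0) ?_
    apply hc.eventually_mem
    rw [hZ0]
    exact isOpen_ball.mem_nhds hz0
  have hw0b : Z w0 ∈ ball (0 : ℂ) 1 := by rw [hZ0]; exact hz0
  obtain ⟨G0, hG0⟩ : ∃ G0, G0 = Real.exp (A z0) * (1 - ‖z0‖ ^ 2) ^ 2 * PP K k ε g z0 := ⟨_, rfl⟩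
  have hG0pos : 0 < G0 := by rw [hG0]; positivity
  have hmain := minpt (A := A') (η := fun w => 1 - ‖Z w‖ ^ 2) (m0 := 1 / G0) hK hk hε hH hw0
    (hEw w0 hw0 hw0b) (hA' w0 hgz0)
    (heta W Z Y hH w0 hw0 (by rw [hZ0]; exact hz0'.le)).1 (by rw [hZ0]; exact hη0)
    (by positivity) (by
      filter_upwards [hZb] with w hw
      obtain ⟨hw, hZw⟩ := hw
      obtain ⟨h1, h2⟩ := hMM w hw hZw
      have h3 := hmax (Z w) hZw
      rw [← hG0, hAA' w (Z w) hZw (hW w hw).2.1] at h3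
      rw [one_div, inv_mul_le_iff₀ hG0pos]
      calc Real.exp (A' w) * (1 - ‖Z w‖ ^ 2) ^ 2
          = (Real.exp (A' w) * (1 - ‖Z w‖ ^ 2) ^ 2 * PP K k ε g (Z w)) * MM K k ε Y w := by
            rw [mul_assoc _ (PP K k ε g (Z w)), h2, mul_one]
        _ ≤ G0 * MM K k ε Y w := by gcongr) (by
      obtain ⟨h1, h2⟩ := hMM w0 hw0 hw0b
      rw [hZ0] at h2
      rw [one_div, inv_mul_eq_iff_eq_mul₀ hG0pos.ne', hZ0, ← hAA' w0 z0 hz0 hgz0, hG0,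
        mul_assoc _ (PP K k ε g z0), h2, mul_one])
  obtain ⟨-, hgr, hlap⟩ := heta W Z Y hH w0 hw0 (by rw [hZ0]; exact hz0'.le)
  have hom := omega_pos (K := K) (hH.ne w0 hw0)
  simp only [hZ0] at hmain
  refine ⟨w0, omega K Y w0 / (1 - ‖z0‖ ^ 2), hgz0, by positivity, ?_, ?_⟩
  · exact final_ineq hq hk hk2 hC1 hom hη0 hη1 rfl (Real.sqrt_nonneg _) (Real.sqrt_nonneg _) hgr
      (abs_nonneg _) hlap (by positivity) hmain
  · have h1 := hMM w0 hw0 hw0b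
    rw [hZ0] at h1
    have h2 := MM_ge hK hk hε Y w0 (hEw w0 hw0 hw0b)
    have hY : 0 < ‖Y w0‖ := norm_pos_iff.2 (hH.ne w0 hw0)
    have h3 : (1 - ‖z0‖ ^ 2) ^ 2 * PP K k ε g z0 * (omega K Y w0 / (1 - ‖z0‖ ^ 2)) ^ 2 =
        PP K k ε g z0 * omega K Y w0 ^ 2 := by
      field_simp
    rw [h3, omega, mul_pow, ← Real.exp_nat_mul]
    have h4 : PP K k ε g z0 * (Real.exp (-4 * k * w0.re) * (9 / 20 * ‖Y w0‖ ^ 2)) ≤ 1 := by
      rw [← h1.2]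
      gcongr
    have h5 : Real.exp ((4 * k - 2 * k0 K) * w0.re) = Real.exp (4 * k * w0.re) *
        Real.exp ((2 : ℕ) * (-k0 K * w0.re)) := by
      rw [← Real.exp_add]
      congr 1
      push_cast
      ring
    have h6 : Real.exp (4 * k * w0.re) * Real.exp (-4 * k * w0.re) = 1 := by
      rw [← Real.exp_add]
      simp
    rw [h5]
    have h7 : PP K k ε g z0 * ‖Y w0‖ ^ 2 ≤ 3 * Real.exp (4 * k * w0.re) := by
      have h8 : PP K k ε g z0 * ‖Y w0‖ ^ 2 = 20 / 9 * (PP K k ε g z0 *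
          (Real.exp (-4 * k * w0.re) * (9 / 20 * ‖Y w0‖ ^ 2))) * Real.exp (4 * k * w0.re) := by
        linear_combination (-(PP K k ε g z0 * ‖Y w0‖ ^ 2)) * h6
      rw [h8]
      have : 0 < Real.exp (4 * k * w0.re) := Real.exp_pos _
      nlinarith
    have h9 : 3 ≤ 2000 * k0 K * (1 + 2 * C1) + 2 * C1 + 1000 * (1 + 2 * C1) ^ 2 + 2 * C1 ^ 2 +
        2 * C1 + 3 := by
      have : 0 ≤ 2000 * k0 K * (1 + 2 * C1) := by positivity
      have : 0 ≤ 1000 * (1 + 2 * C1) ^ 2 := by positivity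
      have : 0 ≤ 2 * C1 ^ 2 := by positivity
      linarith
    calc PP K k ε g z0 * (Real.exp ((2 : ℕ) * (-k0 K * w0.re)) * ‖Y w0‖ ^ 2)
        = (PP K k ε g z0 * ‖Y w0‖ ^ 2) * Real.exp ((2 : ℕ) * (-k0 K * w0.re)) := by ring
      _ ≤ (3 * Real.exp (4 * k * w0.re)) * Real.exp ((2 : ℕ) * (-k0 K * w0.re)) := by gcongr
      _ = 3 * (Real.exp (4 * k * w0.re) * Real.exp ((2 : ℕ) * (-k0 K * w0.re))) := by ring
      _ ≤ _ := by gcongr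

end Pool.Agent.H74.PH
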