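import Pool.Agent.H74.PH.Defs

/-! PH-LAPMIN: necessary conditions at a local minimum -/

set_option autoImplicit false

open Complex MeasureTheory Set Filter Topology Metric
open scoped ContDiff RealInnerProductSpace

namespace Pool.Agent.H74.PH

namespace LAPMIN

theorem second_nonneg {φ : ℝ → ℝ} (hmin : IsLocalMin φ 0) (hc : ContinuousAt φ 0) :
    0 ≤ deriv (deriv φ) 0 := by
  by_contra h
  push Not at h
  have hd : deriv φ 0 = 0 := hmin.deriv_eq_zero
  have hmax : IsLocalMax φ 0 := isLocalMax_of_deriv_deriv_neg h hd hc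
  have hev : φ =ᶠ[𝓝 0] fun _ => φ 0 := by
    filter_upwards [hmin, hmax] with t h1 h2
    exact le_antisymm h2 h1
  have h2 : deriv φ =ᶠ[𝓝 0] fun _ => (0 : ℝ) := by
    refine (hev.deriv).trans ?_
    simp
  have h3 := h2.deriv_eq
  rw [deriv_const] at h3
  linarith

theorem ev_diff {f : ℂ → ℝ} {w : ℂ} (hf : ContDiffAt ℝ 2 f w) : ∀ᶠ z in 𝓝 w, DifferentiableAt ℝ f z :=
  (hf.eventually (by simp)).mono fun _ hz => hz.differentiableAt (by norm_num)

theorem diff_fderiv {f : ℂ → ℝ} {w : ℂ} (hf : ContDiffAt ℝ 2 f w) (e : ℂ) :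
    DifferentiableAt ℝ (fun z => fderiv ℝ f z e) w := by
  have h1 : ContDiffAt ℝ 1 (fderiv ℝ f) w := hf.fderiv_right (by norm_num)
  exact (h1.differentiableAt (by norm_num)).clm_apply (differentiableAt_const e)

theorem dir {f h : ℂ → ℝ} {w : ℂ} (hf : ContDiffAt ℝ 2 f w) (hh : ContDiffAt ℝ 2 h w)
    (hle : ∀ᶠ x in 𝓝 w, f x ≤ h x) (heq : f w = h w) (e : ℂ) :
    fderiv ℝ f w e = fderiv ℝ h w e ∧
      fderiv ℝ (fun z => fderiv ℝ f z e) w e ≤ fderiv ℝ (fun z => fderiv ℝ h z e) w e := by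
  have hmin : IsLocalMin (fun z => h z - f z) w := by
    filter_upwards [hle] with z hz
    rw [heq, sub_self]
    linarith
  have hdf := hf.differentiableAt (by norm_num : (2 : WithTop ℕ∞) ≠ 0)
  have hdh := hh.differentiableAt (by norm_num : (2 : WithTop ℕ∞) ≠ 0)
  have h0 := hmin.fderiv_eq_zero
  rw [fderiv_fun_sub hdh hdf] at h0
  have h1 : fderiv ℝ f w e = fderiv ℝ h w e := by
    have := DFunLike.congr_fun h0 e
    simp only [ContinuousLinearMap.sub_apply, ContinuousLinearMap.zero_apply] at this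
    linarith
  refine ⟨h1, ?_⟩
  -- the line
  have hl : ∀ s : ℝ, HasDerivAt (fun s : ℝ => w + s • e) e s := fun s => by
    have := ((hasDerivAt_id s).smul_const e).const_add w
    simpa using this
  have hlc : Continuous (fun s : ℝ => w + s • e) := by fun_prop
  have ht : Tendsto (fun s : ℝ => w + s • e) (𝓝 0) (𝓝 w) := by
    have := hlc.tendsto 0
    simpa using this
  set φ : ℝ → ℝ := fun s => h (w + s • e) - f (w + s • e) with hφ
  have hφmin : IsLocalMin φ 0 := by
    have h2 := ht.eventually hmin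
    filter_upwards [h2] with s hs
    rw [hφ]
    simp only [zero_smul, add_zero]
    exact hs
  have hφc : ContinuousAt φ 0 := by
    have h2 : ContinuousAt (fun z => h z - f z) (w + (0:ℝ) • e) := by
      rw [zero_smul, add_zero]
      exact hdh.continuousAt.sub hdf.continuousAt
    exact ContinuousAt.comp (f := fun s : ℝ => w + s • e) (g := fun z => h z - f z) h2 hlc.continuousAt
  have h3 := second_nonneg hφmin hφc
  have h4 : deriv φ =ᶠ[𝓝 0] fun s => fderiv ℝ h (w + s • e) e - fderiv ℝ f (w + s • e) e := by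
    filter_upwards [ht.eventually (ev_diff hf), ht.eventually (ev_diff hh)] with s hs1 hs2
    have i1 := hs2.hasFDerivAt.comp_hasDerivAt s (hl s)
    have i2 := hs1.hasFDerivAt.comp_hasDerivAt s (hl s)
    exact (i1.sub i2).deriv
  have h5 : HasDerivAt (fun s : ℝ => fderiv ℝ h (w + s • e) e - fderiv ℝ f (w + s • e) e)
      (fderiv ℝ (fun z => fderiv ℝ h z e) w e - fderiv ℝ (fun z => fderiv ℝ f z e) w e) 0 := by
    have k1 : HasFDerivAt (fun z => fderiv ℝ h z e) (fderiv ℝ (fun z => fderiv ℝ h z e) w) (w + (0:ℝ) • e) := by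
      rw [zero_smul, add_zero]
      exact (diff_fderiv hh e).hasFDerivAt
    have k2 : HasFDerivAt (fun z => fderiv ℝ f z e) (fderiv ℝ (fun z => fderiv ℝ f z e) w) (w + (0:ℝ) • e) := by
      rw [zero_smul, add_zero]
      exact (diff_fderiv hf e).hasFDerivAt
    exact (k1.comp_hasDerivAt (0:ℝ) (hl 0)).sub (k2.comp_hasDerivAt (0:ℝ) (hl 0))
  rw [h4.deriv_eq, h5.deriv] at h3
  linarith

end LAPMIN

theorem lap_min {f h : ℂ → ℝ} {w : ℂ} (hf : ContDiffAt ℝ 2 f w) (hh : ContDiffAt ℝ 2 h w)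
    (hle : ∀ᶠ x in 𝓝 w, f x ≤ h x) (heq : f w = h w) :
    d1 f w = d1 h w ∧ d2 f w = d2 h w ∧ lap f w ≤ lap h w := by
  have h1 := LAPMIN.dir hf hh hle heq 1
  have h2 := LAPMIN.dir hf hh hle heq I
  exact ⟨h1.1, h2.1, add_le_add h1.2 h2.2⟩

end Pool.Agent.H74.PH
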