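import Pool.Agent.H74.PH.Defs

set_option autoImplicit false

open Complex MeasureTheory Set Filter Topology Metric
open scoped ContDiff RealInnerProductSpace

namespace Pool.Agent.H74.PH

theorem d12_eq_d21_lapy {f : ℂ → ℝ} {w : ℂ} (hf : ContDiffAt ℝ 2 f w) :
    d1 (d2 f) w = d2 (d1 f) w := by
  have hsymm : IsSymmSndFDerivAt ℝ f w := hf.isSymmSndFDerivAt (by simp)
  have hd : DifferentiableAt ℝ (fderiv ℝ f) w :=
    (hf.fderiv_right (m := 1) (by norm_num)).differentiableAt (by norm_num)
  have e1 : ∀ v u : ℂ, fderiv ℝ (fun x => fderiv ℝ f x v) w u = fderiv ℝ (fderiv ℝ f) w u v := by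
    intro v u
    have := (hd.hasFDerivAt.clm_apply (hasFDerivAt_const v w)).fderiv
    rw [this]
    simp
  unfold d1 d2
  rw [e1, e1]
  exact hsymm 1 I

theorem lapY {K : ℝ} (_hK : 0 < K) {W : Set ℂ} {Z Y : ℂ → ℂ} (h : Hodo K W Z Y) {w : ℂ}
    (hw : w ∈ W) :
    lap (fun w => (Y w).re) w = 4 * cc K ^ 2 * (Y w).re ∧
    lap (fun w => (Y w).im) w = 4 * cc K ^ 2 * (Y w).im := by
  have hYd : ∀ x ∈ W, DifferentiableAt ℝ Y x := fun x hx =>
    (h.smooth x hx).differentiableAt (by norm_num)
  have hre : ∀ x ∈ W, ContDiffAt ℝ 2 (fun w => (Y w).re) x := fun x hx =>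
    Complex.reCLM.contDiff.contDiffAt.comp x (h.smooth x hx)
  have him : ∀ x ∈ W, ContDiffAt ℝ 2 (fun w => (Y w).im) x := fun x hx =>
    Complex.imCLM.contDiff.contDiffAt.comp x (h.smooth x hx)
  have dre : ∀ x ∈ W, ∀ v, fderiv ℝ (fun w => (Y w).re) x v = (fderiv ℝ Y x v).re := by
    intro x hx v
    have := (Complex.reCLM.hasFDerivAt.comp x (hYd x hx).hasFDerivAt).fderiv
    have e : (fun w => (Y w).re) = (⇑Complex.reCLM ∘ Y) := rfl
    rw [e, this]; rfl
  have dim : ∀ x ∈ W, ∀ v, fderiv ℝ (fun w => (Y w).im) x v = (fderiv ℝ Y x v).im := by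
    intro x hx v
    have := (Complex.imCLM.hasFDerivAt.comp x (hYd x hx).hasFDerivAt).fderiv
    have e : (fun w => (Y w).im) = (⇑Complex.imCLM ∘ Y) := rfl
    rw [e, this]; rfl
  have hWn : W ∈ 𝓝 w := h.isOpen.mem_nhds hw
  -- the first order system for the real functions
  have s1 : ∀ x ∈ W, d1 (fun w => (Y w).re) x =
      d2 (fun w => (Y w).im) x + 2 * cc K * (Y x).re := by
    intro x hx
    have := h.sys1 x hx
    simp only [d1, d2, dre x hx, dim x hx]; linarith
  have s2 : ∀ x ∈ W, d1 (fun w => (Y w).im) x =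
      -2 * cc K * (Y x).im - d2 (fun w => (Y w).re) x := by
    intro x hx
    have := h.sys2 x hx
    simp only [d1, d2, dre x hx, dim x hx]; linarith
  have s3 : ∀ x ∈ W, d2 (fun w => (Y w).im) x =
      d1 (fun w => (Y w).re) x - 2 * cc K * (Y x).re := by
    intro x hx; rw [s1 x hx]; ring
  have s4 : ∀ x ∈ W, d2 (fun w => (Y w).re) x =
      -2 * cc K * (Y x).im - d1 (fun w => (Y w).im) x := by
    intro x hx; rw [s2 x hx]; ring
  -- differentiability of the first derivatives
  have hdd : ∀ {f : ℂ → ℝ}, ContDiffAt ℝ 2 f w → ∀ v : ℂ,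
      DifferentiableAt ℝ (fun x => fderiv ℝ f x v) w := by
    intro f hf v
    have hd : DifferentiableAt ℝ (fderiv ℝ f) w :=
      (hf.fderiv_right (m := 1) (by norm_num)).differentiableAt (by norm_num)
    exact hd.clm_apply (differentiableAt_const v)
  have hA := hre w hw
  have hB := him w hw
  have hAd : DifferentiableAt ℝ (fun w => (Y w).re) w := hA.differentiableAt (by norm_num)
  have hBd : DifferentiableAt ℝ (fun w => (Y w).im) w := hB.differentiableAt (by norm_num)
  have ev : ∀ {f g : ℂ → ℝ}, (∀ x ∈ W, f x = g x) → ∀ v, fderiv ℝ f w v = fderiv ℝ g w v := by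
    intro f g hfg v
    have : f =ᶠ[𝓝 w] g := Filter.eventually_of_mem hWn hfg
    rw [this.fderiv_eq]
  have ad : ∀ {f g : ℂ → ℝ} (c : ℝ), DifferentiableAt ℝ f w → DifferentiableAt ℝ g w → ∀ v,
      fderiv ℝ (fun x => f x + c * g x) w v = fderiv ℝ f w v + c * fderiv ℝ g w v := by
    intro f g c hf hg v
    have := (hf.hasFDerivAt.add (hg.hasFDerivAt.const_mul c)).fderiv
    have e : (fun x => f x + c * g x) = (f + fun x => c * g x) := rfl
    rw [e, this]
    simp
  constructor
  · have e1 : d1 (d1 (fun w => (Y w).re)) w =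
        d1 (d2 (fun w => (Y w).im)) w + 2 * cc K * d1 (fun w => (Y w).re) w := by
      have := ev (f := d1 (fun w => (Y w).re))
        (g := fun x => d2 (fun w => (Y w).im) x + 2 * cc K * (Y x).re) s1 1
      rw [d1, this]
      exact ad (f := d2 (fun w => (Y w).im)) (2 * cc K) (hdd hB I) hAd 1
    have e2 : d2 (d2 (fun w => (Y w).re)) w =
        - d2 (d1 (fun w => (Y w).im)) w + -2 * cc K * d2 (fun w => (Y w).im) w := by
      have := ev (f := d2 (fun w => (Y w).re))
        (g := fun x => (fun x => - d1 (fun w => (Y w).im) x) x + (-2 * cc K) * (Y x).im)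
        (fun x hx => by rw [s4 x hx]; ring) I
      have hneg : DifferentiableAt ℝ (fun x => - d1 (fun w => (Y w).im) x) w :=
        (hdd hB 1).neg
      rw [d2, this, ad (-2 * cc K) hneg hBd]
      congr 1
      have e : (fun x => - d1 (fun w => (Y w).im) x) = - d1 (fun w => (Y w).im) := rfl
      rw [e, fderiv_neg]; rfl
    have e3 := d12_eq_d21_lapy hB
    have e4 := s3 w hw
    rw [lap, e1, e2, e3, e4]; ring
  · have e1 : d1 (d1 (fun w => (Y w).im)) w =
        - d1 (d2 (fun w => (Y w).re)) w + -2 * cc K * d1 (fun w => (Y w).im) w := by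
      have := ev (f := d1 (fun w => (Y w).im))
        (g := fun x => (fun x => - d2 (fun w => (Y w).re) x) x + (-2 * cc K) * (Y x).im)
        (fun x hx => by rw [s2 x hx]; ring) 1
      have hneg : DifferentiableAt ℝ (fun x => - d2 (fun w => (Y w).re) x) w :=
        (hdd hA I).neg
      rw [d1, this, ad (-2 * cc K) hneg hBd]
      congr 1
      have e : (fun x => - d2 (fun w => (Y w).re) x) = - d2 (fun w => (Y w).re) := rfl
      rw [e, fderiv_neg]; rfl
    have e2 : d2 (d2 (fun w => (Y w).im)) w =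
        d2 (d1 (fun w => (Y w).re)) w + -(2 * cc K) * d2 (fun w => (Y w).re) w := by
      have := ev (f := d2 (fun w => (Y w).im))
        (g := fun x => d1 (fun w => (Y w).re) x + (-(2 * cc K)) * (Y x).re)
        (fun x hx => by rw [s3 x hx]; ring) I
      rw [d2, this]
      exact ad (f := d1 (fun w => (Y w).re)) (-(2 * cc K)) (hdd hA 1) hAd I
    have e3 := d12_eq_d21_lapy hA
    have e4 := s4 w hw
    rw [lap, e1, e2, e3, e4]; ring

end Pool.Agent.H74.PH
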