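import Pool.Agent.H74.PH.Stubs

set_option autoImplicit false

open Complex MeasureTheory Set Filter Topology Metric
open scoped ContDiff RealInnerProductSpace

namespace Pool.Agent.H74.PH

namespace MINPT

theorem d1_smul (c : ℝ) (f : ℂ → ℝ) : d1 (c • f) = c • d1 f := by
  funext w
  show fderiv ℝ (c • f) w 1 = c * fderiv ℝ f w 1
  rw [fderiv_const_smul_field]
  rfl

theorem d2_smul (c : ℝ) (f : ℂ → ℝ) : d2 (c • f) = c • d2 f := by
  funext w
  show fderiv ℝ (c • f) w I = c * fderiv ℝ f w I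
  rw [fderiv_const_smul_field]
  rfl

theorem lap_smul (c : ℝ) (f : ℂ → ℝ) (w : ℂ) : lap (c • f) w = c * lap f w := by
  simp only [lap, d1_smul, d2_smul, Pi.smul_apply, smul_eq_mul]
  ring

end MINPT

theorem cc_le_k0 {K : ℝ} (hK : 0 < K) : |cc K| ≤ k0 K / 2 := by
  have h1 : 0 < √K := Real.sqrt_pos.mpr hK
  have h2 : 0 < 1 / √K := by positivity
  unfold cc k0
  rw [abs_le]
  constructor <;> linarith

theorem k0_pos {K : ℝ} (hK : 0 < K) : 0 < k0 K := by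
  have h1 : 0 < √K := Real.sqrt_pos.mpr hK
  unfold k0; positivity

/-- PH-MINPT -/
theorem minpt_proof {K k ε : ℝ} (hK : 0 < K) (hk : k0 K ≤ k) (hε : 0 ≤ ε) {W : Set ℂ} {Z Y : ℂ → ℂ}
    (hH : Hodo K W Z Y) {w0 : ℂ} (hw : w0 ∈ W) (hE : ε * Real.exp (k / 2 * w0.re) ≤ 1 / 10)
    {A η : ℂ → ℝ} (hA : ContDiffAt ℝ 2 A w0) (hη : ContDiffAt ℝ 2 η w0) (h0 : 0 < η w0)
    {m0 : ℝ} (hm0 : 0 < m0)
    (hle : ∀ᶠ w in 𝓝 w0, m0 * (Real.exp (A w) * η w ^ 2) ≤ MM K k ε Y w)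
    (heq : m0 * (Real.exp (A w0) * η w0 ^ 2) = MM K k ε Y w0) :
    lap A w0 + k ^ 2 * (ε * Real.exp (k / 2 * w0.re)) / 200 ≤
      1000 * k * (gr A w0 + 2 * gr η w0 / η w0) + 1000 * (gr A w0 + 2 * gr η w0 / η w0) ^ 2 +
      2 * gr η w0 ^ 2 / η w0 ^ 2 + 2 * |lap η w0| / η w0 := by
  have hkpos : 0 < k := (k0_pos hK).trans_le hk
  have hc : |cc K| ≤ k / 2 := (cc_le_k0 hK).trans (by linarith)
  obtain ⟨hNc, hN1, hN2⟩ := nexp hA hη h0
  obtain ⟨hre, him⟩ := lapY hK hH hw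
  obtain ⟨hMc, hM1, hM2, hM3⟩ := MM_deriv (k := k) (ε := ε) hK hH hw hre him
  have hY := hH.ne w0 hw
  have hab : 0 < (Y w0).re ^ 2 + (Y w0).im ^ 2 := by
    have : 0 < normSq (Y w0) := normSq_pos.mpr hY
    rw [normSq_apply] at this; nlinarith
  have hE0 : 0 ≤ ε * Real.exp (k / 2 * w0.re) := by positivity
  have hcore := core (k := k) (c := cc K) (E := ε * Real.exp (k / 2 * w0.re))
    (a := (Y w0).re) (b := (Y w0).im) (x := (fderiv ℝ Y w0 1).re) (y := (fderiv ℝ Y w0 I).re)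
    hkpos hc hE0 hE hab
  set N : ℂ → ℝ := fun w => Real.exp (A w) * η w ^ 2 with hN
  have hfc : ContDiffAt ℝ 2 (m0 • N) w0 := hNc.const_smul m0
  obtain ⟨e1, e2, e3⟩ := lap_min hfc hMc hle heq
  rw [MINPT.lap_smul] at e3
  rw [MINPT.d1_smul] at e1
  rw [MINPT.d2_smul] at e2
  simp only [Pi.smul_apply, smul_eq_mul] at e1 e2
  have hN0 : 0 < N w0 := by rw [hN]; positivity
  rw [hM1] at e1
  rw [hM2] at e2
  rw [hM3] at e3
  have hMM : MM K k ε Y w0 = Real.exp (-4 * k * w0.re) *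
      m k (cc K) (ε * Real.exp (k / 2 * w0.re)) (Y w0).re (Y w0).im := rfl
  rw [hMM] at heq
  set e := Real.exp (-4 * k * w0.re) with he
  have hepos : 0 < e := Real.exp_pos _
  set E := ε * Real.exp (k / 2 * w0.re) with hEdef
  set μ := m k (cc K) E (Y w0).re (Y w0).im with hμ
  set V1 := v1 k (cc K) E (Y w0).re (Y w0).im (fderiv ℝ Y w0 1).re (fderiv ℝ Y w0 I).re with hV1
  set V2 := v2 k (cc K) E (Y w0).re (Y w0).im (fderiv ℝ Y w0 1).re (fderiv ℝ Y w0 I).re with hV2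
  set L := Lap k (cc K) E (Y w0).re (Y w0).im (fderiv ℝ Y w0 1).re (fderiv ℝ Y w0 I).re with hL
  have heq' : m0 * N w0 = e * μ := heq
  have hμpos : 0 < μ := by
    have : 0 < e * μ := by rw [← heq']; positivity
    exact (mul_pos_iff_of_pos_left hepos).mp this
  have hg : gr N w0 = e / m0 * √(V1 ^ 2 + V2 ^ 2) := by
    have h1 : d1 N w0 = e / m0 * V1 := by
      field_simp; linarith
    have h2 : d2 N w0 = e / m0 * V2 := by
      field_simp; linarith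
    rw [gr, h1, h2, show (e / m0 * V1) ^ 2 + (e / m0 * V2) ^ 2 = (e / m0) ^ 2 * (V1 ^ 2 + V2 ^ 2) by
      ring, Real.sqrt_mul (by positivity), Real.sqrt_sq (by positivity)]
  set G := √(V1 ^ 2 + V2 ^ 2) with hG
  have hG2 : V1 ^ 2 + V2 ^ 2 = G ^ 2 := (Real.sq_sqrt (by positivity)).symm
  rw [hG2] at hcore
  have hgN : gr N w0 / N w0 = G / μ := by
    rw [hg, div_mul_eq_mul_div, div_div, heq', mul_div_mul_left _ _ hepos.ne']
  have hlap : lap N w0 / N w0 ≤ L / μ := by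
    rw [div_le_div_iff₀ hN0 hμpos]
    have h1 : lap N w0 * μ * (m0 * e) ≤ L * N w0 * (m0 * e) := by
      calc lap N w0 * μ * (m0 * e) = (m0 * lap N w0) * (e * μ) := by ring
        _ ≤ (e * L) * (e * μ) := by gcongr
        _ = (e * L) * (m0 * N w0) := by rw [heq']
        _ = L * N w0 * (m0 * e) := by ring
    exact le_of_mul_le_mul_right h1 (by positivity)
  have hfin : L / μ ≤ -(k ^ 2 * E / 200) + 1000 * k * (G / μ) + 1000 * (G / μ) ^ 2 := by
    rw [div_le_iff₀ hμpos]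
    refine hcore.trans (le_of_eq ?_)
    field_simp
  set r := gr A w0 + 2 * gr η w0 / η w0 with hr
  rw [← hgN] at hfin
  have hx0 : 0 ≤ gr N w0 / N w0 := by
    rw [gr]; positivity
  have h5 : (gr N w0 / N w0) ^ 2 ≤ r ^ 2 := by
    have : gr N w0 / N w0 ≤ r := hN1
    gcongr
  have h6 : 1000 * k * (gr N w0 / N w0) ≤ 1000 * k * r := by
    have : gr N w0 / N w0 ≤ r := hN1
    gcongr
  have h7 : lap A w0 - 2 * gr η w0 ^ 2 / η w0 ^ 2 - 2 * |lap η w0| / η w0 ≤ lap N w0 / N w0 := hN2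
  linarith

end Pool.Agent.H74.PH
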