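import Pool.Agent.H74.PH.Defs

set_option autoImplicit false

open Complex MeasureTheory Set Filter Topology Metric
open scoped ContDiff RealInnerProductSpace

namespace Pool.Agent.H74.PH

namespace MMH

theorem dd1 {F : ℂ → ℝ} {w : ℂ} (hF : ContDiffAt ℝ 2 F w) (v : ℂ) :
    DifferentiableAt ℝ (fun x => fderiv ℝ F x v) w := by
  have h1 : ContDiffAt ℝ 1 (fderiv ℝ F) w := hF.fderiv_right (by norm_num)
  have h2 : ContDiffAt ℝ 1 (fun x => fderiv ℝ F x v) w := h1.clm_apply contDiffAt_const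
  exact h2.differentiableAt (by norm_num)

theorem ev {F : ℂ → ℝ} {w : ℂ} (hF : ContDiffAt ℝ 2 F w) :
    ∀ᶠ x in 𝓝 w, DifferentiableAt ℝ F x := by
  filter_upwards [hF.eventually (by norm_num)] with x h1
  exact h1.differentiableAt (by norm_num)

/-- second derivatives in one direction of a sum -/
theorem add2 {F G : ℂ → ℝ} {w : ℂ} (hF : ContDiffAt ℝ 2 F w) (hG : ContDiffAt ℝ 2 G w) (v : ℂ) :
    fderiv ℝ (fun w => F w + G w) w v = fderiv ℝ F w v + fderiv ℝ G w v ∧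
    fderiv ℝ (fun x => fderiv ℝ (fun w => F w + G w) x v) w v =
      fderiv ℝ (fun x => fderiv ℝ F x v) w v + fderiv ℝ (fun x => fderiv ℝ G x v) w v := by
  have e : ∀ᶠ x in 𝓝 w, fderiv ℝ (fun w => F w + G w) x v = fderiv ℝ F x v + fderiv ℝ G x v := by
    filter_upwards [ev hF, ev hG] with x h1 h2
    rw [fderiv_fun_add h1 h2]
    rfl
  refine ⟨e.self_of_nhds, ?_⟩
  rw [Filter.EventuallyEq.fderiv_eq e, fderiv_fun_add (dd1 hF v) (dd1 hG v)]
  rfl

theorem mul2 {F : ℂ → ℝ} {w : ℂ} (hF : ContDiffAt ℝ 2 F w) (c : ℝ) (v : ℂ) :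
    fderiv ℝ (fun w => c * F w) w v = c * fderiv ℝ F w v ∧
    fderiv ℝ (fun x => fderiv ℝ (fun w => c * F w) x v) w v =
      c * fderiv ℝ (fun x => fderiv ℝ F x v) w v := by
  have e : ∀ᶠ x in 𝓝 w, fderiv ℝ (fun w => c * F w) x v = c * fderiv ℝ F x v := by
    filter_upwards [ev hF] with x h1
    rw [fderiv_const_mul h1]
    rfl
  refine ⟨e.self_of_nhds, ?_⟩
  rw [Filter.EventuallyEq.fderiv_eq e, fderiv_const_mul (dd1 hF v)]
  rfl

theorem hexp (μ : ℝ) (w : ℂ) : HasFDerivAt (fun w : ℂ => Real.exp (μ * w.re))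
    (Real.exp (μ * w.re) • (μ • reCLM)) w := by
  have h1 : HasFDerivAt (fun w : ℂ => μ * w.re) (μ • reCLM) w :=
    (reCLM.hasFDerivAt (x := w)).const_mul μ
  exact h1.exp

/-- one term -/
theorem term {f : ℂ → ℝ} {w : ℂ} (hf : ContDiffAt ℝ 2 f w) (μ : ℝ) (v : ℂ) :
    fderiv ℝ (fun w : ℂ => Real.exp (μ * w.re) * f w ^ 2) w v =
      Real.exp (μ * w.re) * (μ * v.re * f w ^ 2 + 2 * f w * fderiv ℝ f w v) ∧
    fderiv ℝ (fun x => fderiv ℝ (fun w : ℂ => Real.exp (μ * w.re) * f w ^ 2) x v) w v =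
      Real.exp (μ * w.re) * ((μ * v.re) ^ 2 * f w ^ 2 + 4 * (μ * v.re) * f w * fderiv ℝ f w v +
        2 * (fderiv ℝ f w v) ^ 2 + 2 * f w * fderiv ℝ (fun x => fderiv ℝ f x v) w v) := by
  have e : ∀ᶠ x in 𝓝 w, fderiv ℝ (fun w : ℂ => Real.exp (μ * w.re) * f w ^ 2) x v =
      Real.exp (μ * x.re) * (μ * v.re * f x ^ 2 + 2 * f x * fderiv ℝ f x v) := by
    filter_upwards [ev hf] with x h1
    have h2 : HasFDerivAt (fun w : ℂ => Real.exp (μ * w.re) * f w ^ 2) _ x :=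
      (hexp μ x).mul (h1.hasFDerivAt.pow 2)
    rw [h2.fderiv]
    simp
    ring
  refine ⟨e.self_of_nhds, ?_⟩
  rw [Filter.EventuallyEq.fderiv_eq e]
  have hf1 := (ev hf).self_of_nhds
  have h2 : HasFDerivAt (fun x : ℂ => Real.exp (μ * x.re) * (μ * v.re * f x ^ 2 +
      2 * f x * fderiv ℝ f x v)) _ w :=
    (hexp μ w).mul ((((hf1.hasFDerivAt.pow 2).const_mul (μ * v.re)).add
    ((hf1.hasFDerivAt.const_mul 2).mul (dd1 hf v).hasFDerivAt)))
  rw [h2.fderiv]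
  simp
  ring

theorem term_smooth {f : ℂ → ℝ} {w : ℂ} (hf : ContDiffAt ℝ 2 f w) (μ : ℝ) :
    ContDiffAt ℝ 2 (fun w : ℂ => Real.exp (μ * w.re) * f w ^ 2) w := by
  have hre : ContDiff ℝ 2 (fun w : ℂ => w.re) := reCLM.contDiff
  exact (Real.contDiff_exp.comp (contDiff_const.mul hre)).contDiffAt.mul (hf.pow 2)

end MMH

open MMH in
/-- PH-MMDER: derivatives of `M` (uses PH-LAPY, as a hypothesis here). -/
theorem MM_deriv {K k ε : ℝ} (hK : 0 < K) {W : Set ℂ} {Z Y : ℂ → ℂ} (h : Hodo K W Z Y) {w : ℂ}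
    (hw : w ∈ W)
    (hre : lap (fun w => (Y w).re) w = 4 * cc K ^ 2 * (Y w).re)
    (him : lap (fun w => (Y w).im) w = 4 * cc K ^ 2 * (Y w).im) :
    ContDiffAt ℝ 2 (MM K k ε Y) w ∧
    d1 (MM K k ε Y) w = Real.exp (-4 * k * w.re) *
      v1 k (cc K) (ε * Real.exp (k / 2 * w.re)) (Y w).re (Y w).im
        (fderiv ℝ Y w 1).re (fderiv ℝ Y w I).re ∧
    d2 (MM K k ε Y) w = Real.exp (-4 * k * w.re) *
      v2 k (cc K) (ε * Real.exp (k / 2 * w.re)) (Y w).re (Y w).im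
        (fderiv ℝ Y w 1).re (fderiv ℝ Y w I).re ∧
    lap (MM K k ε Y) w = Real.exp (-4 * k * w.re) *
      Lap k (cc K) (ε * Real.exp (k / 2 * w.re)) (Y w).re (Y w).im
        (fderiv ℝ Y w 1).re (fderiv ℝ Y w I).re := by
  have hY := h.smooth w hw
  obtain ⟨a, ha⟩ : ∃ a : ℂ → ℝ, a = fun w => (Y w).re := ⟨_, rfl⟩
  obtain ⟨b, hb⟩ : ∃ b : ℂ → ℝ, b = fun w => (Y w).im := ⟨_, rfl⟩
  obtain ⟨c, hc⟩ : ∃ c, c = cc K := ⟨_, rfl⟩
  rw [← ha] at hre
  rw [← hb] at him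
  have haw : (Y w).re = a w := by rw [ha]
  have hbw : (Y w).im = b w := by rw [hb]
  rw [haw] at hre
  rw [hbw] at him
  have hYd : HasFDerivAt Y (fderiv ℝ Y w) w := (hY.differentiableAt (by norm_num)).hasFDerivAt
  have ha2 : ContDiffAt ℝ 2 a w := by
    rw [ha]
    exact reCLM.contDiff.contDiffAt.comp w hY
  have hb2 : ContDiffAt ℝ 2 b w := by
    rw [hb]
    exact imCLM.contDiff.contDiffAt.comp w hY
  have hda : ∀ v, fderiv ℝ a w v = (fderiv ℝ Y w v).re := by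
    intro v
    have h1 : HasFDerivAt a (reCLM.comp (fderiv ℝ Y w)) w := by
      rw [ha]
      exact reCLM.hasFDerivAt.comp w hYd
    rw [h1.fderiv]
    rfl
  have hdb : ∀ v, fderiv ℝ b w v = (fderiv ℝ Y w v).im := by
    intro v
    have h1 : HasFDerivAt b (imCLM.comp (fderiv ℝ Y w)) w := by
      rw [hb]
      exact imCLM.hasFDerivAt.comp w hYd
    rw [h1.fderiv]
    rfl
  obtain ⟨x, hx⟩ : ∃ x, x = (fderiv ℝ Y w 1).re := ⟨_, rfl⟩
  obtain ⟨y, hy⟩ : ∃ y, y = (fderiv ℝ Y w I).re := ⟨_, rfl⟩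
  have ex : fderiv ℝ a w 1 = x := by rw [hda, hx]
  have ey : fderiv ℝ a w I = y := by rw [hda, hy]
  have s1 := h.sys1 w hw
  have s2 := h.sys2 w hw
  rw [← hx, ← hc, haw] at s1
  rw [← hy, ← hc, hbw] at s2
  have ebx : fderiv ℝ b w 1 = -y - 2 * c * b w := by rw [hdb]; linarith
  have eby : fderiv ℝ b w I = x - 2 * c * a w := by rw [hdb]; linarith
  rw [haw, hbw, ← hx, ← hy, ← hc]
  rw [← hc] at hre him
  -- the function as a sum
  have hMM : MM K k ε Y = fun w => ((k - c) * (Real.exp (-4 * k * w.re) * a w ^ 2) +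
      ε * (k / 8 - (k - c)) * (Real.exp ((-4 * k + k / 2) * w.re) * a w ^ 2)) +
      ((k + c) * (Real.exp (-4 * k * w.re) * b w ^ 2) +
      ε * (k / 8 - (k + c)) * (Real.exp ((-4 * k + k / 2) * w.re) * b w ^ 2)) := by
    funext w
    unfold MM pi1 pi2
    have e : Real.exp ((-4 * k + k / 2) * w.re) = Real.exp (-4 * k * w.re) *
        Real.exp (k / 2 * w.re) := by
      rw [← Real.exp_add]
      congr 1
      ring
    rw [e, ha, hb, hc]
    ring
  have t1 := term_smooth ha2 (-4 * k)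
  have t2 := term_smooth ha2 (-4 * k + k / 2)
  have t3 := term_smooth hb2 (-4 * k)
  have t4 := term_smooth hb2 (-4 * k + k / 2)
  have u1 : ContDiffAt ℝ 2 (fun w : ℂ => (k - c) * (Real.exp (-4 * k * w.re) * a w ^ 2)) w :=
    contDiffAt_const.mul t1
  have u2 : ContDiffAt ℝ 2 (fun w : ℂ => ε * (k / 8 - (k - c)) *
    (Real.exp ((-4 * k + k / 2) * w.re) * a w ^ 2)) w := contDiffAt_const.mul t2
  have u3 : ContDiffAt ℝ 2 (fun w : ℂ => (k + c) * (Real.exp (-4 * k * w.re) * b w ^ 2)) w :=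
    contDiffAt_const.mul t3
  have u4 : ContDiffAt ℝ 2 (fun w : ℂ => ε * (k / 8 - (k + c)) *
    (Real.exp ((-4 * k + k / 2) * w.re) * b w ^ 2)) w := contDiffAt_const.mul t4
  have e : Real.exp ((-4 * k + k / 2) * w.re) = Real.exp (-4 * k * w.re) *
      Real.exp (k / 2 * w.re) := by
    rw [← Real.exp_add]
    congr 1
    ring
  have first : ∀ v, fderiv ℝ (MM K k ε Y) w v =
      (k - c) * (Real.exp (-4 * k * w.re) * (-4 * k * v.re * a w ^ 2 +
        2 * a w * fderiv ℝ a w v)) +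
      ε * (k / 8 - (k - c)) * (Real.exp (-4 * k * w.re) * Real.exp (k / 2 * w.re) *
        ((-4 * k + k / 2) * v.re * a w ^ 2 + 2 * a w * fderiv ℝ a w v)) +
      ((k + c) * (Real.exp (-4 * k * w.re) * (-4 * k * v.re * b w ^ 2 +
        2 * b w * fderiv ℝ b w v)) +
      ε * (k / 8 - (k + c)) * (Real.exp (-4 * k * w.re) * Real.exp (k / 2 * w.re) *
        ((-4 * k + k / 2) * v.re * b w ^ 2 + 2 * b w * fderiv ℝ b w v))) := by
    intro v
    rw [hMM, (add2 (u1.add u2) (u3.add u4) v).1, (add2 u1 u2 v).1, (add2 u3 u4 v).1,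
      (mul2 t1 _ v).1, (mul2 t2 _ v).1, (mul2 t3 _ v).1, (mul2 t4 _ v).1,
      (term ha2 _ v).1, (term ha2 _ v).1, (term hb2 _ v).1, (term hb2 _ v).1, e]
  have second : ∀ v, fderiv ℝ (fun x => fderiv ℝ (MM K k ε Y) x v) w v =
      (k - c) * (Real.exp (-4 * k * w.re) * ((-4 * k * v.re) ^ 2 * a w ^ 2 +
        4 * (-4 * k * v.re) * a w * fderiv ℝ a w v + 2 * (fderiv ℝ a w v) ^ 2 +
        2 * a w * fderiv ℝ (fun x => fderiv ℝ a x v) w v)) +
      ε * (k / 8 - (k - c)) * (Real.exp (-4 * k * w.re) * Real.exp (k / 2 * w.re) *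
        (((-4 * k + k / 2) * v.re) ^ 2 * a w ^ 2 +
        4 * ((-4 * k + k / 2) * v.re) * a w * fderiv ℝ a w v + 2 * (fderiv ℝ a w v) ^ 2 +
        2 * a w * fderiv ℝ (fun x => fderiv ℝ a x v) w v)) +
      ((k + c) * (Real.exp (-4 * k * w.re) * ((-4 * k * v.re) ^ 2 * b w ^ 2 +
        4 * (-4 * k * v.re) * b w * fderiv ℝ b w v + 2 * (fderiv ℝ b w v) ^ 2 +
        2 * b w * fderiv ℝ (fun x => fderiv ℝ b x v) w v)) +
      ε * (k / 8 - (k + c)) * (Real.exp (-4 * k * w.re) * Real.exp (k / 2 * w.re) *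
        (((-4 * k + k / 2) * v.re) ^ 2 * b w ^ 2 +
        4 * ((-4 * k + k / 2) * v.re) * b w * fderiv ℝ b w v + 2 * (fderiv ℝ b w v) ^ 2 +
        2 * b w * fderiv ℝ (fun x => fderiv ℝ b x v) w v))) := by
    intro v
    rw [hMM, (add2 (u1.add u2) (u3.add u4) v).2, (add2 u1 u2 v).2, (add2 u3 u4 v).2,
      (mul2 t1 _ v).2, (mul2 t2 _ v).2, (mul2 t3 _ v).2, (mul2 t4 _ v).2,
      (term ha2 _ v).2, (term ha2 _ v).2, (term hb2 _ v).2, (term hb2 _ v).2, e]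
  refine ⟨?_, ?_, ?_, ?_⟩
  · rw [hMM]
    exact (u1.add u2).add (u3.add u4)
  · unfold d1
    rw [first, ex, ebx]
    unfold v1 m pi1 pi2
    simp only [one_re]
    ring
  · unfold d2
    rw [first, ey, eby]
    unfold v2 pi1 pi2
    simp only [I_re]
    ring
  · have hla : fderiv ℝ (fun x => fderiv ℝ a x I) w I =
        4 * c ^ 2 * a w - fderiv ℝ (fun x => fderiv ℝ a x 1) w 1 := by
      rw [← hre]
      unfold lap d1 d2
      ring
    have hlb : fderiv ℝ (fun x => fderiv ℝ b x I) w I =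
        4 * c ^ 2 * b w - fderiv ℝ (fun x => fderiv ℝ b x 1) w 1 := by
      rw [← him]
      unfold lap d1 d2
      ring
    show fderiv ℝ (fun x => fderiv ℝ (MM K k ε Y) x 1) w 1 +
      fderiv ℝ (fun x => fderiv ℝ (MM K k ε Y) x I) w I = _
    rw [second, second, ex, ebx, ey, eby, hla, hlb]
    unfold Lap v1 m pi1 pi2
    simp only [one_re, I_re]
    ring

end Pool.Agent.H74.PH
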