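import Pool.Agent.H74.PH.Defs

set_option autoImplicit false

open Complex MeasureTheory Set Filter Topology Metric
open scoped ContDiff RealInnerProductSpace

namespace Pool.Agent.H74.PH

namespace NEXP

/-- directional first derivative of `e^A η²` -/
theorem first {A η : ℂ → ℝ} {w : ℂ} (hA : DifferentiableAt ℝ A w) (hη : DifferentiableAt ℝ η w)
    (e : ℂ) : fderiv ℝ (fun w => Real.exp (A w) * η w ^ 2) w e =
      Real.exp (A w) * (fderiv ℝ A w e * η w ^ 2 + 2 * η w * fderiv ℝ η w e) := by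
  have h1 : HasFDerivAt (fun w => Real.exp (A w)) (Real.exp (A w) • fderiv ℝ A w) w :=
    hA.hasFDerivAt.exp
  have h2 : HasFDerivAt (fun w => η w ^ 2) ((2 * η w) • fderiv ℝ η w) w := by
    have := hη.hasFDerivAt.pow 2
    simpa using this
  have h3 : HasFDerivAt (fun w => Real.exp (A w) * η w ^ 2) _ w := h1.mul h2
  rw [h3.fderiv]
  simp only [ContinuousLinearMap.add_apply, ContinuousLinearMap.smul_apply, smul_eq_mul]
  ring

theorem second {A η : ℂ → ℝ} {w : ℂ} (hA : ContDiffAt ℝ 2 A w) (hη : ContDiffAt ℝ 2 η w)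
    (e : ℂ) : fderiv ℝ (fun x => fderiv ℝ (fun w => Real.exp (A w) * η w ^ 2) x e) w e =
      Real.exp (A w) * ((fderiv ℝ A w e) ^ 2 * η w ^ 2 + 4 * fderiv ℝ A w e * η w * fderiv ℝ η w e +
        fderiv ℝ (fun x => fderiv ℝ A x e) w e * η w ^ 2 + 2 * (fderiv ℝ η w e) ^ 2 +
        2 * η w * fderiv ℝ (fun x => fderiv ℝ η x e) w e) := by
  have hA' : ∀ᶠ x in 𝓝 w, DifferentiableAt ℝ A x :=
    (hA.eventually (by simp)).mono fun x hx => hx.differentiableAt (by simp)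
  have hη' : ∀ᶠ x in 𝓝 w, DifferentiableAt ℝ η x :=
    (hη.eventually (by simp)).mono fun x hx => hx.differentiableAt (by simp)
  have hev : (fun x => fderiv ℝ (fun w => Real.exp (A w) * η w ^ 2) x e) =ᶠ[𝓝 w]
      fun x => Real.exp (A x) * (fderiv ℝ A x e * η x ^ 2 + 2 * η x * fderiv ℝ η x e) := by
    filter_upwards [hA', hη'] with x h1 h2
    exact first h1 h2 e
  rw [hev.fderiv_eq]
  have dA : DifferentiableAt ℝ (fun x => fderiv ℝ A x e) w := by
    have h := (hA.fderiv_right (m := 1) (by norm_num)).differentiableAt (by simp)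
    exact h.clm_apply (differentiableAt_const e)
  have dη : DifferentiableAt ℝ (fun x => fderiv ℝ η x e) w := by
    have h := (hη.fderiv_right (m := 1) (by norm_num)).differentiableAt (by simp)
    exact h.clm_apply (differentiableAt_const e)
  have h0A := hA.differentiableAt (by simp)
  have h0η := hη.differentiableAt (by simp)
  have h1 : HasFDerivAt (fun w => Real.exp (A w)) (Real.exp (A w) • fderiv ℝ A w) w :=
    h0A.hasFDerivAt.exp
  have h2 : HasFDerivAt (fun w => η w ^ 2) ((2 * η w) • fderiv ℝ η w) w := by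
    have := h0η.hasFDerivAt.pow 2
    simpa using this
  have h3 : HasFDerivAt (fun x => fderiv ℝ A x e * η x ^ 2 + 2 * η x * fderiv ℝ η x e) _ w :=
    (dA.hasFDerivAt.mul h2).add ((h0η.hasFDerivAt.const_mul 2).mul dη.hasFDerivAt)
  have h4 : HasFDerivAt (fun x => Real.exp (A x) *
      (fderiv ℝ A x e * η x ^ 2 + 2 * η x * fderiv ℝ η x e)) _ w := h1.mul h3
  rw [h4.fderiv]
  simp only [ContinuousLinearMap.add_apply, ContinuousLinearMap.smul_apply, smul_eq_mul,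
    nsmul_eq_mul, Nat.cast_ofNat]
  ring

end NEXP

/-- PH-NEXP: gradient and Laplacian of `e^A η²`. -/
theorem nexp {A η : ℂ → ℝ} {w : ℂ} (hA : ContDiffAt ℝ 2 A w) (hη : ContDiffAt ℝ 2 η w)
    (h0 : 0 < η w) :
    ContDiffAt ℝ 2 (fun w => Real.exp (A w) * η w ^ 2) w ∧
    gr (fun w => Real.exp (A w) * η w ^ 2) w / (Real.exp (A w) * η w ^ 2) ≤
      gr A w + 2 * gr η w / η w ∧
    lap A w - 2 * gr η w ^ 2 / η w ^ 2 - 2 * |lap η w| / η w ≤
      lap (fun w => Real.exp (A w) * η w ^ 2) w / (Real.exp (A w) * η w ^ 2) := by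
  have h0A := hA.differentiableAt (by simp : (2 : WithTop ℕ∞) ≠ 0)
  have h0η := hη.differentiableAt (by simp : (2 : WithTop ℕ∞) ≠ 0)
  have he := Real.exp_pos (A w)
  refine ⟨hA.exp.mul (hη.pow 2), ?_, ?_⟩
  · have e1 : d1 (fun w => Real.exp (A w) * η w ^ 2) w =
        Real.exp (A w) * η w ^ 2 * (d1 A w + 2 / η w * d1 η w) := by
      rw [d1, NEXP.first h0A h0η, d1, d1]; field_simp
    have e2 : d2 (fun w => Real.exp (A w) * η w ^ 2) w =
        Real.exp (A w) * η w ^ 2 * (d2 A w + 2 / η w * d2 η w) := by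
      rw [d2, NEXP.first h0A h0η, d2, d2]; field_simp
    have hN : 0 < Real.exp (A w) * η w ^ 2 := by positivity
    rw [div_le_iff₀ hN, gr, e1, e2]
    have e3 : (Real.exp (A w) * η w ^ 2 * (d1 A w + 2 / η w * d1 η w)) ^ 2 +
        (Real.exp (A w) * η w ^ 2 * (d2 A w + 2 / η w * d2 η w)) ^ 2 =
        (Real.exp (A w) * η w ^ 2) ^ 2 * ((d1 A w + 2 / η w * d1 η w) ^ 2 +
          (d2 A w + 2 / η w * d2 η w) ^ 2) := by ring
    rw [e3, Real.sqrt_mul (by positivity), Real.sqrt_sq hN.le, mul_comm]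
    gcongr
    have h1 : ‖(⟨d1 A w, d2 A w⟩ : ℂ) + ⟨2 / η w * d1 η w, 2 / η w * d2 η w⟩‖ ≤
        ‖(⟨d1 A w, d2 A w⟩ : ℂ)‖ + ‖(⟨2 / η w * d1 η w, 2 / η w * d2 η w⟩ : ℂ)‖ := norm_add_le _ _
    have h2 : ∀ a b : ℝ, ‖(⟨a, b⟩ : ℂ)‖ = √(a ^ 2 + b ^ 2) := by
      intro a b
      rw [Complex.norm_def, normSq_mk]; congr 1; ring
    have h3 : (⟨d1 A w, d2 A w⟩ : ℂ) + ⟨2 / η w * d1 η w, 2 / η w * d2 η w⟩ =
        ⟨d1 A w + 2 / η w * d1 η w, d2 A w + 2 / η w * d2 η w⟩ := rfl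
    rw [h3, h2, h2, h2] at h1
    refine h1.trans (le_of_eq ?_)
    have h4 : (2 / η w * d1 η w) ^ 2 + (2 / η w * d2 η w) ^ 2 =
        (2 / η w) ^ 2 * (d1 η w ^ 2 + d2 η w ^ 2) := by ring
    rw [h4, Real.sqrt_mul (by positivity), Real.sqrt_sq (by positivity), gr, gr]
    ring
  · have hN : 0 < Real.exp (A w) * η w ^ 2 := by positivity
    have e1 : d1 (d1 (fun w => Real.exp (A w) * η w ^ 2)) w =
      Real.exp (A w) * ((d1 A w) ^ 2 * η w ^ 2 + 4 * d1 A w * η w * d1 η w +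
        d1 (d1 A) w * η w ^ 2 + 2 * (d1 η w) ^ 2 + 2 * η w * d1 (d1 η) w) :=
      NEXP.second hA hη 1
    have e2 : d2 (d2 (fun w => Real.exp (A w) * η w ^ 2)) w =
      Real.exp (A w) * ((d2 A w) ^ 2 * η w ^ 2 + 4 * d2 A w * η w * d2 η w +
        d2 (d2 A) w * η w ^ 2 + 2 * (d2 η w) ^ 2 + 2 * η w * d2 (d2 η) w) :=
      NEXP.second hA hη I
    have e0 : lap (fun w => Real.exp (A w) * η w ^ 2) w =
      d1 (d1 (fun w => Real.exp (A w) * η w ^ 2)) w +
      d2 (d2 (fun w => Real.exp (A w) * η w ^ 2)) w := rfl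
    rw [le_div_iff₀ hN, e0, e1, e2]
    have hl2 : lap η w = d1 (d1 η) w + d2 (d2 η) w := rfl
    have hl3 : lap A w = d1 (d1 A) w + d2 (d2 A) w := rfl
    rw [hl2, hl3]
    have hg : gr η w ^ 2 = d1 η w ^ 2 + d2 η w ^ 2 := by
      rw [gr, Real.sq_sqrt (by positivity)]
    rw [hg]
    have hl : -|lap η w| ≤ lap η w := neg_abs_le _
    rw [lap] at hl
    have h5 : (d1 (d1 A) w + d2 (d2 A) w - 2 * (d1 η w ^ 2 + d2 η w ^ 2) / η w ^ 2 -
        2 * |d1 (d1 η) w + d2 (d2 η) w| / η w) * (Real.exp (A w) * η w ^ 2) =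
        Real.exp (A w) * ((d1 (d1 A) w + d2 (d2 A) w) * η w ^ 2 -
          2 * (d1 η w ^ 2 + d2 η w ^ 2) - 2 * η w * |d1 (d1 η) w + d2 (d2 η) w|) := by
      field_simp
    rw [h5, ← mul_add]
    gcongr
    have h6 : 2 * η w * (-|d1 (d1 η) w + d2 (d2 η) w|) ≤
        2 * η w * (d1 (d1 η) w + d2 (d2 η) w) := by gcongr
    nlinarith [sq_nonneg (d1 A w * η w + 2 * d1 η w), sq_nonneg (d2 A w * η w + 2 * d2 η w)]

end Pool.Agent.H74.PH
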