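import Pool.Agent.H74.PH.Defs

/-! PH-PPBD (helper91): bounds for `PP` on the physical plane -/

set_option autoImplicit false

open Complex MeasureTheory Set Filter Topology Metric
open scoped ContDiff RealInnerProductSpace

namespace Pool.Agent.H74.PH

namespace PPBD

lemma k0_pos {K : ℝ} (hK : 0 < K) : 0 < k0 K := by
  unfold k0
  have : 0 < √K := Real.sqrt_pos.2 hK
  positivity

lemma cc_le {K : ℝ} (hK : 0 < K) : |cc K| ≤ k0 K / 2 := by
  unfold cc k0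
  have h : 0 < √K := Real.sqrt_pos.2 hK
  have h2 : 0 < 1 / √K := by positivity
  rw [abs_le]
  constructor <;> linarith

lemma pi_bounds {k c E : ℝ} (hk : 0 < k) (hc : |c| ≤ k / 2) (hE0 : 0 ≤ E) (hE : E ≤ 1 / 10) :
    (9 / 20 * k ≤ pi1 k c E ∧ pi1 k c E ≤ 8 / 5 * k) ∧ (9 / 20 * k ≤ pi2 k c E ∧ pi2 k c E ≤ 8 / 5 * k) := by
  obtain ⟨c1, c2⟩ := abs_le.1 hc
  unfold pi1 pi2
  refine ⟨⟨?_, ?_⟩, ⟨?_, ?_⟩⟩ <;> nlinarith [mul_nonneg hk.le hE0, mul_nonneg hk.le (sub_nonneg.2 hE),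
    mul_nonneg (by linarith : 0 ≤ k / 2 - c) (sub_nonneg.2 hE), mul_nonneg (by linarith : 0 ≤ k / 2 + c) (sub_nonneg.2 hE),
    mul_nonneg (by linarith : 0 ≤ k / 2 - c) hE0, mul_nonneg (by linarith : 0 ≤ k / 2 + c) hE0]

/-- the denominator -/
lemma den_bounds {K k c E a b : ℝ} (hK : 0 < K) (hk : 0 < k) (hc : |c| ≤ k / 2) (hE0 : 0 ≤ E) (hE : E ≤ 1 / 10) :
    9 / 20 * k * (K * a ^ 2 + b ^ 2) ≤ pi1 k c E * (K * a ^ 2) + pi2 k c E * b ^ 2 ∧
    pi1 k c E * (K * a ^ 2) + pi2 k c E * b ^ 2 ≤ 8 / 5 * k * (K * a ^ 2 + b ^ 2) := by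
  obtain ⟨⟨p1, p2⟩, ⟨p3, p4⟩⟩ := pi_bounds hk hc hE0 hE
  have ha : 0 ≤ K * a ^ 2 := by positivity
  have hb : 0 ≤ b ^ 2 := by positivity
  have q1 := mul_le_mul_of_nonneg_right p1 ha
  have q2 := mul_le_mul_of_nonneg_right p2 ha
  have q3 := mul_le_mul_of_nonneg_right p3 hb
  have q4 := mul_le_mul_of_nonneg_right p4 hb
  constructor <;> nlinarith

end PPBD

open PPBD

/-- PH-PPBD: bounds for `PP` on the physical plane. -/
theorem PP_bounds {K : ℝ} (hK : 0 < K) : ∃ C : ℝ, 0 < C ∧ ∀ (k ε : ℝ) (g : ℂ → ℂ) (z : ℂ),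
    k0 K ≤ k → k ≤ 2 * k0 K → 0 ≤ ε → ε * ‖g z‖ ^ (√K * k / 2) ≤ 1 / 10 → g z ≠ 0 →
      0 ≤ PP K k ε g z ∧ (S g z ≠ 0 → 0 < PP K k ε g z) ∧
      PP K k ε g z ≤ C * ‖g z‖ ^ (4 * √K * (k - k0 K)) * sig K g z ^ 2 ∧
      ‖g z‖ ^ (4 * √K * (k - k0 K)) * sig K g z ^ 2 ≤ C * PP K k ε g z := by
  have hk0 := k0_pos hK
  have hs : 0 < √K := Real.sqrt_pos.2 hK
  have hss : √K * √K = K := Real.mul_self_sqrt hK.le
  set C1 : ℝ := (K + 1) / (9 / 20 * k0 K) with hC1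
  set C2 : ℝ := 16 / 5 * k0 K * (1 + 1 / K) with hC2
  have hC1p : 0 < C1 := by positivity
  have hC2p : 0 < C2 := by positivity
  refine ⟨C1 + C2, by positivity, ?_⟩
  intro k ε g z hk hk2 hε hE hg
  have hkp : 0 < k := hk0.trans_le hk
  set q := ‖g z‖ with hq
  have hq0 : 0 < q := norm_pos_iff.2 hg
  set a := (S g z).re with ha
  set b := (S g z).im with hb
  set E := ε * q ^ (√K * k / 2) with hEd
  have hE0 : 0 ≤ E := by positivity
  set N := K * a ^ 2 + b ^ 2 with hN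
  have hN0 : 0 ≤ N := by positivity
  set D := pi1 k (cc K) E * (K * a ^ 2) + pi2 k (cc K) E * b ^ 2 with hD
  have hc : |cc K| ≤ k / 2 := (cc_le hK).trans (by linarith)
  obtain ⟨d1, d2⟩ := den_bounds (a := a) (b := b) hK hkp hc hE0 hE
  rw [← hN, ← hD] at d1 d2
  set Q := q ^ (4 * √K * k - K - 3) with hQ
  have hQ0 : 0 < Q := Real.rpow_pos_of_pos hq0 _
  have hPP : PP K k ε g z = Q * N ^ 2 / D := rfl
  have hD0 : 0 ≤ D := le_trans (by positivity) d1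
  have hn : ‖S g z‖ ^ 2 = a ^ 2 + b ^ 2 := by
    rw [← Complex.normSq_eq_norm_sq, Complex.normSq_apply]; ring
  have hsig : q ^ (4 * √K * (k - k0 K)) * sig K g z ^ 2 = Q * (a ^ 2 + b ^ 2) := by
    have e1 : sig K g z ^ 2 = q ^ (K - 1) * (a ^ 2 + b ^ 2) := by
      unfold sig
      rw [mul_pow, hn, ← hq, ← Real.rpow_natCast (q ^ ((K - 1) / 2)) 2, ← Real.rpow_mul hq0.le]
      norm_num
    have e2 : 4 * √K * (k - k0 K) + (K - 1) = 4 * √K * k - K - 3 := by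
      have : 4 * √K * k0 K = 2 * (K + 1) := by
        unfold k0
        field_simp
        nlinarith
      linarith
    rw [e1, ← mul_assoc, ← Real.rpow_add hq0, e2]
  have hnn : 0 ≤ a ^ 2 + b ^ 2 := by positivity
  have hNn : N ≤ (K + 1) * (a ^ 2 + b ^ 2) := by
    rw [hN]
    nlinarith [sq_nonneg a, sq_nonneg b]
  have hnN : a ^ 2 + b ^ 2 ≤ (1 + 1 / K) * N := by
    have e : (1 + 1 / K) * N = K * a ^ 2 + b ^ 2 + a ^ 2 + b ^ 2 / K := by
      rw [hN]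
      field_simp
      ring
    rw [e]
    have h1 : 0 ≤ K * a ^ 2 := by positivity
    have h2 : 0 ≤ b ^ 2 / K := by positivity
    linarith
  rw [mul_assoc (C1 + C2), hsig, hPP]
  rcases hN0.eq_or_lt with h0 | h0
  · have ab : a ^ 2 + b ^ 2 = 0 := by
      have : a ^ 2 + b ^ 2 ≤ 0 := by rw [← h0, mul_zero] at hnN; exact hnN
      linarith
    rw [← h0, ab]
    refine ⟨by simp, fun hS => ?_, by simp, by simp⟩
    exfalso
    rw [ab] at hn
    exact hS (norm_eq_zero.1 (pow_eq_zero_iff (n := 2) (by norm_num) |>.1 hn))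
  · have hDp : 0 < D := lt_of_lt_of_le (by positivity) d1
    refine ⟨by positivity, fun _ => by positivity, ?_, ?_⟩
    · calc Q * N ^ 2 / D ≤ Q * N ^ 2 / (9 / 20 * k * N) := by gcongr
        _ = Q * N / (9 / 20 * k) := by field_simp
        _ ≤ Q * ((K + 1) * (a ^ 2 + b ^ 2)) / (9 / 20 * k0 K) := by gcongr
        _ = C1 * (Q * (a ^ 2 + b ^ 2)) := by rw [hC1]; field_simp
        _ ≤ (C1 + C2) * (Q * (a ^ 2 + b ^ 2)) := by
            have : 0 ≤ C2 * (Q * (a ^ 2 + b ^ 2)) := by positivity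
            linarith
    · have h2 : Q * N ≤ 16 / 5 * k0 K * (Q * N ^ 2 / D) := by
        have e : Q * N = (8 / 5 * k * N) * (Q * N ^ 2 / (8 / 5 * k * N)) / N := by field_simp
        have h3 : Q * N ^ 2 / (8 / 5 * k * N) ≤ Q * N ^ 2 / D := by gcongr
        have h4 : Q * N = 8 / 5 * k * (Q * N ^ 2 / (8 / 5 * k * N)) := by field_simp
        rw [h4]
        have h5 : 0 ≤ Q * N ^ 2 / D := by positivity
        have h6 : 0 ≤ Q * N ^ 2 / (8 / 5 * k * N) := by positivity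
        calc 8 / 5 * k * (Q * N ^ 2 / (8 / 5 * k * N)) ≤ 8 / 5 * k * (Q * N ^ 2 / D) := by gcongr
          _ ≤ 16 / 5 * k0 K * (Q * N ^ 2 / D) := by
              apply mul_le_mul_of_nonneg_right _ h5
              linarith
      calc Q * (a ^ 2 + b ^ 2) ≤ Q * ((1 + 1 / K) * N) := by gcongr
        _ = (1 + 1 / K) * (Q * N) := by ring
        _ ≤ (1 + 1 / K) * (16 / 5 * k0 K * (Q * N ^ 2 / D)) := by gcongr
        _ = C2 * (Q * N ^ 2 / D) := by rw [hC2]; ring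
        _ ≤ (C1 + C2) * (Q * N ^ 2 / D) := by
            have : 0 ≤ C1 * (Q * N ^ 2 / D) := by positivity
            linarith

end Pool.Agent.H74.PH
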