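import Pool.Agent.H74.PH.Defs

set_option autoImplicit false

open Complex MeasureTheory Set Filter Topology Metric
open scoped ContDiff RealInnerProductSpace

namespace Pool.Agent.H74.PH

theorem rpow_half_mul_scale {K l : ℝ} (hl : 0 < l) : l ^ ((K - 1) / 2) * l = l ^ ((K + 1) / 2) := by
  have : l ^ ((K - 1) / 2) * l = l ^ ((K - 1) / 2) * l ^ (1 : ℝ) := by rw [Real.rpow_one]
  rw [this, ← Real.rpow_add hl]
  congr 1; ring

theorem hasFDerivAt_affine_scale (z0 z : ℂ) (R : ℝ) :
    HasFDerivAt (fun z : ℂ => z0 + R * z) ((R : ℝ) • ContinuousLinearMap.id ℝ ℂ) z := by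
  have h1 : HasFDerivAt (fun z : ℂ => (R : ℝ) • z) ((R : ℝ) • ContinuousLinearMap.id ℝ ℂ) z :=
    (hasFDerivAt_id z).const_smul R
  have h2 := h1.const_add z0
  have e : (fun z : ℂ => z0 + R * z) = (fun x : ℂ => z0 + (R : ℝ) • x) := by
    funext x; simp
  rw [e]
  exact h2

theorem fderiv_scale_scale {g : ℂ → ℂ} {z0 z : ℂ} {R l : ℝ}
    (hd : DifferentiableAt ℝ g (z0 + R * z)) (v : ℂ) :
    fderiv ℝ (fun z => l * g (z0 + R * z)) z v = l * R * fderiv ℝ g (z0 + R * z) v := by
  have h1 := hd.hasFDerivAt.comp z (hasFDerivAt_affine_scale z0 z R)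
  have h2 := h1.const_smul l
  have e : (fun z => (l : ℂ) * g (z0 + R * z)) =
      (l • (g ∘ fun z : ℂ => z0 + R * z)) := by
    funext x; simp
  rw [e, h2.fderiv]
  simp [mul_assoc]

theorem scale {K : ℝ} {Ω : Set ℂ} {g : ℂ → ℂ} (hg : PGrad K Ω g) (z0 : ℂ) {R l : ℝ} (hR : 0 < R)
    (hl : 0 < l) :
    PGrad K {z | z0 + R * z ∈ Ω} (fun z => l * g (z0 + R * z)) ∧
    (∀ z, z0 + R * z ∈ Ω → g (z0 + R * z) ≠ 0 →
      S (fun z => l * g (z0 + R * z)) z = l * R * S g (z0 + R * z)) ∧
    (∀ z, z0 + R * z ∈ Ω → sig K (fun z => l * g (z0 + R * z)) z =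
      l ^ ((K + 1) / 2) * R * sig K g (z0 + R * z)) ∧
    ∀ z, V (K + 1) (l * g (z0 + R * z)) = l ^ ((K + 1) / 2) • V (K + 1) (g (z0 + R * z)) := by
  have hlC : (l : ℂ) ≠ 0 := by exact_mod_cast hl.ne'
  have hdiff : ∀ z, z0 + R * z ∈ Ω → g (z0 + R * z) ≠ 0 →
      DifferentiableAt ℝ g (z0 + R * z) := fun z hz h0 =>
    (hg.smooth _ hz h0).differentiableAt (by norm_num)
  have hS : ∀ z, z0 + R * z ∈ Ω → g (z0 + R * z) ≠ 0 →
      S (fun z => l * g (z0 + R * z)) z = l * R * S g (z0 + R * z) := by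
    intro z hz h0
    unfold S
    rw [fderiv_scale_scale (hdiff z hz h0)]
    have : fderiv ℝ g (z0 + R * z) (l * g (z0 + R * z)) =
        l * fderiv ℝ g (z0 + R * z) (g (z0 + R * z)) := by
      have := (fderiv ℝ g (z0 + R * z)).map_smul l (g (z0 + R * z))
      simpa using this
    rw [this]
    field_simp
  refine ⟨⟨?_, ?_, ?_, ?_⟩, hS, ?_, ?_⟩
  · exact hg.isOpen.preimage (by fun_prop)
  · refine ContinuousOn.mul continuousOn_const ?_
    exact hg.cont.comp (by fun_prop) (fun z hz => hz)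
  · intro z hz h0
    have h0' : g (z0 + R * z) ≠ 0 := by
      intro h; apply h0; simp [h]
    have h1 : ContDiffAt ℝ 3 (fun z : ℂ => z0 + R * z) z := by fun_prop
    have h2 := (hg.smooth _ hz h0').comp z h1
    exact contDiffAt_const.mul h2
  · intro z hz h0 s r
    have h0' : g (z0 + R * z) ≠ 0 := by
      intro h; apply h0; simp [h]
    rw [hS z hz h0', fderiv_scale_scale (hdiff z hz h0')]
    have e1 : ((s : ℂ) + r * I) * (l * g (z0 + R * z)) =
        ((l : ℝ) • (((s : ℂ) + r * I) * g (z0 + R * z))) := by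
      rw [Complex.real_smul]; ring
    rw [e1, ContinuousLinearMap.map_smul, hg.eq _ hz h0' s r, Complex.real_smul]
    have er : ((l : ℂ) * R * S g (z0 + R * z)).re = l * R * (S g (z0 + R * z)).re := by
      rw [← Complex.ofReal_mul, Complex.re_ofReal_mul]
    have ei : ((l : ℂ) * R * S g (z0 + R * z)).im = l * R * (S g (z0 + R * z)).im := by
      rw [← Complex.ofReal_mul, Complex.im_ofReal_mul]
    rw [er, ei]
    push_cast
    ring
  · intro z hz
    unfold sig
    by_cases h0 : g (z0 + R * z) = 0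
    · have e1 : S (fun z => (l : ℂ) * g (z0 + R * z)) z = 0 := by
        unfold S; simp [h0]
      have e2 : S g (z0 + R * z) = 0 := by unfold S; simp [h0]
      rw [e1, e2]; simp
    · rw [hS z hz h0, norm_mul, norm_mul, norm_mul, Complex.norm_real, Complex.norm_real,
        Real.norm_of_nonneg hl.le, Real.norm_of_nonneg hR.le,
        Real.mul_rpow hl.le (norm_nonneg _), ← rpow_half_mul_scale hl]
      ring
  · intro z
    unfold V
    have e : (K + 1 - 2) / 2 = (K - 1) / 2 := by ring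
    rw [e, norm_mul, Complex.norm_real, Real.norm_of_nonneg hl.le,
      Real.mul_rpow hl.le (norm_nonneg _), ← rpow_half_mul_scale hl]
    simp only [Complex.real_smul]
    push_cast
    ring

end Pool.Agent.H74.PH
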