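import Pool.Agent.H74.PH.Defs

/-!
Statements of the stubs of project PH.  Prove stub X in `Pool/Agent/H74/PH/X.lean`
(`import Pool.Agent.H74.PH.Defs`, same namespace, same name, same statement).
-/

set_option autoImplicit false

open Complex MeasureTheory Set Filter Topology Metric
open scoped ContDiff RealInnerProductSpace

namespace Pool.Agent.H74.PH

/-- PH-WEAK: from the weak form to the classical equation off the critical set. -/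
theorem pgrad_of_weak {p : ℝ} (hp : 1 < p) {Ω : Set ℂ} (hΩ : IsOpen Ω) {u : ℂ → ℝ}
    (hu : IsPHarmonicOn p Ω u) (hs : ∀ z ∈ Ω, grad u z ≠ 0 → ContDiffAt ℝ 4 u z) :
    PGrad (p - 1) Ω (grad u) := sorry

/-- PH-SIG -/
theorem sig_bounds {K : ℝ} (hK : 0 < K) : ∃ C : ℝ, 0 < C ∧ ∀ (Ω : Set ℂ) (g : ℂ → ℂ),
    PGrad K Ω g → ∀ z ∈ Ω, g z ≠ 0 →
      DifferentiableAt ℝ (fun z => V (K + 1) (g z)) z ∧
      sig K g z ≤ C * ‖fderiv ℝ (fun z => V (K + 1) (g z)) z‖ ∧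
      ‖fderiv ℝ (fun z => V (K + 1) (g z)) z‖ ≤ C * sig K g z := sorry

/-- PH-SCALE -/
theorem scale {K : ℝ} {Ω : Set ℂ} {g : ℂ → ℂ} (hg : PGrad K Ω g) (z0 : ℂ) {R l : ℝ} (hR : 0 < R)
    (hl : 0 < l) :
    PGrad K {z | z0 + R * z ∈ Ω} (fun z => l * g (z0 + R * z)) ∧
    (∀ z, z0 + R * z ∈ Ω → g (z0 + R * z) ≠ 0 →
      S (fun z => l * g (z0 + R * z)) z = l * R * S g (z0 + R * z)) ∧
    (∀ z, z0 + R * z ∈ Ω → sig K (fun z => l * g (z0 + R * z)) z =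
      l ^ ((K + 1) / 2) * R * sig K g (z0 + R * z)) ∧
    ∀ z, V (K + 1) (l * g (z0 + R * z)) = l ^ ((K + 1) / 2) • V (K + 1) (g (z0 + R * z)) := sorry

/-- PH-LAPMIN: necessary conditions at a local minimum. -/
theorem lap_min {f h : ℂ → ℝ} {w : ℂ} (hf : ContDiffAt ℝ 2 f w) (hh : ContDiffAt ℝ 2 h w)
    (hle : ∀ᶠ x in 𝓝 w, f x ≤ h x) (heq : f w = h w) :
    d1 f w = d1 h w ∧ d2 f w = d2 h w ∧ lap f w ≤ lap h w := sorry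

/-- PH-HODO: the hodograph transform at a noncritical point of `V g`. -/
theorem hodograph {K : ℝ} (hK : 0 < K) {Ω : Set ℂ} {g : ℂ → ℂ} (hg : PGrad K Ω g) {z : ℂ}
    (hz : z ∈ Ω) (h0 : g z ≠ 0) (hS : S g z ≠ 0) :
    ∃ (W : Set ℂ) (Z Y : ℂ → ℂ) (w0 : ℂ), Hodo K W Z Y ∧ w0 ∈ W ∧ Z w0 = z ∧
      ∀ w ∈ W, Z w ∈ Ω ∧ g (Z w) = exp (w.re / √K + w.im * I) ∧
        S g (Z w) = Real.exp (k0 K * w.re + w.re / √K) / ‖Y w‖ ^ 2 *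
          ((Y w).re / √K - (Y w).im * I) := sorry

/-- PH-PPMM -/
theorem PP_mul_MM {K k ε : ℝ} (hK : 0 < K) {g : ℂ → ℂ} {Z Y : ℂ → ℂ} {w : ℂ} (hY : Y w ≠ 0)
    (hk : k0 K ≤ k) (hε : 0 ≤ ε) (hE : ε * Real.exp (k / 2 * w.re) ≤ 1 / 10)
    (hg : g (Z w) = exp (w.re / √K + w.im * I))
    (hS : S g (Z w) = Real.exp (k0 K * w.re + w.re / √K) / ‖Y w‖ ^ 2 *
          ((Y w).re / √K - (Y w).im * I)) :
    0 < MM K k ε Y w ∧ PP K k ε g (Z w) * MM K k ε Y w = 1 := sorry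

/-- PH-CORE: the quadratic form inequality. -/
theorem core {k c E a b x y : ℝ} (hk : 0 < k) (hc : |c| ≤ k / 2) (hE0 : 0 ≤ E) (hE : E ≤ 1 / 10)
    (hab : 0 < a ^ 2 + b ^ 2) :
    Lap k c E a b x y ≤ -(k ^ 2 * E / 200) * m k c E a b +
      1000 * k * √(v1 k c E a b x y ^ 2 + v2 k c E a b x y ^ 2) +
      1000 * (v1 k c E a b x y ^ 2 + v2 k c E a b x y ^ 2) / m k c E a b := sorry

/-- PH-LAPY -/
theorem lapY {K : ℝ} (hK : 0 < K) {W : Set ℂ} {Z Y : ℂ → ℂ} (h : Hodo K W Z Y) {w : ℂ}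
    (hw : w ∈ W) :
    lap (fun w => (Y w).re) w = 4 * cc K ^ 2 * (Y w).re ∧
    lap (fun w => (Y w).im) w = 4 * cc K ^ 2 * (Y w).im := sorry

/-- PH-MMDER: derivatives of `M` (uses PH-LAPY, as a hypothesis here). -/
theorem MM_deriv {K k ε : ℝ} (hK : 0 < K) {W : Set ℂ} {Z Y : ℂ → ℂ} (h : Hodo K W Z Y) {w : ℂ}
    (hw : w ∈ W)
    (hre : lap (fun w => (Y w).re) w = 4 * cc K ^ 2 * (Y w).re)
    (him : lap (fun w => (Y w).im) w = 4 * cc K ^ 2 * (Y w).im) :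
    ContDiffAt ℝ 2 (MM K k ε Y) w ∧
    d1 (MM K k ε Y) w = Real.exp (-4 * k * w.re) *
      v1 k (cc K) (ε * Real.exp (k / 2 * w.re)) (Y w).re (Y w).im
        (fderiv ℝ Y w 1).re (fderiv ℝ Y w I).re ∧
    d2 (MM K k ε Y) w = Real.exp (-4 * k * w.re) *
      v2 k (cc K) (ε * Real.exp (k / 2 * w.re)) (Y w).re (Y w).im
        (fderiv ℝ Y w 1).re (fderiv ℝ Y w I).re ∧
    lap (MM K k ε Y) w = Real.exp (-4 * k * w.re) *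
      Lap k (cc K) (ε * Real.exp (k / 2 * w.re)) (Y w).re (Y w).im
        (fderiv ℝ Y w 1).re (fderiv ℝ Y w I).re := sorry

/-- PH-NEXP: gradient and Laplacian of `e^A η²`. -/
theorem nexp {A η : ℂ → ℝ} {w : ℂ} (hA : ContDiffAt ℝ 2 A w) (hη : ContDiffAt ℝ 2 η w)
    (h0 : 0 < η w) :
    ContDiffAt ℝ 2 (fun w => Real.exp (A w) * η w ^ 2) w ∧
    gr (fun w => Real.exp (A w) * η w ^ 2) w / (Real.exp (A w) * η w ^ 2) ≤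
      gr A w + 2 * gr η w / η w ∧
    lap A w - 2 * gr η w ^ 2 / η w ^ 2 - 2 * |lap η w| / η w ≤
      lap (fun w => Real.exp (A w) * η w ^ 2) w / (Real.exp (A w) * η w ^ 2) := sorry

/-- PH-ETA: the cut-off function `1 - |Z|²` on the hodograph plane. -/
theorem eta {K : ℝ} (hK : 0 < K) : ∃ C : ℝ, 0 < C ∧ ∀ (W : Set ℂ) (Z Y : ℂ → ℂ), Hodo K W Z Y →
    ∀ w ∈ W, ‖Z w‖ ≤ 1 →
      ContDiffAt ℝ 2 (fun w => 1 - ‖Z w‖ ^ 2) w ∧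
      gr (fun w => 1 - ‖Z w‖ ^ 2) w ≤ C * omega K Y w ∧
      |lap (fun w => 1 - ‖Z w‖ ^ 2) w| ≤ C * (omega K Y w + omega K Y w ^ 2) := sorry

/-- PH-AF: the function `δ |F - c0|²` on the hodograph plane, `F = exp (k0 t + i φ)`. -/
theorem afun {K : ℝ} (hK : 0 < K) : ∃ C : ℝ, 0 < C ∧ ∀ (δ : ℝ) (c0 w : ℂ), 0 ≤ δ →
    ‖exp (k0 K * w.re + w.im * I) - c0‖ ≤ 1 → 1 ≤ Real.exp (k0 K * w.re) →
      ContDiff ℝ 2 (fun w : ℂ => δ * ‖exp (k0 K * w.re + w.im * I) - c0‖ ^ 2) ∧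
      gr (fun w : ℂ => δ * ‖exp (k0 K * w.re + w.im * I) - c0‖ ^ 2) w ≤
        C * δ * Real.exp (k0 K * w.re) ∧
      4 * δ * Real.exp (k0 K * w.re) ^ 2 ≤
        lap (fun w : ℂ => δ * ‖exp (k0 K * w.re + w.im * I) - c0‖ ^ 2) w := sorry

/-- PH-PPBD: bounds for `PP` on the physical plane. -/
theorem PP_bounds {K : ℝ} (hK : 0 < K) : ∃ C : ℝ, 0 < C ∧ ∀ (k ε : ℝ) (g : ℂ → ℂ) (z : ℂ),
    k0 K ≤ k → k ≤ 2 * k0 K → 0 ≤ ε → ε * ‖g z‖ ^ (√K * k / 2) ≤ 1 / 10 → g z ≠ 0 →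
      0 ≤ PP K k ε g z ∧ (S g z ≠ 0 → 0 < PP K k ε g z) ∧
      PP K k ε g z ≤ C * ‖g z‖ ^ (4 * √K * (k - k0 K)) * sig K g z ^ 2 ∧
      ‖g z‖ ^ (4 * √K * (k - k0 K)) * sig K g z ^ 2 ≤ C * PP K k ε g z := sorry

/-- PH-PPCONT: continuity of `PP` on a closed ball (uses PH-PPBD, as a hypothesis here). -/
theorem PP_cont {K k ε C L : ℝ} (hK : 0 < K) {Ω : Set ℂ} {g : ℂ → ℂ} (hg : PGrad K Ω g)
    (hB : closedBall (0 : ℂ) 1 ⊆ Ω) (hk : k0 K ≤ k) (hε : 0 ≤ ε)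
    (hE : ∀ z ∈ closedBall (0 : ℂ) 1, ε * ‖g z‖ ^ (√K * k / 2) ≤ 1 / 10)
    (hbd : ∀ z ∈ closedBall (0 : ℂ) 1, g z ≠ 0 → 0 ≤ PP K k ε g z ∧
      PP K k ε g z ≤ C * ‖g z‖ ^ (4 * √K * (k - k0 K)) * sig K g z ^ 2)
    (hcrit : (∀ z ∈ closedBall (0 : ℂ) 1, g z ≠ 0) ∨
      (k0 K < k ∧ ∀ z ∈ closedBall (0 : ℂ) 1, sig K g z ≤ L)) :
    ContinuousOn (PP K k ε g) (closedBall 0 1) := sorry

/-- PH-LIPSEG: a gradient bound off the zeros gives a Lipschitz bound. -/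
theorem lip_seg {F : ℂ → ℂ} {s : Set ℂ} (hs : Convex ℝ s) (ho : IsOpen s) (hF : ContinuousOn F s)
    {L : ℝ} (hL : 0 ≤ L) (hd : ∀ z ∈ s, F z ≠ 0 → DifferentiableAt ℝ F z ∧ ‖fderiv ℝ F z‖ ≤ L)
    {x y : ℂ} (hx : x ∈ s) (hy : y ∈ s) : ‖F x - F y‖ ≤ L * ‖x - y‖ := sorry

/-- PH-L2: from the gradient estimate to the `L²` decay. -/
theorem decay {C : ℝ} (hC : 0 < C) : ∃ C' : ℝ, 0 < C' ∧ ∀ (z : ℂ) (R : ℝ) (F : ℂ → ℂ), 0 < R →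
    ContinuousOn F (ball z R) → IntegrableOn (fun x => ‖F x‖ ^ 2) (ball z R) →
    (∀ (c0 x : ℂ) (r O : ℝ), 0 < r → 0 < O → closedBall x r ⊆ ball z R →
      (∀ y ∈ closedBall x r, ‖F y - c0‖ ≤ O) →
      ∀ y1 ∈ ball x (r / 2), ∀ y2 ∈ ball x (r / 2), ‖F y1 - F y2‖ ≤ C * O / r * ‖y1 - y2‖) →
    ∀ θ : ℝ, 0 < θ → θ ≤ 1 → osc F z (θ * R) ≤ C' * θ * osc F z R := sorry

/-! Assembly stubs: they may `import Pool.Agent.H74.PH.Stubs` and use the stubs above. -/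

/-- PH-MINPT: the inequality at a minimum point on the hodograph plane
(from PH-LAPMIN, PH-CORE, PH-LAPY, PH-MMDER, PH-NEXP). -/
theorem minpt {K k ε : ℝ} (hK : 0 < K) (hk : k0 K ≤ k) (hε : 0 ≤ ε) {W : Set ℂ} {Z Y : ℂ → ℂ}
    (hH : Hodo K W Z Y) {w0 : ℂ} (hw : w0 ∈ W) (hE : ε * Real.exp (k / 2 * w0.re) ≤ 1 / 10)
    {A η : ℂ → ℝ} (hA : ContDiffAt ℝ 2 A w0) (hη : ContDiffAt ℝ 2 η w0) (h0 : 0 < η w0)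
    {m0 : ℝ} (hm0 : 0 < m0)
    (hle : ∀ᶠ w in 𝓝 w0, m0 * (Real.exp (A w) * η w ^ 2) ≤ MM K k ε Y w)
    (heq : m0 * (Real.exp (A w0) * η w0 ^ 2) = MM K k ε Y w0) :
    lap A w0 + k ^ 2 * (ε * Real.exp (k / 2 * w0.re)) / 200 ≤
      1000 * k * (gr A w0 + 2 * gr η w0 / η w0) + 1000 * (gr A w0 + 2 * gr η w0 / η w0) ^ 2 +
      2 * gr η w0 ^ 2 / η w0 ^ 2 + 2 * |lap η w0| / η w0 := sorry

/-- PH-MAX: existence of a maximum point of `e^A (1 - |z|²)² PP`. -/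
theorem max_point {K k ε : ℝ} {g : ℂ → ℂ} {A : ℂ → ℝ} (hA : ContinuousOn A (closedBall 0 1))
    (hcont : ContinuousOn (PP K k ε g) (closedBall 0 1))
    (hpos : ∀ z ∈ closedBall (0 : ℂ) 1, 0 ≤ PP K k ε g z) (h0 : PP K k ε g 0 ≠ 0) :
    ∃ z0 ∈ ball (0 : ℂ) 1, g z0 ≠ 0 ∧ S g z0 ≠ 0 ∧ 0 < PP K k ε g z0 ∧
      ∀ z ∈ closedBall (0 : ℂ) 1, Real.exp (A z) * (1 - ‖z‖ ^ 2) ^ 2 * PP K k ε g z ≤
        Real.exp (A z0) * (1 - ‖z0‖ ^ 2) ^ 2 * PP K k ε g z0 := sorry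

/-- PH-KEY: PH-HODO, PH-PPMM, PH-MINPT and PH-ETA at a maximum point. -/
theorem key {K : ℝ} (hK : 0 < K) : ∃ C : ℝ, 0 < C ∧ ∀ (k ε : ℝ) (Ω : Set ℂ) (g : ℂ → ℂ)
    (A A' : ℂ → ℝ) (z0 : ℂ), k0 K ≤ k → k ≤ 2 * k0 K → 0 ≤ ε → PGrad K Ω g → ball 0 1 ⊆ Ω →
    z0 ∈ ball (0 : ℂ) 1 → g z0 ≠ 0 → S g z0 ≠ 0 → 0 < PP K k ε g z0 →
    (∀ z ∈ ball (0 : ℂ) 1, ε * ‖g z‖ ^ (√K * k / 2) ≤ 1 / 10) →
    (∀ z ∈ ball (0 : ℂ) 1, Real.exp (A z) * (1 - ‖z‖ ^ 2) ^ 2 * PP K k ε g z ≤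
        Real.exp (A z0) * (1 - ‖z0‖ ^ 2) ^ 2 * PP K k ε g z0) →
    (∀ w z : ℂ, z ∈ ball (0 : ℂ) 1 → g z = exp (w.re / √K + w.im * I) → A z = A' w) →
    (∀ w : ℂ, g z0 = exp (w.re / √K + w.im * I) → ContDiffAt ℝ 2 A' w) →
    ∃ (w0 : ℂ) (X : ℝ), g z0 = exp (w0.re / √K + w0.im * I) ∧ 0 < X ∧
      lap A' w0 + ε * Real.exp (k / 2 * w0.re) / 200 ≤
        C * (X + gr A' w0) + C * (X + gr A' w0) ^ 2 ∧
      (1 - ‖z0‖ ^ 2) ^ 2 * PP K k ε g z0 * X ^ 2 ≤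
        C * Real.exp ((4 * k - 2 * k0 K) * w0.re) := sorry

/-- PH-CASEA (from PH-PPBD, PH-PPCONT, PH-MAX, PH-KEY) -/
theorem caseA {K : ℝ} (hK : 0 < K) : ∃ C : ℝ, 0 < C ∧ ∀ (Ω : Set ℂ) (g : ℂ → ℂ) (L : ℝ),
    PGrad K Ω g → closedBall 0 1 ⊆ Ω → (∀ z ∈ closedBall (0 : ℂ) 1, ‖g z‖ ≤ 1) →
    (∀ z ∈ closedBall (0 : ℂ) 1, sig K g z ≤ L) → sig K g 0 ≤ C := sorry

/-- PH-CASEB (from PH-PPBD, PH-PPCONT, PH-MAX, PH-KEY, PH-AF) -/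
theorem caseB {K : ℝ} (hK : 0 < K) : ∃ C K1 : ℝ, 0 < C ∧ 0 < K1 ∧ ∀ (Ω : Set ℂ) (g : ℂ → ℂ)
    (c0 : ℂ), PGrad K Ω g → closedBall 0 1 ⊆ Ω → K1 ≤ ‖c0‖ →
    (∀ z ∈ closedBall (0 : ℂ) 1, ‖V (K + 1) (g z) - c0‖ ≤ 1) → sig K g 0 ≤ C := sorry

/-- PH-MASTER (from PH-SCALE, PH-CASEA, PH-CASEB) -/
theorem master {K : ℝ} (hK : 0 < K) : ∃ C : ℝ, 0 < C ∧ ∀ (Ω : Set ℂ) (g : ℂ → ℂ)
    (c0 z0 : ℂ) (R O L : ℝ), PGrad K Ω g → 0 < R → 0 < O → closedBall z0 R ⊆ Ω →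
    (∀ z ∈ closedBall z0 R, ‖V (K + 1) (g z) - c0‖ ≤ O) →
    (∀ z ∈ closedBall z0 R, sig K g z ≤ L) → sig K g z0 ≤ C * O / R := sorry

end Pool.Agent.H74.PH
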